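import Pool.Agent.Lib.MP_2a816b_nt.SW.Unif2

/-!
# Windows shorter than 1: transfer from the pair correlation function
-/

open Complex Set Filter Topology MeasureTheory

namespace Pool.Agent.Lib.MP_2a816b_nt.SW

open Pool.Agent.Lib.MP_00e05b_nt Pool.Agent.Lib.MP_00e05b_nt.Mont Pool.Agent.Lib.MP_2a816b_nt.PV

/-- under RH: from `FF` to `RR` -/
theorem rr_barrier (hRH : RiemannHypothesis)
    (h : ∃ δ : ℝ, 0 < δ ∧ δ < 1 ∧ ∀ᶠ T : ℝ in atTop, ∀ b : ℝ, δ ≤ ∫ α in b..(b + 1 - δ), FF α T) :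
    ∃ δ : ℝ, 0 < δ ∧ δ < 1 ∧ ∀ A : ℝ, ∃ T₀ : ℝ, ∀ T b : ℝ, T₀ ≤ T → 1 ≤ b → b ≤ A →
      δ ≤ ∫ α in b..(b + 1 - δ), RR α T := by
  obtain ⟨δ, h0, h1, hF⟩ := h
  obtain ⟨t₀, ht₀⟩ := eventually_atTop.1 hF
  refine ⟨δ / 2, by linarith, by linarith, fun A => ?_⟩
  obtain ⟨T₀, hT₀⟩ := rr_of_ff hRH (l := 1 - δ / 2) (l' := 1 - δ) (c := δ) (by linarith) (by linarith) h0
    ⟨t₀, fun t ht a _ => by
      have := ht₀ t ht a
      rwa [add_sub_assoc] at this⟩ A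
  refine ⟨T₀, fun T b hT hb hbA => ?_⟩
  have h2 := hT₀ T b hT hb hbA
  rwa [← add_sub_assoc] at h2

/-- **Windows shorter than 1.** If RH fails the windows must start late enough. -/
theorem short_windows (h : RiemannHypothesis →
      ∃ δ : ℝ, 0 < δ ∧ δ < 1 ∧ ∀ᶠ T : ℝ in atTop, ∀ b : ℝ, δ ≤ ∫ α in b..(b + 1 - δ), FF α T) :
    ∃ δ b₀ : ℝ, 0 < δ ∧ δ < 1 ∧ 1 ≤ b₀ ∧ (RiemannHypothesis → b₀ = 1) ∧ ∀ A : ℝ, ∃ T₀ : ℝ, ∀ T b : ℝ, T₀ ≤ T →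
      b₀ ≤ b → b ≤ A → δ ≤ ∫ α in b..(b + 1 - δ), RR α T := by
  by_cases hRH : RiemannHypothesis
  · obtain ⟨δ, h0, h1, H⟩ := rr_barrier hRH (h hRH)
    exact ⟨δ, 1, h0, h1, le_rfl, fun _ => rfl, H⟩
  · obtain ⟨ρ, hρ, hζ⟩ : ∃ ρ : ℂ, 1 / 2 < ρ.re ∧ riemannZeta ρ = 0 := by
      by_contra hcon
      push Not at hcon
      exact hRH (RH_of_zfree fun ρ h _ => hcon ρ h)
    set μ : ℝ := 2 * ρ.re - 1 with hμ
    have hμ0 : 0 < μ := by rw [hμ]; linarith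
    have hbμ : μ * (1 + 2 / μ) = μ + 2 := by
      field_simp
    refine ⟨1 / 2, 1 + 2 / μ, by norm_num, by norm_num, by
      have : 0 ≤ 2 / μ := by positivity
      linarith, fun h => (hRH h).elim, fun A => ?_⟩
    obtain ⟨T₂, H₂⟩ := sw_all hζ hρ (l := 1 / 2) (ε := 1) (by norm_num) one_pos A
    refine ⟨max T₂ 2, fun T b hT hb hbA => ?_⟩
    have hT2 : T₂ ≤ T := (le_max_left _ _).trans hT
    have hT3 : 2 ≤ T := (le_max_right _ _).trans hT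
    have hb1 : 1 ≤ b := by
      have : 0 ≤ 2 / μ := by positivity
      linarith
    have h1 := H₂ T b hT2 hb1 hbA
    have e : b + 1 - 1 / 2 = b + 1 / 2 := by ring
    rw [e]
    refine le_trans ?_ h1
    have h2 : (1 : ℝ) ≤ T ^ ((2 * ρ.re - 1) * (b + 1 / 2) - 1 - 1) := by
      refine Real.one_le_rpow (by linarith) ?_
      have h4 : μ * (1 + 2 / μ) ≤ μ * b := mul_le_mul_of_nonneg_left hb hμ0.le
      rw [← hμ]
      nlinarith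
    linarith

end Pool.Agent.Lib.MP_2a816b_nt.SW
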