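import Mathlib

/-!
# Short windows see every zero off the critical line: definitions
-/

namespace Pool.Agent.Lib.MP_2a816b_nt.SW

open Complex Set Filter Topology MeasureTheory

noncomputable section

/-- `ψ(e^v) - e^v` for `v ≥ 0`, and `0` for `v < 0` -/
def Eh (v : ℝ) : ℝ := if 0 ≤ v then Chebyshev.psi (Real.exp v) - Real.exp v else 0

/-- `exp(-y²/(2τ))` -/
def gs (τ y : ℝ) : ℝ := Real.exp (-(y ^ 2 / (2 * τ)))

/-- the test function `e^(-s v) exp(-(v - u)²/(2τ))` -/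
def hf (s : ℂ) (u τ v : ℝ) : ℂ := cexp (-(s * v)) * ((gs τ (v - u) : ℝ) : ℂ)

/-- its transform -/
def kp (s : ℂ) (u τ : ℝ) (w : ℂ) : ℂ := cexp ((w - s) * u + τ * (w - s) ^ 2 / 2)

/-- the multiplier `2 sinh(w lam / 2)` of the difference operator -/
def sl (lam : ℝ) (w : ℂ) : ℂ := 2 * Complex.sinh (w * (lam / 2))

/-- the Laplace transform of `Eh` -/
def LG (w : ℂ) : ℂ := -(deriv riemannZeta w) / (w * riemannZeta w) - 1 / (w - 1)

/-- closed rectangle -/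
def Rct (a b c d : ℝ) : Set ℂ := {w : ℂ | a ≤ w.re ∧ w.re ≤ b ∧ c ≤ w.im ∧ w.im ≤ d}

/-- `∑ a_k Eh(v - k h) - c0 e^(ρ v) 1_(v ≥ 0)` -/
def Es (n : ℕ) (a : ℕ → ℂ) (h : ℝ) (c0 ρ : ℂ) (v : ℝ) : ℂ :=
  (∑ k ∈ Finset.range n, a k * ((Eh (v - k * h) : ℝ) : ℂ)) - if 0 ≤ v then c0 * cexp (ρ * v) else 0

end

end Pool.Agent.Lib.MP_2a816b_nt.SW
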