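import Pool.Agent.Lib.MP_2a816b_nt.SW.Defs
import Pool.Agent.Lib.MP_00e05b_nt.Factor

/-!
# LEAF Fct (medium, 150 lines): the polar part of `LG` in a rectangle

`f(w) = ζ(w) (w - 1)` (value `1` at `w = 1`) is entire and not identically `0`; its zeros in the compact rectangle form a finite set `Z`
(`ρ ∈ Z`), `f(w) = g(w) ∏_{z ∈ Z} (w - z)^(m z)` with `g` analytic and without zeros on the rectangle. Then for `Re w > 1`
(`ζ(w) ≠ 0`): `ζ'/ζ(w) = ∑ m z/(w - z) - 1/(w - 1) + g'/g(w)`, and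
`LG w = -(1/w) ζ'/ζ(w) - 1/(w - 1) = ∑ -(m z/z) (1/(w - z) - 1/w) + (1/w - 1)/(w - 1) - (1/w) g'/g(w)`, where `(1/w - 1)/(w - 1) = -1/w`.
So `c z = -m z/z` and `q w = ∑ (m z/z)/w - 1/w - (1/w) g'/g(w)`, analytic for `Re w ≥ 1/2`.
Library: `MP_00e05b_nt/Factor.lean`, `MP_2a816b_nt/LM/Phi.lean` (ZZ, LL) or Mathlib's `MeromorphicOn` / divisor API; an induction on the number of zeros is also possible.
-/

namespace Pool.Agent.Lib.MP_2a816b_nt.SW

open Complex Set Filter Topology MeasureTheory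

/-- `(w - 1) ζ(w)` -/
private noncomputable def Fct_f : ℂ → ℂ := Function.update (fun w => (w - 1) * riemannZeta w) 1 1

private theorem Fct_f1 : Fct_f 1 = 1 := Function.update_self _ _ _

private theorem Fct_fne {w : ℂ} (h : w ≠ 1) : Fct_f w = (w - 1) * riemannZeta w :=
  Function.update_of_ne h _ _

private theorem Fct_ev {w : ℂ} (h : w ≠ 1) : Fct_f =ᶠ[𝓝 w] fun w => (w - 1) * riemannZeta w := by
  filter_upwards [isOpen_ne.mem_nhds h] with z hz
  exact Fct_fne hz

private theorem Fct_d {w : ℂ} (h : w ≠ 1) :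
    DifferentiableAt ℂ (fun w => (w - 1) * riemannZeta w) w :=
  (differentiableAt_id.sub_const 1).mul (differentiableAt_riemannZeta h)

private theorem Fct_diff : Differentiable ℂ Fct_f := by
  intro w
  by_cases h : w = 1
  · subst h
    refine (Complex.analyticAt_of_differentiable_on_punctured_nhds_of_continuousAt ?_ ?_).differentiableAt
    · filter_upwards [self_mem_nhdsWithin] with z hz
      have hz' : z ≠ 1 := hz
      exact (Fct_d hz').congr_of_eventuallyEq (Fct_ev hz')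
    · exact continuousAt_update_same.2 riemannZeta_residue_one
  · exact (Fct_d h).congr_of_eventuallyEq (Fct_ev h)

private theorem Fct_compact (a b c d : ℝ) : IsCompact (Rct a b c d) := by
  have h : Rct a b c d = Icc a b ×ℂ Icc c d := by
    ext w
    simp only [Rct, Set.mem_ofPred_eq, Complex.mem_reProdIm, mem_Icc]
    tauto
  rw [h]
  exact isCompact_Icc.reProdIm isCompact_Icc

theorem fct {ρ : ℂ} (hζ : riemannZeta ρ = 0) (h1 : 1 / 2 < ρ.re) (h2 : ρ.re < 1) {R : ℝ} (hR : 0 < R) :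
    ∃ (Z : Finset ℂ) (c : ℂ → ℂ) (q : ℂ → ℂ), ρ ∈ Z ∧ c ρ ≠ 0 ∧ (∀ z ∈ Z, |z.im - ρ.im| ≤ R) ∧
      (∀ w ∈ Rct (1 / 2) 2 (ρ.im - R) (ρ.im + R), AnalyticAt ℂ q w) ∧
      ∀ w ∈ Rct (1 / 2) 2 (ρ.im - R) (ρ.im + R), 1 < w.re → LG w = (∑ z ∈ Z, c z / (w - z)) + q w := by
  have hfin := (Fct_compact (1 / 2) 2 (ρ.im - R) (ρ.im + R)).inter_riemannZetaZeros_finite
  set Z : Finset ℂ := hfin.toFinset with hZd
  have hZ : ∀ z, z ∈ Z ↔ z ∈ Rct (1 / 2) 2 (ρ.im - R) (ρ.im + R) ∧ riemannZeta z = 0 := by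
    intro z
    rw [hZd, Set.Finite.mem_toFinset]
    exact Iff.rfl
  have hne0 : ∀ w ∈ Rct (1 / 2) 2 (ρ.im - R) (ρ.im + R), w ≠ 0 := by
    intro w hw h
    have h3 := hw.1
    rw [h, Complex.zero_re] at h3
    linarith
  obtain ⟨g, hg, hfg, hgZ⟩ := Pool.Agent.Lib.MP_00e05b_nt.exists_factor Fct_diff (z₀ := 1)
    (by rw [Fct_f1]; exact one_ne_zero) Z
  have hfw : ∀ w ∈ Rct (1 / 2) 2 (ρ.im - R) (ρ.im + R), w ∉ Z → Fct_f w ≠ 0 := by
    intro w hw hwZ
    by_cases h : w = 1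
    · rw [h, Fct_f1]
      exact one_ne_zero
    · rw [Fct_fne h]
      refine mul_ne_zero (sub_ne_zero.2 h) fun h3 => hwZ ((hZ w).2 ⟨hw, h3⟩)
  have hgw : ∀ w ∈ Rct (1 / 2) 2 (ρ.im - R) (ρ.im + R), g w ≠ 0 := by
    intro w hw
    by_cases hwZ : w ∈ Z
    · exact hgZ w hwZ
    · intro h
      refine hfw w hw hwZ ?_
      rw [hfg, h, mul_zero]
  have hρ1 : ρ ≠ 1 := by
    intro h
    rw [h, Complex.one_re] at h2
    exact lt_irrefl _ h2
  have hρK : ρ ∈ Rct (1 / 2) 2 (ρ.im - R) (ρ.im + R) :=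
    ⟨h1.le, by linarith, by linarith, by linarith⟩
  have hρ0 : ρ ≠ 0 := hne0 ρ hρK
  have hfρ : Fct_f ρ = 0 := by rw [Fct_fne hρ1, hζ, mul_zero]
  have hmρ : 0 < analyticOrderNatAt Fct_f ρ :=
    Pool.Agent.Lib.MP_00e05b_nt.order_pos Fct_diff (z₀ := 1) (by rw [Fct_f1]; exact one_ne_zero) hfρ
  refine ⟨Z, fun z => -((analyticOrderNatAt Fct_f z : ℂ) / z),
    fun w => (∑ z ∈ Z, (analyticOrderNatAt Fct_f z : ℂ) / z) / w - 1 / w - 1 / w * (deriv g w / g w),
    (hZ ρ).2 ⟨hρK, hζ⟩, ?_, ?_, ?_, ?_⟩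
  · exact neg_ne_zero.2 (div_ne_zero (Nat.cast_ne_zero.2 hmρ.ne') hρ0)
  · intro z hz
    have h3 := ((hZ z).1 hz).1
    rw [abs_le]
    constructor
    · linarith [h3.2.2.1]
    · linarith [h3.2.2.2]
  · intro w hw
    have h3 := hne0 w hw
    have h4 := hgw w hw
    have h5 : AnalyticAt ℂ g w := hg.analyticAt w
    have h6 : AnalyticAt ℂ (fun w : ℂ => w) w := analyticAt_id
    exact ((analyticAt_const.div h6 h3).sub (analyticAt_const.div h6 h3)).sub
      ((analyticAt_const.div h6 h3).mul (h5.deriv.div h5 h4))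
  · intro w hw hw1
    have hwne1 : w ≠ 1 := by
      intro h
      rw [h, Complex.one_re] at hw1
      exact lt_irrefl _ hw1
    have hw0 := hne0 w hw
    have hζw : riemannZeta w ≠ 0 := riemannZeta_ne_zero_of_one_le_re hw1.le
    have hwZ : w ∉ Z := fun h => hζw ((hZ w).1 h).2
    have hw1' : w - 1 ≠ 0 := sub_ne_zero.2 hwne1
    have hwz : ∀ z ∈ Z, w - z ≠ 0 := fun z hz => sub_ne_zero.2 fun h => hwZ (h ▸ hz)
    have hz0 : ∀ z ∈ Z, z ≠ 0 := fun z hz => hne0 z ((hZ z).1 hz).1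
    -- the logarithmic derivative, first form
    have e1 : logDeriv Fct_f w = 1 / (w - 1) + deriv riemannZeta w / riemannZeta w := by
      have h3 : HasDerivAt (fun w => (w - 1) * riemannZeta w)
          (1 * riemannZeta w + (w - 1) * deriv riemannZeta w) w :=
        ((hasDerivAt_id w).sub_const 1).mul (differentiableAt_riemannZeta hwne1).hasDerivAt
      rw [logDeriv_apply, (Fct_ev hwne1).deriv_eq, h3.deriv, Fct_fne hwne1]
      field_simp
    -- second form
    have e2 : logDeriv Fct_f w =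
        (∑ z ∈ Z, (analyticOrderNatAt Fct_f z : ℂ) / (w - z)) + deriv g w / g w := by
      have h3 : Fct_f = fun x => (∏ a ∈ Z, (x - a) ^ (analyticOrderNatAt Fct_f a)) * g x := by
        funext x
        exact hfg x
      have h4 : ∀ a ∈ Z, (w - a) ^ (analyticOrderNatAt Fct_f a) ≠ 0 := fun a ha =>
        pow_ne_zero _ (hwz a ha)
      have h5 : ∀ a ∈ Z, DifferentiableAt ℂ (fun x => (x - a) ^ (analyticOrderNatAt Fct_f a)) w :=
        fun a _ => (differentiableAt_id.sub_const a).pow _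
      have h6 : logDeriv (fun x => (∏ a ∈ Z, (x - a) ^ (analyticOrderNatAt Fct_f a)) * g x) w =
          logDeriv (fun x => ∏ a ∈ Z, (x - a) ^ (analyticOrderNatAt Fct_f a)) w + logDeriv g w :=
        logDeriv_mul w (Finset.prod_ne_zero_iff.2 h4) (hgw w hw)
          (by fun_prop) (hg w)
      have h7 : logDeriv (fun x => ∏ a ∈ Z, (x - a) ^ (analyticOrderNatAt Fct_f a)) w =
          ∑ z ∈ Z, (analyticOrderNatAt Fct_f z : ℂ) / (w - z) := by
        have h8 := logDeriv_prod (s := Z) (f := fun a x => (x - a) ^ (analyticOrderNatAt Fct_f a))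
          (x := w) h4 h5
        refine Eq.trans ?_ (h8.trans ?_)
        · rfl
        · refine Finset.sum_congr rfl fun a ha => ?_
          have h9 : HasDerivAt (fun x : ℂ => x - a) 1 w := (hasDerivAt_id w).sub_const a
          rw [logDeriv_fun_pow h9.differentiableAt, logDeriv_apply, h9.deriv, mul_one_div]
      rw [congrArg (fun F => logDeriv F w) h3]
      show logDeriv (fun x => (∏ a ∈ Z, (x - a) ^ (analyticOrderNatAt Fct_f a)) * g x) w = _
      rw [h6, h7, logDeriv_apply]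
    have e3 : deriv riemannZeta w / riemannZeta w =
        (∑ z ∈ Z, (analyticOrderNatAt Fct_f z : ℂ) / (w - z)) + deriv g w / g w - 1 / (w - 1) := by
      rw [← e2, e1]
      ring
    have e4 : LG w = -(1 / w) * (deriv riemannZeta w / riemannZeta w) - 1 / (w - 1) := by
      unfold LG
      field_simp
    have e5 : -(1 / w) * (∑ z ∈ Z, (analyticOrderNatAt Fct_f z : ℂ) / (w - z)) =
        (∑ z ∈ Z, -((analyticOrderNatAt Fct_f z : ℂ) / z) / (w - z)) +
          (∑ z ∈ Z, (analyticOrderNatAt Fct_f z : ℂ) / z) / w := by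
      rw [Finset.mul_sum, Finset.sum_div, ← Finset.sum_add_distrib]
      refine Finset.sum_congr rfl fun z hz => ?_
      have h3 := hwz z hz
      have h4 := hz0 z hz
      field_simp
      ring
    have e6 : (1 / w) * (1 / (w - 1)) - 1 / (w - 1) = -(1 / w) := by
      field_simp
      ring
    show LG w = (∑ z ∈ Z, -((analyticOrderNatAt Fct_f z : ℂ) / z) / (w - z)) +
      ((∑ z ∈ Z, (analyticOrderNatAt Fct_f z : ℂ) / z) / w - 1 / w - 1 / w * (deriv g w / g w))
    rw [e4, e3]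
    linear_combination e5 + e6

end Pool.Agent.Lib.MP_2a816b_nt.SW
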