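import Pool.Agent.Lib.MP_2a816b_nt.SW.Fct

/-!
# LEAF Kill (medium, 120 lines): finite differences which kill the other zeros

Let `h = 3/R`, `A(w) = ∏_{z ∈ Z, z ≠ ρ} (1 - e^((z - w) h))`: a polynomial in `e^(-h w)`, so `A(w) = ∑_{k < n} a k e^(-k h w)`.
`A(ρ) ≠ 0`: `e^((z - ρ) h) = 1` would need `(z - ρ) h ∈ 2π i ℤ`, but `|Im (z - ρ)| h ≤ 3 < 2π` and `z ≠ ρ`. `A(z) = 0` for the other `z ∈ Z`.
With `fct`: `A LG - c0/(w - ρ)`, `c0 = A(ρ) c(ρ)`, equals `∑_{z ≠ ρ} c z (A(w) - A(z))/(w - z) + c(ρ) (A(w) - A(ρ))/(w - ρ) + A(w) q(w)`; the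
difference quotients are entire (`dslope A z`).
-/

namespace Pool.Agent.Lib.MP_2a816b_nt.SW

open Complex Set Filter Topology MeasureTheory

/-- `LG` is continuous to the right of the line `Re w = 1`. -/
theorem Kill_LG {w : ℂ} (hw : 1 < w.re) : ContinuousAt LG w := by
  have hw1 : w ≠ 1 := by
    rintro rfl
    simp at hw
  have hw0 : w ≠ 0 := by
    rintro rfl
    simp at hw
    linarith
  have hz : riemannZeta w ≠ 0 := riemannZeta_ne_zero_of_one_le_re hw.le
  have hd : DifferentiableOn ℂ riemannZeta {1}ᶜ := fun x hx =>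
    (differentiableAt_riemannZeta hx).differentiableWithinAt
  have ha : AnalyticAt ℂ riemannZeta w := hd.analyticAt (isOpen_compl_singleton.mem_nhds hw1)
  have h1 : ContinuousAt (fun w => -(deriv riemannZeta w) / (w * riemannZeta w) - 1 / (w - 1)) w := by
    refine ContinuousAt.sub (ContinuousAt.div ha.deriv.continuousAt.neg
      (continuousAt_id.mul ha.continuousAt) (mul_ne_zero hw0 hz)) ?_
    exact ContinuousAt.div continuousAt_const (continuousAt_id.sub continuousAt_const)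
      (sub_ne_zero.2 hw1)
  exact h1

/-- A point of `Z` to the right of the line `Re w = 1` has the coefficient `0`. -/
theorem Kill_zero {Z : Finset ℂ} {c q : ℂ → ℂ} {ρ : ℂ} {R : ℝ}
    (hq : ∀ w ∈ Rct (1 / 2) 2 (ρ.im - R) (ρ.im + R), AnalyticAt ℂ q w)
    (h : ∀ w ∈ Rct (1 / 2) 2 (ρ.im - R) (ρ.im + R), 1 < w.re → LG w = (∑ z ∈ Z, c z / (w - z)) + q w)
    {z₀ : ℂ} (hz₀ : z₀ ∈ Z) (hR : z₀ ∈ Rct (1 / 2) 2 (ρ.im - R) (ρ.im + R)) (h1 : 1 < z₀.re) :
    c z₀ = 0 := by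
  classical
  let G : ℂ → ℂ := fun w => LG w - (∑ z ∈ Z.erase z₀, c z / (w - z)) - q w
  have hG : ContinuousAt G z₀ := by
    refine ((Kill_LG h1).sub ?_).sub (hq z₀ hR).continuousAt
    refine tendsto_finsetSum _ fun z hz => ?_
    have hne : z₀ - z ≠ 0 := sub_ne_zero.2 (Finset.ne_of_mem_erase hz).symm
    exact ContinuousAt.div continuousAt_const (continuousAt_id.sub continuousAt_const) hne
  have hlim : Tendsto (fun t : ℝ => (-(t : ℂ)) * G (z₀ - t)) (𝓝[>] 0) (𝓝 0) := by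
    have h2 : Tendsto (fun t : ℝ => z₀ - (t : ℂ)) (𝓝 0) (𝓝 z₀) := by
      have : Continuous (fun t : ℝ => z₀ - (t : ℂ)) := by fun_prop
      have h3 := this.tendsto 0
      simpa using h3
    have h3 : Tendsto (fun t : ℝ => G (z₀ - t)) (𝓝 0) (𝓝 (G z₀)) := hG.tendsto.comp h2
    have h4 : Tendsto (fun t : ℝ => -(t : ℂ)) (𝓝 0) (𝓝 0) := by
      have : Continuous (fun t : ℝ => -(t : ℂ)) := by fun_prop
      have h3 := this.tendsto 0
      simpa using h3
    have h5 := h4.mul h3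
    rw [zero_mul] at h5
    exact h5.mono_left nhdsWithin_le_nhds
  have hev : ∀ᶠ t : ℝ in 𝓝[>] 0, (-(t : ℂ)) * G (z₀ - t) = c z₀ := by
    have h2 : ∀ᶠ t : ℝ in 𝓝[>] 0, t < z₀.re - 1 :=
      nhdsWithin_le_nhds (Iio_mem_nhds (by linarith))
    filter_upwards [h2, self_mem_nhdsWithin] with t ht ht0
    have ht0' : 0 < t := ht0
    obtain ⟨r1, r2, r3, r4⟩ := hR
    have hre : (z₀ - (t : ℂ)).re = z₀.re - t := by simp
    have him : (z₀ - (t : ℂ)).im = z₀.im := by simp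
    have hmem : z₀ - (t : ℂ) ∈ Rct (1 / 2) 2 (ρ.im - R) (ρ.im + R) := by
      refine ⟨?_, ?_, ?_, ?_⟩
      · rw [hre]; linarith
      · rw [hre]; linarith
      · rw [him]; exact r3
      · rw [him]; exact r4
    have h3 := h _ hmem (by rw [hre]; linarith)
    have h4 : G (z₀ - t) = c z₀ / (z₀ - t - z₀) := by
      show LG (z₀ - t) - (∑ z ∈ Z.erase z₀, c z / (z₀ - t - z)) - q (z₀ - t) = _
      rw [h3, ← Finset.add_sum_erase Z _ hz₀]
      ring
    have h5 : z₀ - (t : ℂ) - z₀ = -(t : ℂ) := by ring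
    have h6 : (-(t : ℂ)) ≠ 0 := neg_ne_zero.2 (by exact_mod_cast ht0'.ne')
    rw [h4, h5, mul_div_cancel₀ _ h6]
  have h2 : Tendsto (fun _ : ℝ => c z₀) (𝓝[>] (0 : ℝ)) (𝓝 0) := hlim.congr' hev
  exact tendsto_nhds_unique tendsto_const_nhds h2

theorem kill {ρ : ℂ} (hζ : riemannZeta ρ = 0) (h1 : 1 / 2 < ρ.re) (h2 : ρ.re < 1) {R : ℝ} (hR : 0 < R) :
    ∃ (n : ℕ) (a : ℕ → ℂ) (h : ℝ) (c0 : ℂ) (N : ℂ → ℂ), 0 < h ∧ c0 ≠ 0 ∧
      (∀ w ∈ Rct (1 / 2) 2 (ρ.im - R) (ρ.im + R), AnalyticAt ℂ N w) ∧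
      ∀ w ∈ Rct (1 / 2) 2 (ρ.im - R) (ρ.im + R), 1 < w.re →
        N w = (∑ k ∈ Finset.range n, a k * cexp (-(k * h * w))) * LG w - c0 / (w - ρ) := by
  classical
  obtain ⟨Z, c, q, hρ, hcρ, hZ, hq, hLG⟩ := fct hζ h1 h2 hR
  obtain ⟨h, hh⟩ : ∃ h : ℝ, h = 3 / R := ⟨_, rfl⟩
  have hh0 : 0 < h := by rw [hh]; positivity
  let P : Polynomial ℂ := ∏ z ∈ Z.erase ρ, (1 - Polynomial.C (cexp (z * h)) * Polynomial.X)
  let A : ℂ → ℂ := fun w => P.eval (cexp (-(h * w)))
  have hAprod : ∀ w, A w = ∏ z ∈ Z.erase ρ, (1 - cexp ((z - w) * h)) := by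
    intro w
    show P.eval (cexp (-(h * w))) = _
    rw [Polynomial.eval_prod]
    refine Finset.prod_congr rfl fun z _ => ?_
    rw [Polynomial.eval_sub, Polynomial.eval_one, Polynomial.eval_mul, Polynomial.eval_C,
      Polynomial.eval_X, ← Complex.exp_add]
    congr 2
    ring
  have hAsum : ∀ w, A w = ∑ k ∈ Finset.range (P.natDegree + 1), P.coeff k * cexp (-(k * h * w)) := by
    intro w
    show P.eval (cexp (-(h * w))) = _
    rw [Polynomial.eval_eq_sum_range]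
    refine Finset.sum_congr rfl fun k _ => ?_
    rw [← Complex.exp_nat_mul]
    congr 2
    ring
  have hAd : Differentiable ℂ A := by
    have h3 : Differentiable ℂ (fun w : ℂ => cexp (-(h * w))) := by fun_prop
    exact P.differentiable.comp h3
  have hAρ : A ρ ≠ 0 := by
    rw [hAprod, Finset.prod_ne_zero_iff]
    intro z hz h0
    have hzρ : z ≠ ρ := Finset.ne_of_mem_erase hz
    have hzZ : z ∈ Z := Finset.mem_of_mem_erase hz
    have h3 : cexp ((z - ρ) * h) = 1 := (sub_eq_zero.1 h0).symm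
    obtain ⟨n, hn⟩ := Complex.exp_eq_one_iff.1 h3
    have him := congrArg Complex.im hn
    have e1 : ((z - ρ) * (h : ℂ)).im = (z.im - ρ.im) * h := by
      rw [Complex.im_mul_ofReal, Complex.sub_im]
    have e2 : ((n : ℂ) * (2 * (Real.pi : ℂ) * Complex.I)).im = n * (2 * Real.pi) := by
      simp
    rw [e1, e2] at him
    have habs : |(z.im - ρ.im) * h| ≤ 3 := by
      rw [abs_mul, abs_of_pos hh0]
      calc |z.im - ρ.im| * h ≤ R * h := mul_le_mul_of_nonneg_right (hZ z hzZ) hh0.le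
        _ = 3 := by rw [hh]; field_simp
    have hn0 : n = 0 := by
      by_contra hne
      have h4 : (1 : ℝ) ≤ |(n : ℝ)| := by
        have : 1 ≤ |n| := Int.one_le_abs hne
        exact_mod_cast this
      rw [him, abs_mul, abs_of_pos (by positivity : (0 : ℝ) < 2 * Real.pi)] at habs
      have hpi := Real.pi_gt_three
      nlinarith
    rw [hn0, Int.cast_zero, zero_mul] at hn
    rcases mul_eq_zero.1 hn with h4 | h4
    · exact hzρ (sub_eq_zero.1 h4)
    · exact hh0.ne' (by exact_mod_cast h4)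
  have hAz : ∀ z ∈ Z.erase ρ, A z = 0 := by
    intro z hz
    rw [hAprod]
    refine Finset.prod_eq_zero hz ?_
    rw [sub_self, zero_mul, Complex.exp_zero, sub_self]
  have hds : ∀ z : ℂ, Differentiable ℂ (dslope A z) := by
    intro z
    rw [← differentiableOn_univ]
    exact (Complex.differentiableOn_dslope Filter.univ_mem).2 hAd.differentiableOn
  refine ⟨P.natDegree + 1, fun k => P.coeff k, h, A ρ * c ρ,
    fun w => (∑ z ∈ Z.erase ρ, c z * dslope A z w) + c ρ * dslope A ρ w + A w * q w, hh0,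
    mul_ne_zero hAρ hcρ, ?_, ?_⟩
  · intro w hw
    have e1 : Differentiable ℂ (fun w => (∑ z ∈ Z.erase ρ, c z * dslope A z w) +
        c ρ * dslope A ρ w) := by
      refine Differentiable.add ?_ ((hds ρ).const_mul _)
      exact Differentiable.fun_sum fun z _ => (hds z).const_mul _
    exact (e1.analyticAt w).add ((hAd.analyticAt w).mul (hq w hw))
  · intro w hw hw1
    show (∑ z ∈ Z.erase ρ, c z * dslope A z w) + c ρ * dslope A ρ w + A w * q w = _
    rw [← hAsum, hLG w hw hw1, ← Finset.add_sum_erase Z _ hρ]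
    have hwρ : w ≠ ρ := by
      rintro rfl
      linarith
    have hwρ' : w - ρ ≠ 0 := sub_ne_zero.2 hwρ
    have e1 : dslope A ρ w = (A w - A ρ) / (w - ρ) := by
      rw [dslope_of_ne _ hwρ, slope_def_field]
    have e2 : ∑ z ∈ Z.erase ρ, c z * dslope A z w = A w * ∑ z ∈ Z.erase ρ, c z / (w - z) := by
      rw [Finset.mul_sum]
      refine Finset.sum_congr rfl fun z hz => ?_
      by_cases hwz : w = z
      · subst hwz
        rw [Kill_zero hq hLG (Finset.mem_of_mem_erase hz) hw hw1]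
        ring
      · rw [dslope_of_ne _ hwz, slope_def_field, hAz z hz]
        ring
    rw [e1, e2]
    field_simp
    ring

end Pool.Agent.Lib.MP_2a816b_nt.SW
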