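import Pool.Agent.Lib.MP_2a816b_nt.SW.Defs

/-!
# LEAF Main (easy / medium, 100 lines): the main term

On the whole line `∫ e^(ρ v) hf ρ u τ (v ∓ lam/2) dv = e^(± ρ lam/2) ∫ gs τ (v ∓ lam/2 - u) dv = e^(± ρ lam/2) √(2πτ)`, the difference is
`sl lam ρ * √(2πτ)`. The part `v < 0`: `|e^(ρ v) hf ρ u τ (v ∓ lam/2)| ≤ 2 gs τ (v ∓ lam/2 - u)` (`lam ≤ 1`, `Re ρ ≤ 1`), and there
`|v ∓ lam/2 - u|² ≥ v² + (u - 1)²` (`u ≥ 1`), so it is at most `8 √τ exp(-(u - 1)²/(2τ))`.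
-/

namespace Pool.Agent.Lib.MP_2a816b_nt.SW

open Complex Set Filter Topology MeasureTheory

private theorem Main_gs (τ y : ℝ) : gs τ y = Real.exp (-(1 / (2 * τ)) * y ^ 2) := by
  unfold gs
  congr 1
  ring

private theorem Main_int {τ : ℝ} (hτ : 0 < τ) : Integrable (fun y : ℝ => gs τ y) := by
  have h := integrable_exp_neg_mul_sq (b := 1 / (2 * τ)) (by positivity)
  exact h.congr (Filter.Eventually.of_forall fun y => (Main_gs τ y).symm)

private theorem Main_val {τ : ℝ} (hτ : 0 < τ) : ∫ y : ℝ, gs τ y = Real.sqrt (2 * Real.pi * τ) := by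
  have h := integral_gaussian (1 / (2 * τ))
  have e : Real.pi / (1 / (2 * τ)) = 2 * Real.pi * τ := by
    field_simp
  rw [e] at h
  rw [← h]
  exact integral_congr_ae (Filter.Eventually.of_forall fun y => Main_gs τ y)

private theorem Main_intc {τ : ℝ} (hτ : 0 < τ) (a : ℝ) :
    Integrable (fun v : ℝ => ((gs τ (v - a) : ℝ) : ℂ)) :=
  ((Main_int hτ).comp_sub_right a).ofReal

private theorem Main_valc {τ : ℝ} (hτ : 0 < τ) (a : ℝ) :
    ∫ v : ℝ, ((gs τ (v - a) : ℝ) : ℂ) = ((Real.sqrt (2 * Real.pi * τ) : ℝ) : ℂ) := by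
  have h := integral_complex_ofReal (μ := volume) (f := fun v : ℝ => gs τ (v - a))
  rw [h, integral_sub_right_eq_self (fun y => gs τ y) a, Main_val hτ]

private theorem Main_nn (τ y : ℝ) : 0 ≤ gs τ y := (Real.exp_pos _).le

/-- The Gaussian on the left half line, moved to the right of `u - 1`. -/
private theorem Main_le {τ u a v : ℝ} (hτ : 0 < τ) (hu : 1 ≤ u) (ha : -(1 / 2) ≤ a) (hv : v ≤ 0) :
    gs τ (v - (u + a)) ≤ Real.exp (-((u - 1) ^ 2 / (2 * τ))) * gs τ v := by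
  unfold gs
  rw [← Real.exp_add]
  apply Real.exp_le_exp.2
  have h1 : (u - 1) ^ 2 + v ^ 2 ≤ (v - (u + a)) ^ 2 := by nlinarith
  have h2 : ((u - 1) ^ 2 + v ^ 2) / (2 * τ) ≤ (v - (u + a)) ^ 2 / (2 * τ) :=
    div_le_div_of_nonneg_right h1 (by positivity)
  rw [add_div] at h2
  linarith

theorem main_term (c0 : ℂ) {ρ : ℂ} (h0 : 0 < ρ.re) (h1 : ρ.re < 1) {τ u lam : ℝ} (hτ : 1 ≤ τ) (hu : 1 ≤ u) (hl : 0 ≤ lam) (hl1 : lam ≤ 1) :
    ‖(∫ v in Ioi (0 : ℝ), c0 * cexp (ρ * v) * (hf ρ u τ (v - lam / 2) - hf ρ u τ (v + lam / 2))) -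
      c0 * sl lam ρ * ((Real.sqrt (2 * Real.pi * τ) : ℝ) : ℂ)‖ ≤ 8 * ‖c0‖ * Real.sqrt τ * Real.exp (-((u - 1) ^ 2 / (2 * τ))) := by
  have hτ0 : 0 < τ := by linarith
  have e1 : ∀ v : ℝ, c0 * cexp (ρ * v) * (hf ρ u τ (v - lam / 2) - hf ρ u τ (v + lam / 2)) =
      c0 * cexp (ρ * (lam / 2)) * ((gs τ (v - (u + lam / 2)) : ℝ) : ℂ) -
        c0 * cexp (-(ρ * (lam / 2))) * ((gs τ (v - (u + -(lam / 2))) : ℝ) : ℂ) := by
    intro v
    unfold hf
    have a1 : cexp (ρ * v) * cexp (-(ρ * ((v - lam / 2 : ℝ) : ℂ))) = cexp (ρ * (lam / 2)) := by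
      rw [← Complex.exp_add]
      congr 1
      push_cast
      ring
    have a2 : cexp (ρ * v) * cexp (-(ρ * ((v + lam / 2 : ℝ) : ℂ))) = cexp (-(ρ * (lam / 2))) := by
      rw [← Complex.exp_add]
      congr 1
      push_cast
      ring
    have b1 : v - lam / 2 - u = v - (u + lam / 2) := by ring
    have b2 : v + lam / 2 - u = v - (u + -(lam / 2)) := by ring
    rw [b1, b2, ← a1, ← a2]
    ring
  set F : ℝ → ℂ := fun v => c0 * cexp (ρ * (lam / 2)) * ((gs τ (v - (u + lam / 2)) : ℝ) : ℂ) -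
    c0 * cexp (-(ρ * (lam / 2))) * ((gs τ (v - (u + -(lam / 2))) : ℝ) : ℂ) with hF
  have hi1 := (Main_intc hτ0 (u + lam / 2)).const_mul (c0 * cexp (ρ * (lam / 2)))
  have hi2 := (Main_intc hτ0 (u + -(lam / 2))).const_mul (c0 * cexp (-(ρ * (lam / 2))))
  have hFi : Integrable F := hi1.sub hi2
  have hFv : ∫ v, F v = c0 * sl lam ρ * ((Real.sqrt (2 * Real.pi * τ) : ℝ) : ℂ) := by
    rw [hF, integral_sub hi1 hi2, integral_const_mul, integral_const_mul, Main_valc hτ0,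
      Main_valc hτ0]
    unfold sl
    rw [Complex.sinh]
    ring
  have e2 : (∫ v in Ioi (0 : ℝ), c0 * cexp (ρ * v) *
      (hf ρ u τ (v - lam / 2) - hf ρ u τ (v + lam / 2))) = ∫ v in Ioi (0 : ℝ), F v :=
    setIntegral_congr_fun measurableSet_Ioi fun v _ => e1 v
  have e3 : (∫ v in Iic (0 : ℝ), F v) + ∫ v in Ioi (0 : ℝ), F v = ∫ v, F v := by
    have h := integral_add_compl (s := Iic (0 : ℝ)) measurableSet_Iic hFi
    rwa [compl_Iic] at h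
  rw [e2, ← hFv, ← e3]
  have e4 : (∫ v in Ioi (0 : ℝ), F v) - ((∫ v in Iic (0 : ℝ), F v) + ∫ v in Ioi (0 : ℝ), F v) =
      -∫ v in Iic (0 : ℝ), F v := by ring
  rw [e4, norm_neg]
  -- the pointwise bound on the left half line
  have hn1 : ‖cexp (ρ * (lam / 2))‖ ≤ 2 := by
    rw [Complex.norm_exp]
    have h2 : (ρ * ((lam : ℂ) / 2)).re = ρ.re * (lam / 2) := by
      have h3 : ((lam : ℂ) / 2) = ((lam / 2 : ℝ) : ℂ) := by push_cast; ring
      rw [h3, Complex.re_mul_ofReal]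
    rw [h2]
    have h4 : ρ.re * (lam / 2) ≤ 1 / 2 := by nlinarith
    have h5 : Real.exp (ρ.re * (lam / 2)) ≤ Real.exp (1 / 2) := Real.exp_le_exp.2 h4
    have h6 : Real.exp (1 / 2) ≤ 2 := by
      have h7 : Real.exp (1 / 2) * Real.exp (1 / 2) = Real.exp 1 := by
        rw [← Real.exp_add]; norm_num
      have h8 := Real.exp_one_lt_d9
      have h9 := Real.exp_pos (1 / 2)
      nlinarith
    exact h5.trans h6
  have hn2 : ‖cexp (-(ρ * (lam / 2)))‖ ≤ 1 := by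
    rw [Complex.norm_exp]
    have h2 : (-(ρ * ((lam : ℂ) / 2))).re = -(ρ.re * (lam / 2)) := by
      have h3 : ((lam : ℂ) / 2) = ((lam / 2 : ℝ) : ℂ) := by push_cast; ring
      rw [h3, Complex.neg_re, Complex.re_mul_ofReal]
    rw [h2]
    have h4 : 0 ≤ ρ.re * (lam / 2) := by positivity
    exact Real.exp_le_one_iff.2 (by linarith)
  set Q : ℝ := Real.exp (-((u - 1) ^ 2 / (2 * τ))) with hQ
  have hQ0 : 0 < Q := Real.exp_pos _
  have hpt : ∀ v ∈ Iic (0 : ℝ), ‖F v‖ ≤ 3 * ‖c0‖ * Q * gs τ v := by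
    intro v hv
    have g1 := Main_le (τ := τ) (u := u) (a := lam / 2) (v := v) hτ0 hu (by linarith) hv
    have g2 := Main_le (τ := τ) (u := u) (a := -(lam / 2)) (v := v) hτ0 hu (by linarith) hv
    have n1 : ‖c0 * cexp (ρ * (lam / 2)) * ((gs τ (v - (u + lam / 2)) : ℝ) : ℂ)‖ ≤
        ‖c0‖ * 2 * (Q * gs τ v) := by
      rw [norm_mul, norm_mul, Complex.norm_real, Real.norm_of_nonneg (Main_nn _ _)]
      exact mul_le_mul (mul_le_mul_of_nonneg_left hn1 (norm_nonneg _)) g1 (Main_nn _ _)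
        (by positivity)
    have n2 : ‖c0 * cexp (-(ρ * (lam / 2))) * ((gs τ (v - (u + -(lam / 2))) : ℝ) : ℂ)‖ ≤
        ‖c0‖ * 1 * (Q * gs τ v) := by
      rw [norm_mul, norm_mul, Complex.norm_real, Real.norm_of_nonneg (Main_nn _ _)]
      exact mul_le_mul (mul_le_mul_of_nonneg_left hn2 (norm_nonneg _)) g2 (Main_nn _ _)
        (by positivity)
    calc ‖F v‖ ≤ ‖c0 * cexp (ρ * (lam / 2)) * ((gs τ (v - (u + lam / 2)) : ℝ) : ℂ)‖ +
          ‖c0 * cexp (-(ρ * (lam / 2))) * ((gs τ (v - (u + -(lam / 2))) : ℝ) : ℂ)‖ :=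
          norm_sub_le _ _
      _ ≤ ‖c0‖ * 2 * (Q * gs τ v) + ‖c0‖ * 1 * (Q * gs τ v) := add_le_add n1 n2
      _ = 3 * ‖c0‖ * Q * gs τ v := by ring
  have hgi : Integrable (fun v : ℝ => 3 * ‖c0‖ * Q * gs τ v) := (Main_int hτ0).const_mul _
  have hsq : Real.sqrt (2 * Real.pi * τ) ≤ 8 / 3 * Real.sqrt τ := by
    rw [Real.sqrt_mul (by positivity)]
    refine mul_le_mul_of_nonneg_right ?_ (Real.sqrt_nonneg _)
    rw [Real.sqrt_le_left (by norm_num)]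
    have := Real.pi_lt_d2
    nlinarith
  calc ‖∫ v in Iic (0 : ℝ), F v‖ ≤ ∫ v in Iic (0 : ℝ), ‖F v‖ := norm_integral_le_integral_norm _
    _ ≤ ∫ v in Iic (0 : ℝ), 3 * ‖c0‖ * Q * gs τ v :=
        setIntegral_mono_on hFi.norm.integrableOn hgi.integrableOn measurableSet_Iic hpt
    _ ≤ ∫ v, 3 * ‖c0‖ * Q * gs τ v :=
        setIntegral_le_integral hgi (Filter.Eventually.of_forall fun v =>
          mul_nonneg (by positivity) (Main_nn _ _))
    _ = 3 * ‖c0‖ * Q * Real.sqrt (2 * Real.pi * τ) := by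
        rw [integral_const_mul, Main_val hτ0]
    _ ≤ 3 * ‖c0‖ * Q * (8 / 3 * Real.sqrt τ) := mul_le_mul_of_nonneg_left hsq (by positivity)
    _ = 8 * ‖c0‖ * Real.sqrt τ * Q := by ring

/-- lower bound of the multiplier -/
theorem sl_lower {ρ : ℂ} (h0 : 0 < ρ.re) : ∃ l0 : ℝ, 0 < l0 ∧ ∀ lam : ℝ, 0 ≤ lam → lam ≤ l0 → ‖ρ‖ * lam / 2 ≤ ‖sl lam ρ‖ := by
  have hρ : 0 < ‖ρ‖ := by
    rw [norm_pos_iff]
    intro h
    rw [h] at h0
    exact lt_irrefl _ h0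
  refine ⟨1 / ‖ρ‖, by positivity, fun lam hl hl1 => ?_⟩
  have hz : ‖ρ * ((lam : ℂ) / 2)‖ = ‖ρ‖ * lam / 2 := by
    have h3 : ((lam : ℂ) / 2) = ((lam / 2 : ℝ) : ℂ) := by push_cast; ring
    rw [h3, norm_mul, Complex.norm_real, Real.norm_of_nonneg (by linarith)]
    ring
  have hz2 : ‖ρ‖ * lam / 2 ≤ 1 / 2 := by
    rw [le_div_iff₀ hρ] at hl1
    linarith
  have hz0 : 0 ≤ ‖ρ‖ * lam / 2 := by positivity
  unfold sl
  set z : ℂ := ρ * ((lam : ℂ) / 2) with hzd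
  have hs : 2 * Complex.sinh z = (cexp z - 1 - z) - (cexp (-z) - 1 - -z) + 2 * z := by
    rw [Complex.sinh]
    ring
  have b1 : ‖cexp z - 1 - z‖ ≤ ‖z‖ ^ 2 := Complex.norm_exp_sub_one_sub_id_le (by rw [hz]; linarith)
  have b2 : ‖cexp (-z) - 1 - -z‖ ≤ ‖z‖ ^ 2 := by
    have := Complex.norm_exp_sub_one_sub_id_le (x := -z) (by rw [norm_neg, hz]; linarith)
    rwa [norm_neg] at this
  have b3 : ‖(cexp z - 1 - z) - (cexp (-z) - 1 - -z)‖ ≤ ‖z‖ ^ 2 + ‖z‖ ^ 2 :=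
    (norm_sub_le _ _).trans (add_le_add b1 b2)
  have b4 : ‖2 * z‖ ≤ ‖2 * Complex.sinh z‖ + ‖(cexp z - 1 - z) - (cexp (-z) - 1 - -z)‖ := by
    have h5 : 2 * z = 2 * Complex.sinh z - ((cexp z - 1 - z) - (cexp (-z) - 1 - -z)) := by
      rw [hs]
      ring
    calc ‖2 * z‖ = ‖2 * Complex.sinh z - ((cexp z - 1 - z) - (cexp (-z) - 1 - -z))‖ := by rw [← h5]
      _ ≤ _ := norm_sub_le _ _
  rw [norm_mul 2 z, Complex.norm_ofNat, hz] at b4
  rw [hz] at b3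
  nlinarith

end Pool.Agent.Lib.MP_2a816b_nt.SW
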