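import Pool.Agent.Lib.MP_2a816b_nt.SW.GK

/-!
# LEAF Move (medium, 150 lines): Cauchy on one rectangle

`N * sl lam * kp` is analytic on the closed rectangle with corners `1/2 + i(γ - R)`, `2 + i(γ + R)` (`s = β + iγ`), so
(`Complex.integral_boundary_rect_eq_zero_of_differentiableOn`) the integral over the right side is the integral over the left side
plus two horizontal ones. `‖N‖ ≤ B` (compactness), `‖sl lam w‖ ≤ C₁ lam` (`sl_norm`, `lam ≤ 1`), and by `kp_norm`: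
left side: `‖kp‖ ≤ exp(-(β - 1/2) u + τ (β - 1/2)²/2)`; horizontal sides: `|x - β| ≤ 2`, so `‖kp‖ ≤ exp(2u + 2τ - τ R²/2)`.
-/

namespace Pool.Agent.Lib.MP_2a816b_nt.SW

open Complex Set Filter Topology MeasureTheory

private theorem move_compact (a b c d : ℝ) : IsCompact (Rct a b c d) := by
  have h : Rct a b c d = Set.Icc a b ×ℂ Set.Icc c d := by
    ext w
    simp only [Rct, Set.mem_ofPred_eq, Complex.mem_reProdIm, Set.mem_Icc]
    tauto
  rw [h]
  exact isCompact_Icc.reProdIm isCompact_Icc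

private theorem move_pt {N : ℂ → ℂ} {s w : ℂ} {B τ u lam E : ℝ} (hB : 0 ≤ B) (hw : ‖N w * w‖ ≤ B)
    (hre : |w.re| ≤ 2) (h0 : 0 ≤ lam) (h1 : lam ≤ 1) (hE : ‖kp s u τ w‖ ≤ Real.exp E) :
    ‖N w * sl lam w * kp s u τ w‖ ≤ B * Real.exp 1 * lam * Real.exp E := by
  have e1 : ‖N w * sl lam w‖ ≤ B * Real.exp 1 * lam := by
    rw [norm_mul]
    have h2 : ‖sl lam w‖ ≤ ‖w‖ * lam * Real.exp 1 := by
      refine (sl_norm h0 w).trans ?_
      refine mul_le_mul_of_nonneg_left ?_ (by positivity)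
      refine Real.exp_le_exp.2 ?_
      nlinarith [abs_nonneg w.re]
    calc ‖N w‖ * ‖sl lam w‖ ≤ ‖N w‖ * (‖w‖ * lam * Real.exp 1) :=
          mul_le_mul_of_nonneg_left h2 (norm_nonneg _)
      _ = ‖N w * w‖ * (lam * Real.exp 1) := by rw [norm_mul]; ring
      _ ≤ B * (lam * Real.exp 1) := mul_le_mul_of_nonneg_right hw (by positivity)
      _ = B * Real.exp 1 * lam := by ring
  rw [norm_mul]
  exact mul_le_mul e1 hE (norm_nonneg _) (by positivity)

theorem move {N : ℂ → ℂ} {R : ℝ} {s : ℂ} (hs : 1 / 2 < s.re) (hs1 : s.re < 1) (hR : 0 < R)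
    (hN : ∀ w ∈ Rct (1 / 2) 2 (s.im - R) (s.im + R), AnalyticAt ℂ N w) :
    ∃ C : ℝ, 0 ≤ C ∧ ∀ τ u lam : ℝ, 0 ≤ τ → 0 ≤ u → 0 ≤ lam → lam ≤ 1 →
      ‖∫ y in (s.im - R)..(s.im + R), N (2 + y * I) * sl lam (2 + y * I) * kp s u τ (2 + y * I)‖ ≤
        C * lam * (Real.exp (-((s.re - 1 / 2) * u) + τ * (s.re - 1 / 2) ^ 2 / 2) + Real.exp (2 * u + 2 * τ - τ * R ^ 2 / 2)) := by
  have hcont : ContinuousOn (fun w => N w * w) (Rct (1 / 2) 2 (s.im - R) (s.im + R)) := fun w hw =>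
    ((hN w hw).continuousAt.mul continuousAt_id).continuousWithinAt
  obtain ⟨B0, hB0⟩ := (move_compact (1 / 2) 2 (s.im - R) (s.im + R)).exists_bound_of_continuousOn hcont
  set B : ℝ := max B0 0 with hBd
  have hB : 0 ≤ B := le_max_right _ _
  have hBw : ∀ w ∈ Rct (1 / 2) 2 (s.im - R) (s.im + R), ‖N w * w‖ ≤ B := fun w hw =>
    (hB0 w hw).trans (le_max_left _ _)
  refine ⟨B * Real.exp 1 * (2 * R + 3), by positivity, ?_⟩
  intro τ u lam hτ hu h0 h1
  set f : ℂ → ℂ := fun w => N w * sl lam w * kp s u τ w with hf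
  set E1 : ℝ := -((s.re - 1 / 2) * u) + τ * (s.re - 1 / 2) ^ 2 / 2 with hE1
  set E2 : ℝ := 2 * u + 2 * τ - τ * R ^ 2 / 2 with hE2
  have hdiff : DifferentiableOn ℂ f (Set.uIcc (1 / 2 : ℝ) 2 ×ℂ Set.uIcc (s.im - R) (s.im + R)) := by
    intro w hw
    rw [Complex.mem_reProdIm, Set.uIcc_of_le (by norm_num), Set.uIcc_of_le (by linarith)] at hw
    have hw' : w ∈ Rct (1 / 2) 2 (s.im - R) (s.im + R) := ⟨hw.1.1, hw.1.2, hw.2.1, hw.2.2⟩
    have d1 : DifferentiableAt ℂ N w := (hN w hw').differentiableAt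
    have d2 : DifferentiableAt ℂ (sl lam) w := by
      have : Differentiable ℂ (sl lam) := by
        unfold sl
        exact (differentiable_const _).mul (Complex.differentiable_sinh.comp (differentiable_id.mul_const _))
      exact this w
    have d3 : DifferentiableAt ℂ (kp s u τ) w := by
      have : Differentiable ℂ (kp s u τ) := by
        unfold kp
        fun_prop
      exact this w
    exact ((d1.mul d2).mul d3).differentiableWithinAt
  have hrect := Complex.integral_boundary_rect_eq_zero_of_differentiableOn f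
    (⟨1 / 2, s.im - R⟩ : ℂ) (⟨2, s.im + R⟩ : ℂ) hdiff
  simp only at hrect
  have hRR : s.im - R ≤ s.im + R := by linarith
  have key : ∀ w ∈ Rct (1 / 2) 2 (s.im - R) (s.im + R), ∀ E : ℝ, ‖kp s u τ w‖ ≤ Real.exp E →
      ‖f w‖ ≤ B * Real.exp 1 * lam * Real.exp E := by
    intro w hw E hE
    have hre : |w.re| ≤ 2 := by
      rw [abs_le]
      constructor
      · have := hw.1
        linarith
      · exact hw.2.1
    exact move_pt hB (hBw w hw) hre h0 h1 hE
  -- left side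
  have hleft : ‖∫ y in (s.im - R)..(s.im + R), f (((1 / 2 : ℝ) : ℂ) + y * I)‖ ≤
      B * Real.exp 1 * lam * Real.exp E1 * |(s.im + R) - (s.im - R)| := by
    refine intervalIntegral.norm_integral_le_of_norm_le_const ?_
    intro y hy
    rw [Set.uIoc_of_le hRR] at hy
    have e1 : (((1 / 2 : ℝ) : ℂ) + (y : ℂ) * I).re = 1 / 2 := by simp
    have e2 : (((1 / 2 : ℝ) : ℂ) + (y : ℂ) * I).im = y := by simp
    refine key _ ⟨?_, ?_, ?_, ?_⟩ _ ?_
    · rw [e1]
    · rw [e1]; norm_num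
    · rw [e2]; exact hy.1.le
    · rw [e2]; exact hy.2
    · rw [kp_norm, e1, e2]
      refine Real.exp_le_exp.2 ?_
      rw [hE1]
      have : 0 ≤ τ * (y - s.im) ^ 2 := by positivity
      nlinarith
  -- horizontal sides
  have hhor : ∀ c : ℝ, s.im - R ≤ c → c ≤ s.im + R → (c - s.im) ^ 2 = R ^ 2 →
      ‖∫ x in (1 / 2 : ℝ)..2, f ((x : ℂ) + (c : ℂ) * I)‖ ≤
        B * Real.exp 1 * lam * Real.exp E2 * |(2 : ℝ) - 1 / 2| := by
    intro c hc1 hc2 hc3
    refine intervalIntegral.norm_integral_le_of_norm_le_const ?_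
    intro x hx
    rw [Set.uIoc_of_le (by norm_num)] at hx
    have e1 : ((x : ℂ) + (c : ℂ) * I).re = x := by simp
    have e2 : ((x : ℂ) + (c : ℂ) * I).im = c := by simp
    refine key _ ⟨?_, ?_, ?_, ?_⟩ _ ?_
    · rw [e1]; exact hx.1.le
    · rw [e1]; exact hx.2
    · rw [e2]; exact hc1
    · rw [e2]; exact hc2
    · rw [kp_norm, e1, e2]
      refine Real.exp_le_exp.2 ?_
      rw [hE2, hc3]
      have h2 : (x - s.re) ^ 2 ≤ 4 := by
        have a1 : x - s.re ≤ 2 := by linarith [hx.2]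
        have a2 : -2 ≤ x - s.re := by linarith [hx.1]
        nlinarith
      have h3 : τ * (x - s.re) ^ 2 ≤ τ * 4 := mul_le_mul_of_nonneg_left h2 hτ
      have h4 : (x - s.re) * u ≤ 2 * u := mul_le_mul_of_nonneg_right (by linarith [hx.2]) hu
      nlinarith
  have hbot := hhor (s.im - R) le_rfl hRR (by ring)
  have htop := hhor (s.im + R) hRR le_rfl (by ring)
  have hright : (∫ y in (s.im - R)..(s.im + R), f (((2 : ℝ) : ℂ) + y * I)) =
      ∫ y in (s.im - R)..(s.im + R), N (2 + y * I) * sl lam (2 + y * I) * kp s u τ (2 + y * I) := by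
    simp only [hf, Complex.ofReal_ofNat]
  rw [← hright]
  set Rt := ∫ y in (s.im - R)..(s.im + R), f (((2 : ℝ) : ℂ) + y * I) with hRt
  set Lt := ∫ y in (s.im - R)..(s.im + R), f (((1 / 2 : ℝ) : ℂ) + y * I) with hLt
  set Bt := ∫ x in (1 / 2 : ℝ)..2, f ((x : ℂ) + ((s.im - R : ℝ) : ℂ) * I) with hBt
  set Tt := ∫ x in (1 / 2 : ℝ)..2, f ((x : ℂ) + ((s.im + R : ℝ) : ℂ) * I) with hTt
  have hIR : I * Rt = I * Lt - Bt + Tt := by
    have : Bt - Tt + I • Rt - I • Lt = 0 := hrect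
    simp only [smul_eq_mul] at this
    linear_combination this
  have hn : ‖Rt‖ ≤ ‖Lt‖ + ‖Bt‖ + ‖Tt‖ := by
    have h2 : ‖Rt‖ = ‖I * Rt‖ := by rw [norm_mul, Complex.norm_I, one_mul]
    have h3 : ‖Lt‖ = ‖I * Lt‖ := by rw [norm_mul, Complex.norm_I, one_mul]
    rw [h2, hIR, h3]
    exact (norm_add_le _ _).trans (add_le_add_left (norm_sub_le _ _) _)
  refine hn.trans ?_
  have a1 : |(s.im + R) - (s.im - R)| = 2 * R := by
    rw [abs_of_nonneg (by linarith)]
    ring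
  have a2 : |(2 : ℝ) - 1 / 2| = 3 / 2 := by
    rw [abs_of_nonneg (by norm_num)]
    norm_num
  rw [a1] at hleft
  rw [a2] at hbot htop
  have hK : 0 ≤ B * Real.exp 1 * lam := by positivity
  have x1 : 0 < Real.exp E1 := Real.exp_pos _
  have x2 : 0 < Real.exp E2 := Real.exp_pos _
  calc ‖Lt‖ + ‖Bt‖ + ‖Tt‖ ≤ B * Real.exp 1 * lam * Real.exp E1 * (2 * R) +
        B * Real.exp 1 * lam * Real.exp E2 * (3 / 2) + B * Real.exp 1 * lam * Real.exp E2 * (3 / 2) :=
        add_le_add (add_le_add hleft hbot) htop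
    _ = B * Real.exp 1 * lam * (Real.exp E1 * (2 * R) + Real.exp E2 * 3) := by ring
    _ ≤ B * Real.exp 1 * lam * ((Real.exp E1 + Real.exp E2) * (2 * R + 3)) := by
        refine mul_le_mul_of_nonneg_left ?_ hK
        nlinarith [mul_pos x1 hR, mul_pos x2 hR]
    _ = B * Real.exp 1 * (2 * R + 3) * lam * (Real.exp E1 + Real.exp E2) := by ring

end Pool.Agent.Lib.MP_2a816b_nt.SW
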