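import Pool.Agent.Lib.MP_2a816b_nt.SW.GK

/-!
# LEAF Tail (easy / medium, 100 lines): the part `|Im w - γ| > R` of the line `Re w = 2`

`‖kp(2 + iy)‖ = exp((2 - β) u + τ ((2 - β)² - (y - γ)²)/2) ≤ exp(2u + 2τ) exp(-τ (y - γ)²/2)`, and for `|y - γ| ≥ R`, `τ ≥ 1`:
`exp(-τ (y - γ)²/2) ≤ exp(-τ R²/4) exp(-(y - γ)²/4)`. `‖sl lam (2 + i y)‖ ≤ (2 + |y|) lam e` (`sl_norm`), and `(2 + |y|) exp(-(y - γ)²/4)`
is integrable. The difference of the two integrals is the integral over the complement of `Ioc (γ - R) (γ + R)`.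
-/

namespace Pool.Agent.Lib.MP_2a816b_nt.SW

open Complex Set Filter Topology MeasureTheory

private theorem tail_dom_int (γ : ℝ) :
    Integrable (fun y : ℝ => (2 + |y|) * Real.exp (-((y - γ) ^ 2 / 4))) := by
  have hq : (0 : ℝ) < 1 / 4 := by norm_num
  have h1 : Integrable (fun x : ℝ => Real.exp (-(1 / 4) * x ^ 2)) := integrable_exp_neg_mul_sq hq
  have h2 : Integrable (fun x : ℝ => x * Real.exp (-(1 / 4) * x ^ 2)) := integrable_mul_exp_neg_mul_sq hq
  have h3 : Integrable (fun x : ℝ => (2 + |γ|) * Real.exp (-(1 / 4) * x ^ 2)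
      + |x * Real.exp (-(1 / 4) * x ^ 2)|) := (h1.const_mul _).add h2.abs
  have h4 : Integrable (fun x : ℝ => (2 + |x + γ|) * Real.exp (-(x ^ 2 / 4))) := by
    refine h3.mono' ?_ ?_
    · exact Continuous.aestronglyMeasurable (by fun_prop)
    · refine Filter.Eventually.of_forall fun x => ?_
      have he : -(x ^ 2 / 4) = -(1 / 4) * x ^ 2 := by ring
      have hpos := Real.exp_pos (-(1 / 4) * x ^ 2)
      rw [he, Real.norm_eq_abs, abs_mul, abs_of_pos hpos, abs_mul, abs_of_pos hpos,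
        abs_of_nonneg (by positivity : (0 : ℝ) ≤ 2 + |x + γ|), ← add_mul]
      refine mul_le_mul_of_nonneg_right ?_ hpos.le
      have := abs_add_le x γ
      linarith
  have h5 := h4.comp_sub_right γ
  refine h5.congr (Filter.Eventually.of_forall fun y => ?_)
  simp only [sub_add_cancel]

private theorem tail_bd {s : ℂ} (hs : 1 / 2 < s.re) (hs1 : s.re < 1) {G : ℝ → ℂ} {M : ℝ}
    (hM : ∀ y, ‖G y‖ ≤ M) {τ u lam : ℝ} (hτ : 1 ≤ τ) (hu : 0 ≤ u) (h0 : 0 ≤ lam) (h1 : lam ≤ 1) (y : ℝ) :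
    ‖G y * sl lam (2 + y * I) * kp s u τ (2 + y * I)‖ ≤
      (M * lam * Real.exp 1 * Real.exp (2 * u + 2 * τ)) *
        ((2 + |y|) * Real.exp (-(τ * (y - s.im) ^ 2 / 2))) := by
  have hM0 : 0 ≤ M := (norm_nonneg _).trans (hM 0)
  have hre : ((2 : ℂ) + y * I).re = 2 := by simp
  have him : ((2 : ℂ) + y * I).im = y := by simp
  have hn : ‖(2 : ℂ) + y * I‖ ≤ 2 + |y| := by
    refine (norm_add_le _ _).trans ?_
    simp
  have hsl : ‖sl lam (2 + y * I)‖ ≤ (2 + |y|) * lam * Real.exp 1 := by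
    refine (sl_norm h0 _).trans ?_
    rw [hre]
    have he : Real.exp (|(2 : ℝ)| * lam / 2) ≤ Real.exp 1 := by
      apply Real.exp_le_exp.mpr
      rw [abs_of_pos (by norm_num : (0 : ℝ) < 2)]
      linarith
    have hy0 : 0 ≤ 2 + |y| := by positivity
    exact mul_le_mul (mul_le_mul_of_nonneg_right hn h0) he (Real.exp_pos _).le (mul_nonneg hy0 h0)
  have hkp : ‖kp s u τ (2 + y * I)‖ ≤
      Real.exp (2 * u + 2 * τ) * Real.exp (-(τ * (y - s.im) ^ 2 / 2)) := by
    rw [kp_norm, hre, him, ← Real.exp_add]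
    apply Real.exp_le_exp.mpr
    have e1 : (2 - s.re) * u ≤ 2 * u := by nlinarith
    have e2 : (2 - s.re) ^ 2 ≤ 4 := by nlinarith
    have e3 : τ * (2 - s.re) ^ 2 ≤ τ * 4 := mul_le_mul_of_nonneg_left e2 (by linarith)
    nlinarith
  have hyn : 0 ≤ (2 + |y|) * lam * Real.exp 1 := by positivity
  rw [norm_mul, norm_mul]
  calc ‖G y‖ * ‖sl lam (2 + y * I)‖ * ‖kp s u τ (2 + y * I)‖
      ≤ M * ((2 + |y|) * lam * Real.exp 1) *
          (Real.exp (2 * u + 2 * τ) * Real.exp (-(τ * (y - s.im) ^ 2 / 2))) := by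
        refine mul_le_mul (mul_le_mul (hM y) hsl (norm_nonneg _) hM0) hkp (norm_nonneg _) ?_
        exact mul_nonneg hM0 hyn
    _ = _ := by ring

theorem tail {s : ℂ} (hs : 1 / 2 < s.re) (hs1 : s.re < 1) {R : ℝ} (hR : 0 < R) :
    ∃ C : ℝ, 0 ≤ C ∧ ∀ (G : ℝ → ℂ) (M : ℝ), Continuous G → (∀ y, ‖G y‖ ≤ M) →
      ∀ τ u lam : ℝ, 1 ≤ τ → 0 ≤ u → 0 ≤ lam → lam ≤ 1 →
        ‖(∫ y : ℝ, G y * sl lam (2 + y * I) * kp s u τ (2 + y * I)) -
          ∫ y in (s.im - R)..(s.im + R), G y * sl lam (2 + y * I) * kp s u τ (2 + y * I)‖ ≤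
            C * M * lam * Real.exp (2 * u + 2 * τ - τ * R ^ 2 / 4) := by
  have hint := tail_dom_int s.im
  have hI0 : 0 ≤ ∫ y : ℝ, (2 + |y|) * Real.exp (-((y - s.im) ^ 2 / 4)) :=
    integral_nonneg fun y => by positivity
  refine ⟨Real.exp 1 * ∫ y : ℝ, (2 + |y|) * Real.exp (-((y - s.im) ^ 2 / 4)),
    mul_nonneg (Real.exp_pos _).le hI0, ?_⟩
  intro G M hG hM τ u lam hτ hu h0 h1
  have hM0 : 0 ≤ M := (norm_nonneg _).trans (hM 0)
  have hc : Continuous (fun y : ℝ => G y * sl lam (2 + y * I) * kp s u τ (2 + y * I)) := by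
    unfold sl kp
    fun_prop
  -- integrable
  have hA : 0 ≤ M * lam * Real.exp 1 * Real.exp (2 * u + 2 * τ) := by positivity
  have hF : Integrable (fun y : ℝ => G y * sl lam (2 + y * I) * kp s u τ (2 + y * I)) := by
    refine (hint.const_mul (M * lam * Real.exp 1 * Real.exp (2 * u + 2 * τ))).mono'
      hc.aestronglyMeasurable (Filter.Eventually.of_forall fun y => ?_)
    refine (tail_bd hs hs1 hM hτ hu h0 h1 y).trans ?_
    refine mul_le_mul_of_nonneg_left ?_ hA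
    refine mul_le_mul_of_nonneg_left ?_ (by positivity)
    apply Real.exp_le_exp.mpr
    nlinarith [sq_nonneg (y - s.im)]
  have hms : MeasurableSet (Ioc (s.im - R) (s.im + R)) := measurableSet_Ioc
  have hsplit := integral_add_compl hms hF
  rw [intervalIntegral.integral_of_le (by linarith), ← hsplit, add_sub_cancel_left]
  -- bound on the complement
  have hbd : ∀ᵐ y ∂(volume.restrict (Ioc (s.im - R) (s.im + R))ᶜ),
      ‖G y * sl lam (2 + y * I) * kp s u τ (2 + y * I)‖ ≤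
        (M * lam * Real.exp 1 * Real.exp (2 * u + 2 * τ - τ * R ^ 2 / 4)) *
          ((2 + |y|) * Real.exp (-((y - s.im) ^ 2 / 4))) := by
    refine (ae_restrict_iff' hms.compl).mpr (Filter.Eventually.of_forall fun y hy => ?_)
    have hy2 : R ^ 2 ≤ (y - s.im) ^ 2 := by
      rw [mem_compl_iff, mem_Ioc, not_and_or, not_lt, not_le] at hy
      rcases hy with hy | hy
      · nlinarith
      · nlinarith
    refine (tail_bd hs hs1 hM hτ hu h0 h1 y).trans ?_
    have key : Real.exp (2 * u + 2 * τ) * Real.exp (-(τ * (y - s.im) ^ 2 / 2)) ≤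
        Real.exp (2 * u + 2 * τ - τ * R ^ 2 / 4) * Real.exp (-((y - s.im) ^ 2 / 4)) := by
      rw [← Real.exp_add, ← Real.exp_add]
      apply Real.exp_le_exp.mpr
      have a1 : τ * R ^ 2 ≤ τ * (y - s.im) ^ 2 := mul_le_mul_of_nonneg_left hy2 (by linarith)
      have a2 : (y - s.im) ^ 2 ≤ τ * (y - s.im) ^ 2 := by nlinarith [sq_nonneg (y - s.im)]
      linarith
    have hpre : 0 ≤ M * lam * Real.exp 1 * (2 + |y|) := by positivity
    calc (M * lam * Real.exp 1 * Real.exp (2 * u + 2 * τ)) *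
          ((2 + |y|) * Real.exp (-(τ * (y - s.im) ^ 2 / 2)))
        = (M * lam * Real.exp 1 * (2 + |y|)) *
          (Real.exp (2 * u + 2 * τ) * Real.exp (-(τ * (y - s.im) ^ 2 / 2))) := by ring
      _ ≤ (M * lam * Real.exp 1 * (2 + |y|)) *
          (Real.exp (2 * u + 2 * τ - τ * R ^ 2 / 4) * Real.exp (-((y - s.im) ^ 2 / 4))) :=
        mul_le_mul_of_nonneg_left key hpre
      _ = _ := by ring
  have hg := hint.const_mul (M * lam * Real.exp 1 * Real.exp (2 * u + 2 * τ - τ * R ^ 2 / 4))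
  refine (norm_integral_le_of_norm_le (hg.mono_measure Measure.restrict_le_self) hbd).trans ?_
  have hle := setIntegral_le_integral (s := (Ioc (s.im - R) (s.im + R))ᶜ) hg
    (Filter.Eventually.of_forall fun y => by positivity)
  refine hle.trans (le_of_eq ?_)
  rw [integral_const_mul]
  ring

end Pool.Agent.Lib.MP_2a816b_nt.SW
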