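import Pool.Agent.Lib.MP_2a816b_nt.SW.Line
import Pool.Agent.Lib.MP_2a816b_nt.SW.Move
import Pool.Agent.Lib.MP_2a816b_nt.SW.Tail

/-!
# LEAF Small (medium, 100 lines): a function whose Laplace transform is regular near `s` has a small local average at frequency `s`

`line`, then `tail` with `G y = ∫_0^∞ E(v) e^(-(2 + iy) v) dv` (continuous: dominated convergence, or Lipschitz since `v e^(-v)` is
integrable; bounded by `∫ C e^(-v)`), then `move` for the middle part (there `G y = N (2 + iy)`), `√(τ/(2π)) ≤ √τ` and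
`exp(-τ R²/2) ≤ exp(-τ R²/4)`.
-/

namespace Pool.Agent.Lib.MP_2a816b_nt.SW

open Complex Set Filter Topology MeasureTheory

private theorem Small_norm {E : ℝ → ℂ} {C : ℝ} (hb : ∀ v : ℝ, ‖E v‖ ≤ C * Real.exp v) (y v : ℝ) :
    ‖E v * cexp (-((2 + y * I) * v))‖ ≤ C * Real.exp (-v) := by
  rw [norm_mul, Complex.norm_exp]
  have h1 : (-((2 + (y : ℂ) * I) * v)).re = -(2 * v) := by
    simp
  rw [h1]
  calc ‖E v‖ * Real.exp (-(2 * v)) ≤ (C * Real.exp v) * Real.exp (-(2 * v)) :=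
        mul_le_mul_of_nonneg_right (hb v) (Real.exp_pos _).le
    _ = C * Real.exp (-v) := by
        rw [mul_assoc, ← Real.exp_add]
        congr 2
        ring

private theorem Small_int (C : ℝ) : IntegrableOn (fun v : ℝ => C * Real.exp (-v)) (Ioi 0) :=
  (integrableOn_exp_neg_Ioi 0).const_mul C

private theorem Small_cont {E : ℝ → ℂ} (hm : Measurable E) {C : ℝ} (hb : ∀ v : ℝ, ‖E v‖ ≤ C * Real.exp v) :
    Continuous fun y : ℝ => ∫ v in Ioi (0 : ℝ), E v * cexp (-((2 + y * I) * v)) := by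
  refine continuous_of_dominated (bound := fun v => C * Real.exp (-v)) (fun y => ?_) (fun y => ?_)
    (Small_int C) ?_
  · refine (hm.mul ?_).aestronglyMeasurable
    fun_prop
  · exact Eventually.of_forall fun v => Small_norm hb y v
  · exact Eventually.of_forall fun v => by fun_prop

private theorem Small_bd {E : ℝ → ℂ} {C : ℝ} (hb : ∀ v : ℝ, ‖E v‖ ≤ C * Real.exp v) (y : ℝ) :
    ‖∫ v in Ioi (0 : ℝ), E v * cexp (-((2 + y * I) * v))‖ ≤ C := by
  have h1 := norm_integral_le_of_norm_le (μ := volume.restrict (Ioi (0 : ℝ))) (Small_int C)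
    (Eventually.of_forall fun v => Small_norm hb y v)
  refine h1.trans (le_of_eq ?_)
  rw [integral_const_mul, integral_exp_neg_Ioi_zero, mul_one]

theorem small {E : ℝ → ℂ} (hm : Measurable E) (h0 : ∀ v : ℝ, v < 0 → E v = 0) {C : ℝ} (hb : ∀ v : ℝ, ‖E v‖ ≤ C * Real.exp v)
    {N : ℂ → ℂ} {R : ℝ} {s : ℂ} (hs : 1 / 2 < s.re) (hs1 : s.re < 1) (hR : 0 < R)
    (hN : ∀ w ∈ Rct (1 / 2) 2 (s.im - R) (s.im + R), AnalyticAt ℂ N w)
    (hNE : ∀ y : ℝ, s.im - R ≤ y → y ≤ s.im + R → N (2 + y * I) = ∫ v in Ioi (0 : ℝ), E v * cexp (-((2 + y * I) * v))) :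
    ∃ C' : ℝ, 0 ≤ C' ∧ ∀ τ u lam : ℝ, 1 ≤ τ → 0 ≤ u → 0 ≤ lam → lam ≤ 1 →
      ‖∫ v : ℝ, E v * (hf s u τ (v - lam / 2) - hf s u τ (v + lam / 2))‖ ≤
        C' * lam * Real.sqrt τ * (Real.exp (-((s.re - 1 / 2) * u) + τ * (s.re - 1 / 2) ^ 2 / 2) +
          Real.exp (2 * u + 2 * τ - τ * R ^ 2 / 4)) := by
  obtain ⟨CT, hCT, ht⟩ := tail hs hs1 hR
  obtain ⟨CM, hCM, hmv⟩ := move hs hs1 hR hN
  have hC0 : 0 ≤ C := by
    have h1 := (norm_nonneg _).trans (hb 0)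
    rw [Real.exp_zero, mul_one] at h1
    exact h1
  refine ⟨CT * C + CM, by positivity, fun τ u lam hτ hu hl hl1 => ?_⟩
  have hτ0 : 0 < τ := by linarith
  rw [line hm h0 hb hτ0 s u hl, norm_mul]
  set G : ℝ → ℂ := fun y => ∫ v in Ioi (0 : ℝ), E v * cexp (-((2 + y * I) * v)) with hG
  have hGc : Continuous G := Small_cont hm hb
  have hGb : ∀ y, ‖G y‖ ≤ C := fun y => Small_bd hb y
  have h1 := ht G C hGc hGb τ u lam hτ hu hl hl1
  have hle : s.im - R ≤ s.im + R := by linarith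
  have h2 : (∫ y in (s.im - R)..(s.im + R), G y * sl lam (2 + y * I) * kp s u τ (2 + y * I)) =
      ∫ y in (s.im - R)..(s.im + R), N (2 + y * I) * sl lam (2 + y * I) * kp s u τ (2 + y * I) := by
    refine intervalIntegral.integral_congr fun y hy => ?_
    rw [uIcc_of_le hle] at hy
    show G y * sl lam (2 + y * I) * kp s u τ (2 + y * I) =
      N (2 + y * I) * sl lam (2 + y * I) * kp s u τ (2 + y * I)
    rw [hNE y hy.1 hy.2]
  have h3 := hmv τ u lam hτ0.le hu hl hl1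
  rw [← h2] at h3
  have h4 : ‖∫ y : ℝ, G y * sl lam (2 + y * I) * kp s u τ (2 + y * I)‖ ≤
      CT * C * lam * Real.exp (2 * u + 2 * τ - τ * R ^ 2 / 4) +
        CM * lam * (Real.exp (-((s.re - 1 / 2) * u) + τ * (s.re - 1 / 2) ^ 2 / 2) +
          Real.exp (2 * u + 2 * τ - τ * R ^ 2 / 2)) := by
    have h5 := norm_le_norm_sub_add (∫ y : ℝ, G y * sl lam (2 + y * I) * kp s u τ (2 + y * I))
      (∫ y in (s.im - R)..(s.im + R), G y * sl lam (2 + y * I) * kp s u τ (2 + y * I))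
    exact h5.trans (add_le_add h1 h3)
  have h6 : Real.exp (2 * u + 2 * τ - τ * R ^ 2 / 2) ≤ Real.exp (2 * u + 2 * τ - τ * R ^ 2 / 4) := by
    apply Real.exp_le_exp.2
    have : 0 ≤ τ * R ^ 2 := by positivity
    linarith
  have h7 : ‖((Real.sqrt (τ / (2 * Real.pi)) : ℝ) : ℂ)‖ ≤ Real.sqrt τ := by
    rw [Complex.norm_real, Real.norm_of_nonneg (Real.sqrt_nonneg _)]
    apply Real.sqrt_le_sqrt
    refine div_le_self hτ0.le ?_
    linarith [Real.pi_gt_three]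
  have hA := Real.exp_pos (-((s.re - 1 / 2) * u) + τ * (s.re - 1 / 2) ^ 2 / 2)
  have hB := Real.exp_pos (2 * u + 2 * τ - τ * R ^ 2 / 4)
  have h8 : ‖∫ y : ℝ, G y * sl lam (2 + y * I) * kp s u τ (2 + y * I)‖ ≤
      (CT * C + CM) * lam * (Real.exp (-((s.re - 1 / 2) * u) + τ * (s.re - 1 / 2) ^ 2 / 2) +
          Real.exp (2 * u + 2 * τ - τ * R ^ 2 / 4)) := by
    refine h4.trans ?_
    have h9 : CM * lam * (Real.exp (-((s.re - 1 / 2) * u) + τ * (s.re - 1 / 2) ^ 2 / 2) +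
          Real.exp (2 * u + 2 * τ - τ * R ^ 2 / 2)) ≤
        CM * lam * (Real.exp (-((s.re - 1 / 2) * u) + τ * (s.re - 1 / 2) ^ 2 / 2) +
          Real.exp (2 * u + 2 * τ - τ * R ^ 2 / 4)) :=
      mul_le_mul_of_nonneg_left (by linarith) (by positivity)
    have h10 : 0 ≤ CT * C * lam * Real.exp (-((s.re - 1 / 2) * u) + τ * (s.re - 1 / 2) ^ 2 / 2) := by
      positivity
    nlinarith
  calc ‖((Real.sqrt (τ / (2 * Real.pi)) : ℝ) : ℂ)‖ *
        ‖∫ y : ℝ, G y * sl lam (2 + y * I) * kp s u τ (2 + y * I)‖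
      ≤ Real.sqrt τ * ((CT * C + CM) * lam * (Real.exp (-((s.re - 1 / 2) * u) + τ * (s.re - 1 / 2) ^ 2 / 2) +
          Real.exp (2 * u + 2 * τ - τ * R ^ 2 / 4))) :=
        mul_le_mul h7 h8 (norm_nonneg _) (Real.sqrt_nonneg _)
    _ = _ := by ring

end Pool.Agent.Lib.MP_2a816b_nt.SW
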