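import Pool.Agent.Lib.MP_2a816b_nt.SW.Lap

/-!
# LEAF Shift (easy / medium, 100 lines): moving the finite differences to the test function

`∫ Eh(v - k h) [hf(v - lam/2) - hf(v + lam/2)] dv = ∫ [Eh(v + lam/2) - Eh(v - lam/2)] hf(v + k h) dv` (translations of Lebesgue measure; all
integrands are integrable: `|Eh v| ≤ 7 e^v` and `hf` is a Gaussian times an exponential). Sum over `k` and split off the exponential.
-/

namespace Pool.Agent.Lib.MP_2a816b_nt.SW

open Complex Set Filter Topology MeasureTheory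

private theorem Shift_quad (b c d : ℝ) (hb : b < 0) :
    Integrable (fun x : ℝ => Real.exp (b * x ^ 2 + c * x + d)) := by
  have h := (integrable_cexp_quadratic' (b := (b : ℂ)) (by simpa using hb) (c : ℂ) (d : ℂ)).norm
  refine h.congr (ae_of_all _ fun x => ?_)
  have e : ((b : ℂ) * (x : ℂ) ^ 2 + (c : ℂ) * (x : ℂ) + (d : ℂ)) =
      ((b * x ^ 2 + c * x + d : ℝ) : ℂ) := by push_cast; ring
  simp only [e, Complex.norm_exp, Complex.ofReal_re]

private theorem Shift_hf_cont (s : ℂ) (u τ r : ℝ) : Continuous (fun v : ℝ => hf s u τ (v + r)) := by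
  unfold hf gs
  fun_prop

private theorem Shift_hf_norm (s : ℂ) (u τ x : ℝ) :
    ‖hf s u τ x‖ = Real.exp (-(s.re * x) + -((x - u) ^ 2 / (2 * τ))) := by
  unfold hf gs
  rw [norm_mul, Complex.norm_exp, Complex.norm_real, Real.norm_of_nonneg (Real.exp_pos _).le,
    ← Real.exp_add]
  congr 2
  simp

/-- integrability of a function of exponential growth against the test function -/
theorem hf_int {F : ℝ → ℂ} (hm : Measurable F) {C D : ℝ} (hb : ∀ v : ℝ, ‖F v‖ ≤ C * Real.exp (D * |v|)) {τ : ℝ} (hτ : 0 < τ)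
    (s : ℂ) (u r : ℝ) : Integrable (fun v : ℝ => F v * hf s u τ (v + r)) := by
  have hC : 0 ≤ C := by
    have h0 := (norm_nonneg _).trans (hb 0)
    rw [abs_zero, mul_zero, Real.exp_zero, mul_one] at h0
    exact h0
  have hneg : -(1 / (2 * τ)) < 0 := by
    have : 0 < 1 / (2 * τ) := by positivity
    linarith
  have h1 := Shift_quad (-(1 / (2 * τ))) (D - s.re - (r - u) / τ)
    (-(s.re * r) - (r - u) ^ 2 / (2 * τ)) hneg
  have h2 := Shift_quad (-(1 / (2 * τ))) (-D - s.re - (r - u) / τ)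
    (-(s.re * r) - (r - u) ^ 2 / (2 * τ)) hneg
  refine Integrable.mono' ((h1.add h2).const_mul C)
    (hm.mul (Shift_hf_cont s u τ r).measurable).aestronglyMeasurable (ae_of_all _ fun v => ?_)
  rw [norm_mul, Shift_hf_norm]
  have hE : Real.exp (D * |v|) ≤ Real.exp (D * v) + Real.exp (-D * v) := by
    rcases abs_cases v with ⟨h, _⟩ | ⟨h, _⟩
    · rw [h]
      linarith [Real.exp_pos (-D * v)]
    · rw [h]
      have : D * -v = -D * v := by ring
      rw [this]
      linarith [Real.exp_pos (D * v)]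
  have hG : 0 ≤ Real.exp (-(s.re * (v + r)) + -((v + r - u) ^ 2 / (2 * τ))) := (Real.exp_pos _).le
  calc ‖F v‖ * Real.exp (-(s.re * (v + r)) + -((v + r - u) ^ 2 / (2 * τ)))
      ≤ (C * (Real.exp (D * v) + Real.exp (-D * v))) *
          Real.exp (-(s.re * (v + r)) + -((v + r - u) ^ 2 / (2 * τ))) :=
        mul_le_mul_of_nonneg_right ((hb v).trans (mul_le_mul_of_nonneg_left hE hC)) hG
    _ = C * (Real.exp (-(1 / (2 * τ)) * v ^ 2 + (D - s.re - (r - u) / τ) * v +
          (-(s.re * r) - (r - u) ^ 2 / (2 * τ))) +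
        Real.exp (-(1 / (2 * τ)) * v ^ 2 + (-D - s.re - (r - u) / τ) * v +
          (-(s.re * r) - (r - u) ^ 2 / (2 * τ)))) := by
        rw [mul_assoc, add_mul, ← Real.exp_add, ← Real.exp_add]
        congr 3
        · field_simp
          ring
        · field_simp
          ring

private theorem Shift_Eh_bdd (r v : ℝ) :
    ‖((Eh (v + r) : ℝ) : ℂ)‖ ≤ (7 * Real.exp r) * Real.exp (1 * |v|) := by
  rw [Complex.norm_real, Real.norm_eq_abs, one_mul]
  refine (Eh_bdd (v + r)).trans ?_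
  rw [Real.exp_add, mul_assoc]
  have h1 : Real.exp v ≤ Real.exp |v| := Real.exp_le_exp.mpr (le_abs_self v)
  have h2 := mul_le_mul_of_nonneg_right h1 (Real.exp_pos r).le
  nlinarith [h2]

private theorem Shift_Eh_meas (r : ℝ) : Measurable (fun v : ℝ => ((Eh (v + r) : ℝ) : ℂ)) :=
  Complex.measurable_ofReal.comp (Eh_meas.comp (measurable_id.add_const r))

private theorem Shift_Eh_int {τ : ℝ} (hτ : 0 < τ) (s : ℂ) (u r r' : ℝ) :
    Integrable (fun v : ℝ => ((Eh (v + r) : ℝ) : ℂ) * hf s u τ (v + r')) :=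
  hf_int (Shift_Eh_meas r) (Shift_Eh_bdd r) hτ s u r'

private theorem Shift_one {τ : ℝ} (hτ : 0 < τ) (s : ℂ) (u lam c : ℝ) :
    ∫ v : ℝ, ((Eh (v - c) : ℝ) : ℂ) * (hf s u τ (v - lam / 2) - hf s u τ (v + lam / 2)) =
      ∫ v : ℝ, ((Eh (v + lam / 2) - Eh (v - lam / 2) : ℝ) : ℂ) * hf s u τ (v + c) := by
  have hi1 : Integrable (fun v : ℝ => ((Eh (v - c) : ℝ) : ℂ) * hf s u τ (v - lam / 2)) := by
    have h := Shift_Eh_int hτ s u (-c) (-(lam / 2))
    simpa only [← sub_eq_add_neg] using h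
  have hi2 : Integrable (fun v : ℝ => ((Eh (v - c) : ℝ) : ℂ) * hf s u τ (v + lam / 2)) := by
    have h := Shift_Eh_int hτ s u (-c) (lam / 2)
    simpa only [← sub_eq_add_neg] using h
  have hj1 : Integrable (fun v : ℝ => ((Eh (v + lam / 2) : ℝ) : ℂ) * hf s u τ (v + c)) :=
    Shift_Eh_int hτ s u (lam / 2) c
  have hj2 : Integrable (fun v : ℝ => ((Eh (v - lam / 2) : ℝ) : ℂ) * hf s u τ (v + c)) := by
    have h := Shift_Eh_int hτ s u (-(lam / 2)) c
    simpa only [← sub_eq_add_neg] using h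
  have e1 : ∫ v : ℝ, ((Eh (v - c) : ℝ) : ℂ) * hf s u τ (v - lam / 2) =
      ∫ v : ℝ, ((Eh (v + lam / 2) : ℝ) : ℂ) * hf s u τ (v + c) := by
    rw [← integral_add_right_eq_self
      (fun v : ℝ => ((Eh (v - c) : ℝ) : ℂ) * hf s u τ (v - lam / 2)) (c + lam / 2)]
    refine integral_congr_ae (ae_of_all _ fun v => ?_)
    have a1 : v + (c + lam / 2) - c = v + lam / 2 := by ring
    have a2 : v + (c + lam / 2) - lam / 2 = v + c := by ring
    simp only [a1, a2]
  have e2 : ∫ v : ℝ, ((Eh (v - c) : ℝ) : ℂ) * hf s u τ (v + lam / 2) =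
      ∫ v : ℝ, ((Eh (v - lam / 2) : ℝ) : ℂ) * hf s u τ (v + c) := by
    rw [← integral_add_right_eq_self
      (fun v : ℝ => ((Eh (v - c) : ℝ) : ℂ) * hf s u τ (v + lam / 2)) (c - lam / 2)]
    refine integral_congr_ae (ae_of_all _ fun v => ?_)
    have a1 : v + (c - lam / 2) - c = v - lam / 2 := by ring
    have a2 : v + (c - lam / 2) + lam / 2 = v + c := by ring
    simp only [a1, a2]
  have l1 : ∫ v : ℝ, ((Eh (v - c) : ℝ) : ℂ) * (hf s u τ (v - lam / 2) - hf s u τ (v + lam / 2)) =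
      (∫ v : ℝ, ((Eh (v - c) : ℝ) : ℂ) * hf s u τ (v - lam / 2)) -
        ∫ v : ℝ, ((Eh (v - c) : ℝ) : ℂ) * hf s u τ (v + lam / 2) := by
    rw [← integral_sub hi1 hi2]
    refine integral_congr_ae (ae_of_all _ fun v => ?_)
    simp only [mul_sub]
  have l2 : ∫ v : ℝ, ((Eh (v + lam / 2) - Eh (v - lam / 2) : ℝ) : ℂ) * hf s u τ (v + c) =
      (∫ v : ℝ, ((Eh (v + lam / 2) : ℝ) : ℂ) * hf s u τ (v + c)) -
        ∫ v : ℝ, ((Eh (v - lam / 2) : ℝ) : ℂ) * hf s u τ (v + c) := by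
    rw [← integral_sub hj1 hj2]
    refine integral_congr_ae (ae_of_all _ fun v => ?_)
    simp only [Complex.ofReal_sub, sub_mul]
  rw [l1, l2, e1, e2]

private theorem Shift_dif_int {F : ℝ → ℂ} (hm : Measurable F) {C D : ℝ}
    (hb : ∀ v : ℝ, ‖F v‖ ≤ C * Real.exp (D * |v|)) {τ : ℝ} (hτ : 0 < τ) (s : ℂ) (u lam : ℝ) :
    Integrable (fun v : ℝ => F v * (hf s u τ (v - lam / 2) - hf s u τ (v + lam / 2))) := by
  have h1 := hf_int hm hb hτ s u (-(lam / 2))
  have h2 := hf_int hm hb hτ s u (lam / 2)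
  have h3 := h1.sub h2
  refine h3.congr (ae_of_all _ fun v => ?_)
  simp only [Pi.sub_apply, ← sub_eq_add_neg, mul_sub]

theorem shift (n : ℕ) (a : ℕ → ℂ) {h : ℝ} (hh : 0 < h) (c0 ρ : ℂ) {τ : ℝ} (hτ : 0 < τ) (u lam : ℝ) :
    ∫ v : ℝ, Es n a h c0 ρ v * (hf ρ u τ (v - lam / 2) - hf ρ u τ (v + lam / 2)) =
      (∑ k ∈ Finset.range n, a k * ∫ v : ℝ, ((Eh (v + lam / 2) - Eh (v - lam / 2) : ℝ) : ℂ) * hf ρ u τ (v + k * h)) -
        ∫ v in Ioi (0 : ℝ), c0 * cexp (ρ * v) * (hf ρ u τ (v - lam / 2) - hf ρ u τ (v + lam / 2)) := by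
  have hI : ∀ k ∈ Finset.range n, Integrable (fun v : ℝ => a k * (((Eh (v - k * h) : ℝ) : ℂ) *
      (hf ρ u τ (v - lam / 2) - hf ρ u τ (v + lam / 2)))) := by
    intro k _
    have h1 := Shift_dif_int (Shift_Eh_meas (-(k * h))) (Shift_Eh_bdd (-(k * h))) hτ ρ u lam
    simp only [← sub_eq_add_neg] at h1
    exact h1.const_mul (a k)
  have hm : Measurable (fun v : ℝ => if 0 ≤ v then c0 * cexp (ρ * v) else 0) := by
    refine Measurable.ite measurableSet_Ici ?_ measurable_const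
    have hc : Continuous (fun v : ℝ => c0 * cexp (ρ * v)) := by fun_prop
    exact hc.measurable
  have hb : ∀ v : ℝ, ‖(if 0 ≤ v then c0 * cexp (ρ * v) else 0 : ℂ)‖ ≤
      ‖c0‖ * Real.exp (|ρ.re| * |v|) := by
    intro v
    split_ifs with hv
    · rw [norm_mul, Complex.norm_exp]
      refine mul_le_mul_of_nonneg_left (Real.exp_le_exp.mpr ?_) (norm_nonneg _)
      have e : (ρ * (v : ℂ)).re = ρ.re * v := by simp
      rw [e, ← abs_mul]
      exact le_abs_self _
    · rw [norm_zero]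
      positivity
  have hJ := Shift_dif_int hm hb hτ ρ u lam
  have e0 : ∀ v : ℝ, Es n a h c0 ρ v * (hf ρ u τ (v - lam / 2) - hf ρ u τ (v + lam / 2)) =
      (∑ k ∈ Finset.range n, a k * (((Eh (v - k * h) : ℝ) : ℂ) *
        (hf ρ u τ (v - lam / 2) - hf ρ u τ (v + lam / 2)))) -
      (if 0 ≤ v then c0 * cexp (ρ * v) else 0) *
        (hf ρ u τ (v - lam / 2) - hf ρ u τ (v + lam / 2)) := by
    intro v
    unfold Es
    rw [sub_mul, Finset.sum_mul]
    congr 1
    refine Finset.sum_congr rfl fun k _ => ?_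
    ring
  rw [integral_congr_ae (ae_of_all _ e0), integral_sub (integrable_finsetSum _ hI) hJ,
    integral_finsetSum _ hI]
  congr 1
  · refine Finset.sum_congr rfl fun k _ => ?_
    rw [integral_const_mul, Shift_one hτ ρ u lam (k * h)]
  · rw [← integral_Ici_eq_integral_Ioi, ← integral_indicator measurableSet_Ici]
    refine integral_congr_ae (ae_of_all _ fun v => ?_)
    by_cases hv : 0 ≤ v
    · simp only [if_pos hv, Set.indicator_of_mem (show v ∈ Ici (0 : ℝ) from hv)]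
    · simp only [if_neg hv, Set.indicator_of_notMem (show v ∉ Ici (0 : ℝ) from hv), zero_mul]

end Pool.Agent.Lib.MP_2a816b_nt.SW
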