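import Pool.Agent.Lib.MP_2a816b_nt.SG.Defs
import Pool.Agent.Lib.MP_2a816b_nt.SW.Shift

/-!
# LEAF Win (medium / hard, 200 lines): the window and its complement

`L = log T`, `u = (b + l/2) L`, `τ = κ L`, `lam ≤ 2/T`. For `v` in the window `[b L, (b + l) L - 1]` (there `v ≥ lam/2`):
`Eh(v + lam/2) - Eh(v - lam/2) = e^(v/2) SG.Dt lam v` and `|hf ρ u τ (v + k h)| ≤ e^(-β v)` (`β = Re ρ`, `k h ≥ 0`), so by Cauchy-Schwarz the
window contributes at most `∑ |a k|` times `(∫ Dt²)^(1/2) (∫_{bL}^{(b+l)L} e^((1 - 2β) v) dv)^(1/2) ≤ (∫ Dt² · l L T^(-(2β-1) b))^(1/2)`.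
Outside of the window: `|Eh(v ± lam/2)| ≤ 7 e^(v + 1)`, `Eh(v ± lam/2) = 0` for `v < -1`, `|hf ρ u τ (v + k h)| ≤ e gs τ (v + k h - u)` for `v ≥ -1`, and
`|v + k h - u| ≥ (l/4) L` for `T` large, so `gs τ ≤ exp(-(v + kh - u)²/(4τ)) T^(-l²/(64κ))`, while
`∫ e^v exp(-(v + kh - u)²/(4τ)) dv ≤ √(4πτ) e^(u + τ)`. `κ₀ = min 1 (l²/(64 (b + l/2 + 5)))`.
-/

namespace Pool.Agent.Lib.MP_2a816b_nt.SW

open Complex Set Filter Topology MeasureTheory

private theorem Win_ehb {lam : ℝ} (h0 : 0 ≤ lam) (h1 : lam ≤ 1) (v : ℝ) :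
    |Eh (v + lam / 2) - Eh (v - lam / 2)| ≤ 14 * Real.exp 1 * Real.exp v := by
  have e1 := Eh_bdd (v + lam / 2)
  have e2 := Eh_bdd (v - lam / 2)
  have e3 : Real.exp (v + lam / 2) ≤ Real.exp 1 * Real.exp v := by
    rw [← Real.exp_add]
    exact Real.exp_le_exp.2 (by linarith)
  have e4 : Real.exp (v - lam / 2) ≤ Real.exp 1 * Real.exp v := by
    rw [← Real.exp_add]
    exact Real.exp_le_exp.2 (by linarith)
  have e5 := abs_sub (Eh (v + lam / 2)) (Eh (v - lam / 2))
  linarith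

private theorem Win_eq {lam v : ℝ} (h0 : 0 ≤ lam) (h : lam / 2 ≤ v) :
    Real.exp (-(v / 2)) * (Eh (v + lam / 2) - Eh (v - lam / 2)) = SG.Dt lam v := by
  unfold Eh SG.Dt
  rw [if_pos (by linarith), if_pos (by linarith), Real.sinh_eq]
  have e1 : Real.exp (v + lam / 2) = Real.exp (v / 2) * Real.exp (v / 2) * Real.exp (lam / 2) := by
    rw [← Real.exp_add, ← Real.exp_add]
    congr 1
    ring
  have e2 : Real.exp (v - lam / 2) = Real.exp (v / 2) * Real.exp (v / 2) * Real.exp (-(lam / 2)) := by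
    rw [← Real.exp_add, ← Real.exp_add]
    congr 1
    ring
  have e3 : Real.exp (-(v / 2)) * Real.exp (v / 2) = 1 := by
    rw [← Real.exp_add, neg_add_cancel, Real.exp_zero]
  have e4 : Real.exp (-(v / 2)) * (Real.exp (v + lam / 2) - Real.exp (v - lam / 2)) =
      2 * ((Real.exp (lam / 2) - Real.exp (-(lam / 2))) / 2) * Real.exp (v / 2) := by
    rw [e1, e2]
    linear_combination (Real.exp (v / 2) * Real.exp (lam / 2) - Real.exp (v / 2) * Real.exp (-(lam / 2))) * e3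
  linear_combination -e4

private theorem Win_hf (ρ : ℂ) (u τ v : ℝ) :
    ‖hf ρ u τ v‖ = Real.exp (-(ρ.re * v)) * gs τ (v - u) := by
  unfold hf
  rw [norm_mul, Complex.norm_exp, Complex.norm_real]
  have e1 : (-(ρ * (v : ℂ))).re = -(ρ.re * v) := by simp
  rw [e1, Real.norm_eq_abs, abs_of_pos (by unfold gs; exact Real.exp_pos _)]

private theorem Win_cs {A B : ℝ} (hAB : A < B) {f : ℝ → ℝ} (hf : IntegrableOn f (Ioc A B))
    (hf2 : IntegrableOn (fun v => f v ^ 2) (Ioc A B)) :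
    ∫ v in Ioc A B, |f v| ≤ Real.sqrt ((B - A) * ∫ v in Ioc A B, f v ^ 2) := by
  set a := ∫ v in Ioc A B, |f v| with ha
  set q := ∫ v in Ioc A B, f v ^ 2 with hq
  have hl : 0 < B - A := by linarith
  apply Real.le_sqrt_of_sq_le
  set c := a / (B - A) with hc
  have h1 : 0 ≤ ∫ v in Ioc A B, (|f v| - c) ^ 2 := integral_nonneg fun v => sq_nonneg _
  have h2 : ∫ v in Ioc A B, (|f v| - c) ^ 2 = q - 2 * c * a + (B - A) * c ^ 2 := by
    have e1 : ∀ v, (|f v| - c) ^ 2 = f v ^ 2 - 2 * c * |f v| + c ^ 2 := by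
      intro v
      have := sq_abs (f v)
      linear_combination this
    have hcI : IntegrableOn (fun _ : ℝ => c ^ 2) (Ioc A B) :=
      integrableOn_const (by rw [Real.volume_Ioc]; exact ENNReal.ofReal_ne_top)
    have hfa : IntegrableOn (fun v => 2 * c * |f v|) (Ioc A B) := hf.norm.const_mul (2 * c)
    have hsub : IntegrableOn (fun v => f v ^ 2 - 2 * c * |f v|) (Ioc A B) := hf2.sub hfa
    rw [integral_congr_ae (ae_of_all _ e1), integral_add hsub hcI, integral_sub hf2 hfa,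
      integral_const_mul, setIntegral_const, Real.volume_real_Ioc_of_le hAB.le, smul_eq_mul]
  have h3 : a = c * (B - A) := by rw [hc]; field_simp
  rw [h2] at h1
  have h4 : q - c * a ≥ 0 := by
    have : (B - A) * c ^ 2 = c * a := by rw [h3]; ring
    linarith
  have h5 : a ^ 2 = (B - A) * (c * a) := by
    have : (B - A) * (c * a) = (c * (B - A)) * a := by ring
    rw [this, ← h3]; ring
  rw [h5]
  exact mul_le_mul_of_nonneg_left (by linarith) hl.le

private theorem Win_gauss {τ : ℝ} (hτ : 0 < τ) (m : ℝ) :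
    Integrable (fun v : ℝ => Real.exp (-((v - m) ^ 2 / (4 * τ)))) ∧
    ∫ v : ℝ, Real.exp (-((v - m) ^ 2 / (4 * τ))) = Real.sqrt (Real.pi * (4 * τ)) := by
  have h4 : 0 < 1 / (4 * τ) := by positivity
  have hI := integrable_exp_neg_mul_sq h4
  have e1 : (fun v : ℝ => Real.exp (-((v - m) ^ 2 / (4 * τ)))) =
      fun v : ℝ => (fun x : ℝ => Real.exp (-(1 / (4 * τ)) * x ^ 2)) (v - m) := by
    funext v
    change _ = Real.exp (-(1 / (4 * τ)) * (v - m) ^ 2)
    congr 1
    ring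
  constructor
  · rw [e1]
    exact hI.comp_sub_right m
  · rw [e1, integral_sub_right_eq_self (fun x : ℝ => Real.exp (-(1 / (4 * τ)) * x ^ 2)) m,
      integral_gaussian]
    congr 1
    field_simp

private theorem Win_one {b l κ : ℝ} (hb : 1 ≤ b) (hl : 0 < l) (hκ : 0 < κ) (hκ1 : κ ≤ 1)
    (hκ2 : b + l / 2 + 5 ≤ l ^ 2 / (64 * κ)) {ρ : ℂ} (h1 : 1 / 2 < ρ.re) (h2 : ρ.re < 1) {r : ℝ} (hr : 0 ≤ r)
    {T : ℝ} (hT : 2 ≤ T) (hT1 : 1 < l * Real.log T) (hT2 : 4 ≤ l * Real.log T) (hT3 : 4 * r ≤ l * Real.log T)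
    {lam : ℝ} (hl0 : 0 ≤ lam) (hl1 : lam ≤ 2 / T) :
    ‖∫ v : ℝ, ((Eh (v + lam / 2) - Eh (v - lam / 2) : ℝ) : ℂ) *
        hf ρ ((b + l / 2) * Real.log T) (κ * Real.log T) (v + r)‖ ≤
      Real.sqrt l * Real.sqrt (Real.log T * T ^ (-((2 * ρ.re - 1) * b)) *
        ∫ v in (b * Real.log T)..((b + l) * Real.log T - 1), SG.Dt lam v ^ 2) +
      14 * Real.exp 2 * Real.sqrt (Real.pi * (4 * κ)) * T ^ (-(3 : ℝ)) := by
  have hT0 : 0 < T := by linarith
  set L := Real.log T with hL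
  have hLpos : 0 < L := Real.log_pos (by linarith)
  have hlog2 : 1 / 2 < L := by
    have h3 := Real.log_two_gt_d9
    have h4 : Real.log 2 ≤ L := Real.log_le_log (by norm_num) hT
    linarith
  have hlam1 : lam ≤ 1 := by
    refine hl1.trans ?_
    rw [div_le_one hT0]
    exact hT
  set u := (b + l / 2) * L with hu
  set τ := κ * L with hτd
  have hτ : 0 < τ := mul_pos hκ hLpos
  set D : ℝ → ℝ := fun v => Eh (v + lam / 2) - Eh (v - lam / 2) with hD
  set F : ℝ → ℂ := fun v => ((D v : ℝ) : ℂ) * hf ρ u τ (v + r) with hF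
  change ‖∫ v : ℝ, F v‖ ≤ _
  have hDm : Measurable D := (Eh_meas.comp (measurable_id.add_const _)).sub
    (Eh_meas.comp (measurable_id.sub_const _))
  set A := b * L with hA
  set B := (b + l) * L - 1 with hB
  have hAB : A < B := by
    rw [hA, hB]
    nlinarith
  set S := ∫ v in A..B, SG.Dt lam v ^ 2 with hS
  have hTL : Real.exp L = T := Real.exp_log hT0
  have hTp : ∀ x : ℝ, T ^ x = Real.exp (x * L) := by
    intro x
    rw [Real.rpow_def_of_pos hT0, mul_comm]
  -- the window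
  have hwin : ‖∫ v in Ioc A B, F v‖ ≤ Real.sqrt l * Real.sqrt (L * T ^ (-((2 * ρ.re - 1) * b)) * S) := by
    set Q : ℝ → ℝ := fun v => Real.exp (-(v / 2)) * D v with hQ
    have hQm : Measurable Q := (by fun_prop : Measurable fun v : ℝ => Real.exp (-(v / 2))).mul hDm
    have hQD : ∀ v ∈ Ioc A B, Q v = SG.Dt lam v := by
      intro v hv
      refine Win_eq hl0 ?_
      have : A ≤ v := hv.1.le
      have h5 : L ≤ A := by rw [hA]; nlinarith
      linarith
    have hQb : ∀ v ∈ Ioc A B, ‖Q v‖ ≤ 14 * Real.exp 1 * Real.exp (B / 2) := by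
      intro v hv
      rw [hQ]
      change ‖Real.exp (-(v / 2)) * D v‖ ≤ _
      rw [norm_mul, Real.norm_eq_abs, Real.abs_exp, Real.norm_eq_abs]
      have h5 := Win_ehb hl0 hlam1 v
      have h6 : Real.exp (-(v / 2)) * Real.exp v = Real.exp (v / 2) := by
        rw [← Real.exp_add]
        congr 1
        ring
      have h7 : Real.exp (v / 2) ≤ Real.exp (B / 2) := Real.exp_le_exp.2 (by linarith [hv.2])
      calc Real.exp (-(v / 2)) * |D v| ≤ Real.exp (-(v / 2)) * (14 * Real.exp 1 * Real.exp v) :=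
            mul_le_mul_of_nonneg_left h5 (Real.exp_pos _).le
        _ = 14 * Real.exp 1 * Real.exp (v / 2) := by rw [← h6]; ring
        _ ≤ _ := mul_le_mul_of_nonneg_left h7 (by positivity)
    have hvol : volume (Ioc A B) ≠ ⊤ := by
      rw [Real.volume_Ioc]
      exact ENNReal.ofReal_ne_top
    have hQI : IntegrableOn Q (Ioc A B) :=
      Measure.integrableOn_of_bounded hvol hQm.aestronglyMeasurable
        ((ae_restrict_iff' measurableSet_Ioc).2 (ae_of_all _ hQb))
    have hQI2 : IntegrableOn (fun v => Q v ^ 2) (Ioc A B) := by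
      refine Measure.integrableOn_of_bounded (M := (14 * Real.exp 1 * Real.exp (B / 2)) ^ 2) hvol
        (hQm.pow_const 2).aestronglyMeasurable
        ((ae_restrict_iff' measurableSet_Ioc).2 (ae_of_all _ fun v hv => ?_))
      rw [norm_pow]
      exact pow_le_pow_left₀ (norm_nonneg _) (hQb v hv) 2
    have hcs := Win_cs hAB hQI hQI2
    have hSQ : ∫ v in Ioc A B, Q v ^ 2 = S := by
      rw [hS, intervalIntegral.integral_of_le hAB.le]
      refine setIntegral_congr_fun measurableSet_Ioc fun v hv => ?_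
      rw [hQD v hv]
    rw [hSQ] at hcs
    have hS0 : 0 ≤ S := by
      rw [← hSQ]
      exact integral_nonneg fun v => sq_nonneg _
    have hpt : ∀ v ∈ Ioc A B, ‖F v‖ ≤ T ^ ((1 / 2 - ρ.re) * b) * |Q v| := by
      intro v hv
      have hvA : A < v := hv.1
      have hv0 : 0 < v := lt_of_le_of_lt (by rw [hA]; positivity) hvA
      have h5 : D v = Real.exp (v / 2) * Q v := by
        rw [hQ]
        change D v = Real.exp (v / 2) * (Real.exp (-(v / 2)) * D v)
        rw [← mul_assoc, ← Real.exp_add, add_neg_cancel, Real.exp_zero, one_mul]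
      change ‖((D v : ℝ) : ℂ) * hf ρ u τ (v + r)‖ ≤ _
      rw [norm_mul, Complex.norm_real, Real.norm_eq_abs, Win_hf, h5, abs_mul, Real.abs_exp]
      have h6 : gs τ (v + r - u) ≤ 1 := by
        unfold gs
        rw [← Real.exp_zero]
        refine Real.exp_le_exp.2 ?_
        have : 0 ≤ (v + r - u) ^ 2 / (2 * τ) := by positivity
        linarith
      have h7 : Real.exp (v / 2) * Real.exp (-(ρ.re * (v + r))) ≤ T ^ ((1 / 2 - ρ.re) * b) := by
        rw [hTp, ← Real.exp_add]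
        refine Real.exp_le_exp.2 ?_
        have h8 : 0 ≤ ρ.re * r := mul_nonneg (by linarith) hr
        have h9 : (ρ.re - 1 / 2) * A ≤ (ρ.re - 1 / 2) * v :=
          mul_le_mul_of_nonneg_left hvA.le (by linarith)
        have h10 : (1 / 2 - ρ.re) * b * L = -((ρ.re - 1 / 2) * A) := by rw [hA]; ring
        rw [h10]
        linarith
      have h11 : 0 ≤ gs τ (v + r - u) := by unfold gs; exact (Real.exp_pos _).le
      calc Real.exp (v / 2) * |Q v| * (Real.exp (-(ρ.re * (v + r))) * gs τ (v + r - u))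
          = (Real.exp (v / 2) * Real.exp (-(ρ.re * (v + r)))) * |Q v| * gs τ (v + r - u) := by ring
        _ ≤ (T ^ ((1 / 2 - ρ.re) * b) * |Q v|) * 1 := by
            refine mul_le_mul ?_ h6 h11 (by positivity)
            exact mul_le_mul_of_nonneg_right h7 (abs_nonneg _)
        _ = _ := mul_one _
    have h12 : ‖∫ v in Ioc A B, F v‖ ≤ ∫ v in Ioc A B, T ^ ((1 / 2 - ρ.re) * b) * |Q v| :=
      norm_integral_le_of_norm_le (hQI.norm.const_mul _)
        ((ae_restrict_iff' measurableSet_Ioc).2 (ae_of_all _ hpt))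
    rw [integral_const_mul] at h12
    refine h12.trans ?_
    have h13 : T ^ ((1 / 2 - ρ.re) * b) = Real.sqrt (T ^ (-((2 * ρ.re - 1) * b))) := by
      rw [hTp, hTp, Real.sqrt_eq_rpow, ← Real.exp_mul]
      congr 1
      ring
    have h14 : Real.sqrt ((B - A) * S) ≤ Real.sqrt (l * (L * S)) := by
      apply Real.sqrt_le_sqrt
      have : B - A ≤ l * L := by rw [hA, hB]; linarith
      nlinarith
    calc T ^ ((1 / 2 - ρ.re) * b) * ∫ v in Ioc A B, |Q v|
        ≤ Real.sqrt (T ^ (-((2 * ρ.re - 1) * b))) * Real.sqrt (l * (L * S)) := by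
          rw [h13]
          exact mul_le_mul_of_nonneg_left (hcs.trans h14) (Real.sqrt_nonneg _)
      _ = Real.sqrt l * Real.sqrt (L * T ^ (-((2 * ρ.re - 1) * b)) * S) := by
          rw [← Real.sqrt_mul (by positivity), ← Real.sqrt_mul hl.le]
          congr 1
          ring
  -- the complement
  set m := u - r + 2 * τ with hm
  set K := 14 * Real.exp 2 * T ^ (-(l ^ 2 / (64 * κ))) * Real.exp (u - r + τ) with hK
  have hK0 : 0 ≤ K := by positivity
  have hpt2 : ∀ v ∈ (Ioc A B)ᶜ, ‖F v‖ ≤ K * Real.exp (-((v - m) ^ 2 / (4 * τ))) := by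
    intro v hv
    rcases lt_or_ge v (-1) with hv1 | hv1
    · have h5 : D v = 0 := by
        change Eh (v + lam / 2) - Eh (v - lam / 2) = 0
        rw [Eh_neg (by linarith), Eh_neg (by linarith), sub_zero]
      change ‖((D v : ℝ) : ℂ) * hf ρ u τ (v + r)‖ ≤ _
      rw [h5, Complex.ofReal_zero, zero_mul, norm_zero]
      positivity
    · change ‖((D v : ℝ) : ℂ) * hf ρ u τ (v + r)‖ ≤ _
      rw [norm_mul, Complex.norm_real, Real.norm_eq_abs, Win_hf]
      have h5 := Win_ehb hl0 hlam1 v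
      have h6 : Real.exp (-(ρ.re * (v + r))) ≤ Real.exp 1 := by
        refine Real.exp_le_exp.2 ?_
        have h7 : 0 ≤ ρ.re * r := mul_nonneg (by linarith) hr
        have h8 : ρ.re * (-1) ≤ ρ.re * v := mul_le_mul_of_nonneg_left hv1 (by linarith)
        linarith
      set y := v + r - u with hy
      have hy2 : (l / 4 * L) ^ 2 ≤ y ^ 2 := by
        rw [mem_compl_iff, mem_Ioc, not_and_or, not_lt, not_le] at hv
        rcases hv with hv | hv
        · have h9 : y ≤ -(l / 4 * L) := by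
            rw [hy, hu]
            rw [hA] at hv
            nlinarith
          nlinarith [mul_pos hl hLpos]
        · have h9 : l / 4 * L ≤ y := by
            rw [hy, hu]
            rw [hB] at hv
            nlinarith
          nlinarith [mul_pos hl hLpos]
      have h10 : gs τ y ≤ T ^ (-(l ^ 2 / (64 * κ))) * Real.exp (-(y ^ 2 / (4 * τ))) := by
        unfold gs
        rw [hTp, ← Real.exp_add]
        refine Real.exp_le_exp.2 ?_
        have h11 : (l / 4 * L) ^ 2 / (4 * τ) ≤ y ^ 2 / (4 * τ) :=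
          div_le_div_of_nonneg_right hy2 (by positivity)
        have h12 : (l / 4 * L) ^ 2 / (4 * τ) = l ^ 2 / (64 * κ) * L := by
          rw [hτd]
          field_simp
          ring
        have h13 : y ^ 2 / (2 * τ) = y ^ 2 / (4 * τ) + y ^ 2 / (4 * τ) := by
          field_simp
          ring
        rw [h13]
        rw [h12] at h11
        linarith
      have h14 : Real.exp v * Real.exp (-(y ^ 2 / (4 * τ))) =
          Real.exp (u - r + τ) * Real.exp (-((v - m) ^ 2 / (4 * τ))) := by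
        rw [← Real.exp_add, ← Real.exp_add]
        congr 1
        rw [hm, hy]
        field_simp
        ring
      have h15 : 0 ≤ gs τ y := by unfold gs; exact (Real.exp_pos _).le
      have h16 : Real.exp 2 = Real.exp 1 * Real.exp 1 := by
        rw [← Real.exp_add]
        norm_num
      calc |D v| * (Real.exp (-(ρ.re * (v + r))) * gs τ y)
          ≤ (14 * Real.exp 1 * Real.exp v) * (Real.exp 1 *
            (T ^ (-(l ^ 2 / (64 * κ))) * Real.exp (-(y ^ 2 / (4 * τ))))) := by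
            refine mul_le_mul h5 ?_ (by positivity) (by positivity)
            exact mul_le_mul h6 h10 h15 (Real.exp_pos _).le
        _ = 14 * (Real.exp 1 * Real.exp 1) * T ^ (-(l ^ 2 / (64 * κ))) *
            (Real.exp v * Real.exp (-(y ^ 2 / (4 * τ)))) := by ring
        _ = K * Real.exp (-((v - m) ^ 2 / (4 * τ))) := by
            rw [h14, ← h16, hK]
            ring
  obtain ⟨hgI, hgv⟩ := Win_gauss hτ m
  have hcompl : ‖∫ v in (Ioc A B)ᶜ, F v‖ ≤
      14 * Real.exp 2 * Real.sqrt (Real.pi * (4 * κ)) * T ^ (-(3 : ℝ)) := by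
    have h5 : ‖∫ v in (Ioc A B)ᶜ, F v‖ ≤
        ∫ v in (Ioc A B)ᶜ, K * Real.exp (-((v - m) ^ 2 / (4 * τ))) :=
      norm_integral_le_of_norm_le (hgI.const_mul K).integrableOn
        ((ae_restrict_iff' measurableSet_Ioc.compl).2 (ae_of_all _ hpt2))
    have h6 : ∫ v in (Ioc A B)ᶜ, K * Real.exp (-((v - m) ^ 2 / (4 * τ))) ≤
        ∫ v : ℝ, K * Real.exp (-((v - m) ^ 2 / (4 * τ))) :=
      setIntegral_le_integral (hgI.const_mul K) (ae_of_all _ fun v => by positivity)
    have h6' : ∫ v : ℝ, K * Real.exp (-((v - m) ^ 2 / (4 * τ))) =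
        K * Real.sqrt (Real.pi * (4 * τ)) := by rw [integral_const_mul, hgv]
    rw [h6'] at h6
    refine (h5.trans h6).trans ?_
    have h7 : Real.sqrt (Real.pi * (4 * τ)) ≤ Real.sqrt (Real.pi * (4 * κ)) * T := by
      have e1 : Real.pi * (4 * τ) = Real.pi * (4 * κ) * L := by rw [hτd]; ring
      rw [e1, Real.sqrt_mul (by positivity)]
      refine mul_le_mul_of_nonneg_left ?_ (Real.sqrt_nonneg _)
      rw [Real.sqrt_le_left hT0.le]
      have h8 : L ≤ T - 1 := Real.log_le_sub_one_of_pos hT0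
      nlinarith
    have h9 : T ^ (-(l ^ 2 / (64 * κ))) * Real.exp (u - r + τ) * T ≤ T ^ (-(3 : ℝ)) := by
      rw [hTp, hTp]
      have e1 : Real.exp (-(l ^ 2 / (64 * κ)) * L) * Real.exp (u - r + τ) * T =
          Real.exp (-(l ^ 2 / (64 * κ)) * L + (u - r + τ) + L) := by
        rw [Real.exp_add (-(l ^ 2 / (64 * κ)) * L + (u - r + τ)) L,
          Real.exp_add (-(l ^ 2 / (64 * κ)) * L) (u - r + τ), hTL]
      rw [e1]
      refine Real.exp_le_exp.2 ?_
      have h10 : (b + l / 2 + 5) * L ≤ l ^ 2 / (64 * κ) * L := mul_le_mul_of_nonneg_right hκ2 hLpos.le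
      have h11 : κ * L ≤ 1 * L := mul_le_mul_of_nonneg_right hκ1 hLpos.le
      rw [hu, hτd]
      nlinarith
    calc K * Real.sqrt (Real.pi * (4 * τ)) ≤ K * (Real.sqrt (Real.pi * (4 * κ)) * T) :=
          mul_le_mul_of_nonneg_left h7 hK0
      _ = 14 * Real.exp 2 * Real.sqrt (Real.pi * (4 * κ)) *
          (T ^ (-(l ^ 2 / (64 * κ))) * Real.exp (u - r + τ) * T) := by rw [hK]; ring
      _ ≤ _ := mul_le_mul_of_nonneg_left h9 (by positivity)
  by_cases hFI : Integrable F
  · rw [← integral_add_compl measurableSet_Ioc hFI]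
    exact (norm_add_le _ _).trans (add_le_add hwin hcompl)
  · rw [integral_undef hFI, norm_zero]
    positivity

theorem win (b l : ℝ) (hb : 1 ≤ b) (hl : 0 < l) : ∃ κ₀ : ℝ, 0 < κ₀ ∧ ∀ κ : ℝ, 0 < κ → κ ≤ κ₀ →
    ∀ (n : ℕ) (a : ℕ → ℂ) (h : ℝ) (ρ : ℂ), 0 < h → 1 / 2 < ρ.re → ρ.re < 1 → ∃ C T₀ : ℝ, 0 ≤ C ∧ 2 ≤ T₀ ∧ ∀ T : ℝ, T₀ ≤ T →
      ∀ lam : ℝ, 0 ≤ lam → lam ≤ 2 / T →
        ‖∑ k ∈ Finset.range n, a k * ∫ v : ℝ, ((Eh (v + lam / 2) - Eh (v - lam / 2) : ℝ) : ℂ) *
            hf ρ ((b + l / 2) * Real.log T) (κ * Real.log T) (v + k * h)‖ ≤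
          C * (Real.sqrt (Real.log T * T ^ (-((2 * ρ.re - 1) * b)) *
            ∫ v in (b * Real.log T)..((b + l) * Real.log T - 1), SG.Dt lam v ^ 2) + T ^ (-(3 : ℝ))) := by
  refine ⟨min 1 (l ^ 2 / (64 * (b + l / 2 + 5))), lt_min one_pos (by positivity), ?_⟩
  intro κ hκ hκ0 n a h ρ hh hρ1 hρ2
  have hκ1 : κ ≤ 1 := hκ0.trans (min_le_left _ _)
  have hκ2 : b + l / 2 + 5 ≤ l ^ 2 / (64 * κ) := by
    have h1 : κ ≤ l ^ 2 / (64 * (b + l / 2 + 5)) := hκ0.trans (min_le_right _ _)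
    rw [le_div_iff₀ (by positivity)] at h1 ⊢
    linarith
  refine ⟨(∑ k ∈ Finset.range n, ‖a k‖) * (Real.sqrt l + 14 * Real.exp 2 * Real.sqrt (Real.pi * (4 * κ))),
    max 2 (Real.exp ((4 + 4 * (n * h)) / l)), by positivity, le_max_left _ _, ?_⟩
  intro T hT lam hl0 hl1
  have hT2 : 2 ≤ T := (le_max_left _ _).trans hT
  have hTe : Real.exp ((4 + 4 * (n * h)) / l) ≤ T := (le_max_right _ _).trans hT
  have hlog : (4 + 4 * (n * h)) / l ≤ Real.log T := by
    rw [Real.le_log_iff_exp_le (by linarith)]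
    exact hTe
  have hlog2 : 4 + 4 * (n * h) ≤ l * Real.log T := by
    rw [div_le_iff₀ hl] at hlog
    linarith
  have hnh : 0 ≤ (n : ℝ) * h := by positivity
  set R := Real.sqrt (Real.log T * T ^ (-((2 * ρ.re - 1) * b)) *
            ∫ v in (b * Real.log T)..((b + l) * Real.log T - 1), SG.Dt lam v ^ 2) with hR
  have hT3 : 0 ≤ T ^ (-(3 : ℝ)) := by positivity
  have hR0 : 0 ≤ R := Real.sqrt_nonneg _
  set c := 14 * Real.exp 2 * Real.sqrt (Real.pi * (4 * κ)) with hc
  have hc0 : 0 ≤ c := by positivity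
  have hone : ∀ k ∈ Finset.range n, ‖a k * ∫ v : ℝ, ((Eh (v + lam / 2) - Eh (v - lam / 2) : ℝ) : ℂ) *
      hf ρ ((b + l / 2) * Real.log T) (κ * Real.log T) (v + k * h)‖ ≤
      ‖a k‖ * ((Real.sqrt l + c) * (R + T ^ (-(3 : ℝ)))) := by
    intro k hk
    rw [norm_mul]
    refine mul_le_mul_of_nonneg_left ?_ (norm_nonneg _)
    have hkn : (k : ℝ) ≤ n := by
      exact_mod_cast (Finset.mem_range.1 hk).le
    have hkh : (k : ℝ) * h ≤ n * h := mul_le_mul_of_nonneg_right hkn hh.le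
    refine (Win_one hb hl hκ hκ1 hκ2 hρ1 hρ2 (r := k * h) (by positivity) hT2 (by linarith) (by linarith)
      (by linarith) hl0 hl1).trans ?_
    have hs : 0 ≤ Real.sqrt l := Real.sqrt_nonneg _
    rw [← hR, ← hc]
    nlinarith [mul_nonneg hs hT3, mul_nonneg hc0 hR0]
  refine (norm_sum_le _ _).trans ((Finset.sum_le_sum hone).trans ?_)
  rw [← Finset.sum_mul]
  exact le_of_eq (by ring)

end Pool.Agent.Lib.MP_2a816b_nt.SW
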