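import Pool.Agent.Lib.MP_2a816b_nt.SG.DtSmall
import Pool.Agent.Lib.MP_2a816b_nt.SW.Small
import Pool.Agent.Lib.MP_2a816b_nt.SW.Kill
import Pool.Agent.Lib.MP_2a816b_nt.SW.Main
import Pool.Agent.Lib.MP_2a816b_nt.SW.Win

/-!
# LEAF Fin (medium, 200 lines): every window sees every zero off the critical line

Order: `κ = min κ₀ (1/16)` (`win`), `R` with `κ R²/4 ≥ 2(b + l/2) + 2κ + 1`, then `kill` (with this `R`), `small` for `E = Es n a h c0 ρ`, `s = ρ`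
(`Es_meas`, `Es_neg`, `Es_bdd`, `lap_Es`), `win`, `dt_small b l` for the choice of `lam ∈ [1/T, 2/T]`. With `u = (b + l/2) L`, `τ = κ L`:
`‖c0‖ (‖ρ‖ lam/2) √(2πτ) ≤ ‖main integral‖ + 8 ‖c0‖ √τ exp(-(u-1)²/(2τ))` and (`shift`) main integral = `win` sum - `small` integral.
Errors: `small` gives `C' lam √τ (T^(-(β-1/2)/2) + T^(-1))`, which is at most a quarter of the left side for `T` large;
`exp(-(u-1)²/(2τ)) ≤ T^(-3)` (`(u-1)² ≥ L²/2`, `κ ≤ 1/16`) and the `T^(-3)` of `win` are smaller than `lam √τ ≥ √τ/T`. Hence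
`√(L T^(-(2β-1) b) ∫ Dt²) ≥ c √L/T`, `∫ Dt² ≥ c² T^((2β-1) b - 2)`, and `dt_small`: `C (L²/T) ∫ RR ≥ c² T^((2β-1)b - 2)`.
-/

namespace Pool.Agent.Lib.MP_2a816b_nt.SW

open Complex Set Filter Topology MeasureTheory

/-- Exponential with the logarithm of `T` as a power of `T`. -/
private theorem Fin_exp_le {T y z : ℝ} (hT : 0 < T) (h : y ≤ z * Real.log T) : Real.exp y ≤ T ^ z := by
  rw [Real.rpow_def_of_pos hT]
  exact Real.exp_le_exp.2 (by linarith [mul_comm z (Real.log T)])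

/-- The first error exponent. -/
private theorem Fin_e1 {L δ κ b l : ℝ} (hL : 0 ≤ L) (hδ0 : 0 < δ) (hδ1 : δ ≤ 1) (_ : 0 < κ) (hκ1 : κ ≤ 1)
    (hb : 1 ≤ b) (hl : 0 < l) : -(δ * ((b + l / 2) * L)) + κ * L * δ ^ 2 / 2 ≤ -(δ / 2) * L := by
  have h1 : κ * δ ≤ 1 := by nlinarith
  have h2 : κ * L * δ ^ 2 / 2 ≤ δ * L / 2 := by
    have : κ * L * δ ^ 2 = (κ * δ) * (δ * L) := by ring
    rw [this]
    have h3 : (κ * δ) * (δ * L) ≤ 1 * (δ * L) := mul_le_mul_of_nonneg_right h1 (by positivity)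
    linarith
  have h3 : δ * L ≤ δ * ((b + l / 2) * L) := by
    have : L ≤ (b + l / 2) * L := by nlinarith
    exact mul_le_mul_of_nonneg_left this hδ0.le
  linarith

/-- The Gaussian error exponent. -/
private theorem Fin_e3 {L κ b l : ℝ} (hL : 4 ≤ L) (hκ0 : 0 < κ) (hκ1 : κ ≤ 1 / 16)
    (hb : 1 ≤ b) (hl : 0 < l) : -(((b + l / 2) * L - 1) ^ 2 / (2 * (κ * L))) ≤ -3 * L := by
  have hu : 3 / 4 * L ≤ (b + l / 2) * L - 1 := by nlinarith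
  have h1 : (3 / 4 * L) ^ 2 ≤ ((b + l / 2) * L - 1) ^ 2 := pow_le_pow_left₀ (by positivity) hu 2
  have h2 : 3 * L ≤ ((b + l / 2) * L - 1) ^ 2 / (2 * (κ * L)) := by
    rw [le_div_iff₀ (by positivity)]
    have : 3 * L * (2 * (κ * L)) ≤ (3 / 4 * L) ^ 2 := by nlinarith [sq_nonneg L]
    linarith
  linarith

/-- The pure inequality. -/
private theorem Fin_core {A B X M S W E1 E2 G P c1 c2 lam sτ I : ℝ}
    (hM : A * lam * sτ ≤ M + 8 * B * sτ * G) (hMS : M ≤ W + S)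
    (hS : S ≤ c1 * lam * sτ * (E1 + E2)) (hW : W ≤ c2 * (Real.sqrt X + P))
    (hP : P ≤ lam * sτ * I) (hG : G ≤ lam * I) (hs : 1 ≤ sτ) (hlam : 0 < lam) (hc2 : 0 ≤ c2) (hB : 0 ≤ B)
    (hsmall : c2 * I + c1 * (E1 + E2) + 8 * B * I ≤ A / 2) :
    A / 2 * lam * sτ ≤ c2 * Real.sqrt X := by
  have h1 : c2 * P ≤ c2 * (lam * sτ * I) := mul_le_mul_of_nonneg_left hP hc2
  have h2 : 8 * B * sτ * G ≤ 8 * B * sτ * (lam * I) :=
    mul_le_mul_of_nonneg_left hG (by positivity)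
  have h3 : (c2 * I + c1 * (E1 + E2) + 8 * B * I) * (lam * sτ) ≤ A / 2 * (lam * sτ) :=
    mul_le_mul_of_nonneg_right hsmall (by positivity)
  nlinarith

theorem sw_left {ρ : ℂ} (hζ : riemannZeta ρ = 0) (h1 : 1 / 2 < ρ.re) {b l ε : ℝ} (hb : 1 ≤ b) (hl : 0 < l) (hε : 0 < ε) :
    ∀ᶠ T : ℝ in atTop, T ^ ((2 * ρ.re - 1) * b - 1 - ε) ≤ ∫ α in b..(b + l), PV.RR α T := by
  have h2 : ρ.re < 1 := by
    by_contra hcon
    exact riemannZeta_ne_zero_of_one_le_re (not_lt.1 hcon) hζ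
  have hρ0 : ρ ≠ 0 := by
    rintro rfl
    norm_num at h1
  obtain ⟨κ₀, hκ₀, hwin⟩ := win b l hb hl
  obtain ⟨κ, hκ, hκκ, hκ16⟩ : ∃ κ : ℝ, 0 < κ ∧ κ ≤ κ₀ ∧ κ ≤ 1 / 16 :=
    ⟨min κ₀ (1 / 16), lt_min hκ₀ (by norm_num), min_le_left _ _, min_le_right _ _⟩
  obtain ⟨R, hR, hR2⟩ : ∃ R : ℝ, 0 < R ∧ κ * R ^ 2 / 4 = 2 * (b + l / 2) + 2 * κ + 1 := by
    have hpos : 0 < 4 * (2 * (b + l / 2) + 2 * κ + 1) / κ := by positivity
    refine ⟨Real.sqrt (4 * (2 * (b + l / 2) + 2 * κ + 1) / κ), Real.sqrt_pos.2 hpos, ?_⟩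
    rw [Real.sq_sqrt hpos.le]
    field_simp
  obtain ⟨n, a, h, c0, N, hh, hc0, hN, hNw⟩ := kill hζ h1 h2 hR
  obtain ⟨C, hC⟩ := Es_bdd n a hh c0 (ρ := ρ) h2.le
  have hNE : ∀ y : ℝ, ρ.im - R ≤ y → y ≤ ρ.im + R →
      N (2 + y * I) = ∫ v in Ioi (0 : ℝ), Es n a h c0 ρ v * cexp (-((2 + y * I) * v)) := by
    intro y hy1 hy2
    have hre : ((2 : ℂ) + y * I).re = 2 := by simp
    have him : ((2 : ℂ) + y * I).im = y := by simp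
    have hw1 : 1 < ((2 : ℂ) + y * I).re := by rw [hre]; norm_num
    rw [lap_Es n a hh c0 h2 hw1]
    refine hNw _ ⟨?_, ?_, ?_, ?_⟩ hw1
    · rw [hre]; norm_num
    · rw [hre]
    · rw [him]; exact hy1
    · rw [him]; exact hy2
  obtain ⟨C', hC'0, hsm⟩ := small (Es_meas n a h c0 ρ) (fun v hv => Es_neg n a hh c0 ρ hv) hC h1 h2 hR hN hNE
  obtain ⟨C1, T1, hC1, hT1, hw⟩ := hwin κ hκ hκκ n a h ρ hh h1 h2
  obtain ⟨C2, T2, hC2, hT2, hdt⟩ := SG.dt_small b l hb hl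
  obtain ⟨l0, hl0, hsl⟩ := sl_lower (ρ := ρ) (by linarith)
  obtain ⟨δ, hδ⟩ : ∃ δ : ℝ, δ = ρ.re - 1 / 2 := ⟨_, rfl⟩
  have hδ0 : 0 < δ := by linarith
  have hδ1 : δ ≤ 1 := by linarith
  have hB : 0 < ‖c0‖ := norm_pos_iff.2 hc0
  have hρn : 0 < ‖ρ‖ := norm_pos_iff.2 hρ0
  have hA : 0 < ‖c0‖ * ‖ρ‖ := mul_pos hB hρn
  -- the conditions on `T`
  have ev1 : ∀ᶠ T : ℝ in atTop, C1 * T ^ (-(2 : ℝ)) + C' * (T ^ (-(δ / 2)) + T ^ (-(1 : ℝ))) +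
      8 * ‖c0‖ * T ^ (-(2 : ℝ)) ≤ ‖c0‖ * ‖ρ‖ / 2 := by
    have t1 : Tendsto (fun T : ℝ => T ^ (-(2 : ℝ))) atTop (𝓝 0) := tendsto_rpow_neg_atTop (by norm_num)
    have t2 : Tendsto (fun T : ℝ => T ^ (-(δ / 2))) atTop (𝓝 0) := tendsto_rpow_neg_atTop (by linarith)
    have t3 : Tendsto (fun T : ℝ => T ^ (-(1 : ℝ))) atTop (𝓝 0) := tendsto_rpow_neg_atTop (by norm_num)
    have t4 := ((t1.const_mul C1).add ((t2.add t3).const_mul C')).add (t1.const_mul (8 * ‖c0‖))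
    have h0 : C1 * 0 + C' * (0 + 0) + 8 * ‖c0‖ * 0 < ‖c0‖ * ‖ρ‖ / 2 := by
      have : 0 < ‖c0‖ * ‖ρ‖ / 2 := by positivity
      simpa using this
    exact (t4.eventually_lt_const h0).mono (fun T hT => hT.le)
  have ev2 : ∀ᶠ T : ℝ in atTop, C1 ^ 2 * C2 * Real.log T ^ 2 ≤ (‖c0‖ * ‖ρ‖ / 2) ^ 2 * κ * T ^ ε := by
    have hq : 0 < (‖c0‖ * ‖ρ‖ / 2) ^ 2 * κ := by positivity
    have t := isLittleO_log_rpow_rpow_atTop (s := ε) 2 hε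
    have hc : 0 < (‖c0‖ * ‖ρ‖ / 2) ^ 2 * κ / (C1 ^ 2 * C2 + 1) := by positivity
    filter_upwards [t.bound hc, eventually_ge_atTop (1 : ℝ)] with T hT hT1'
    have hT0 : 0 < T := by linarith
    have hlog0 : 0 ≤ Real.log T := Real.log_nonneg hT1'
    rw [Real.norm_of_nonneg (Real.rpow_nonneg hlog0 _), Real.norm_of_nonneg (Real.rpow_nonneg hT0.le _)] at hT
    have e : Real.log T ^ (2 : ℝ) = Real.log T ^ 2 := by
      rw [← Real.rpow_natCast]; norm_num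
    rw [e] at hT
    have hX : 0 ≤ C1 ^ 2 * C2 := by positivity
    have h3 : (C1 ^ 2 * C2 + 1) * Real.log T ^ 2 ≤ (‖c0‖ * ‖ρ‖ / 2) ^ 2 * κ * T ^ ε := by
      have := mul_le_mul_of_nonneg_left hT (by positivity : 0 ≤ C1 ^ 2 * C2 + 1)
      calc (C1 ^ 2 * C2 + 1) * Real.log T ^ 2
          ≤ (C1 ^ 2 * C2 + 1) * ((‖c0‖ * ‖ρ‖ / 2) ^ 2 * κ / (C1 ^ 2 * C2 + 1) * T ^ ε) := this
        _ = _ := by field_simp
    nlinarith [sq_nonneg (Real.log T)]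
  filter_upwards [ev1, ev2, eventually_ge_atTop T1, eventually_ge_atTop T2, eventually_ge_atTop (Real.exp 4),
    eventually_ge_atTop (Real.exp (1 / κ)), eventually_ge_atTop (2 / l0)] with T hev1 hev2 hTT1 hTT2 hTe hTκ hTl
  have hT2' : 2 ≤ T := hT1.trans hTT1
  have hT0 : 0 < T := by linarith
  have hL4 : 4 ≤ Real.log T := by
    have := Real.log_le_log (Real.exp_pos _) hTe
    rwa [Real.log_exp] at this
  have hLκ : 1 ≤ κ * Real.log T := by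
    have := Real.log_le_log (Real.exp_pos _) hTκ
    rw [Real.log_exp, div_le_iff₀ hκ] at this
    linarith
  obtain ⟨lam, ⟨hlam1, hlam2⟩, hD⟩ := hdt T hTT2
  have hlam0 : 0 < lam := lt_of_lt_of_le (by positivity) hlam1
  have hlamone : lam ≤ 1 := hlam2.trans (by rw [div_le_one hT0]; exact hT2')
  have hlaml0 : lam ≤ l0 := by
    refine hlam2.trans ?_
    rw [div_le_iff₀ hT0]
    rw [div_le_iff₀ hl0] at hTl
    linarith
  obtain ⟨u, hu⟩ : ∃ u : ℝ, u = (b + l / 2) * Real.log T := ⟨_, rfl⟩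
  obtain ⟨τ, hτ⟩ : ∃ τ : ℝ, τ = κ * Real.log T := ⟨_, rfl⟩
  have hτ1 : 1 ≤ τ := by rw [hτ]; exact hLκ
  have hu1 : 1 ≤ u := by
    rw [hu]
    nlinarith
  have hsτ : 1 ≤ Real.sqrt τ := by
    rw [show (1 : ℝ) = Real.sqrt 1 by simp]
    exact Real.sqrt_le_sqrt hτ1
  have hS := hsm τ u lam hτ1 (by linarith) hlam0.le hlamone
  have hW := hw T hTT1 lam hlam0.le hlam2
  rw [← hu, ← hτ] at hW
  have hsh := shift n a hh c0 ρ (lt_of_lt_of_le one_pos hτ1) u lam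
  have hmt := main_term c0 (ρ := ρ) (by linarith) h2 hτ1 hu1 hlam0.le hlamone
  have hslT := hsl lam hlam0.le hlaml0
  -- names
  obtain ⟨Mi, hMi⟩ : ∃ Mi : ℂ, Mi = ∫ v in Ioi (0 : ℝ), c0 * cexp (ρ * v) * (hf ρ u τ (v - lam / 2) - hf ρ u τ (v + lam / 2)) :=
    ⟨_, rfl⟩
  obtain ⟨Wi, hWi⟩ : ∃ Wi : ℂ, Wi = ∑ k ∈ Finset.range n, a k * ∫ v : ℝ, ((Eh (v + lam / 2) - Eh (v - lam / 2) : ℝ) : ℂ) * hf ρ u τ (v + k * h) :=
    ⟨_, rfl⟩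
  obtain ⟨Si, hSi⟩ : ∃ Si : ℂ, Si = ∫ v : ℝ, Es n a h c0 ρ v * (hf ρ u τ (v - lam / 2) - hf ρ u τ (v + lam / 2)) :=
    ⟨_, rfl⟩
  rw [← hMi, ← hWi, ← hSi] at hsh
  rw [← hSi] at hS
  rw [← hWi] at hW
  rw [← hMi] at hmt
  obtain ⟨X, hX⟩ : ∃ X : ℝ, X = Real.log T * T ^ (-((2 * ρ.re - 1) * b)) *
            ∫ v in (b * Real.log T)..((b + l) * Real.log T - 1), SG.Dt lam v ^ 2 := ⟨_, rfl⟩
  rw [← hX] at hW
  have hMS : ‖Mi‖ ≤ ‖Wi‖ + ‖Si‖ := by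
    have : Mi = Wi - Si := by rw [hsh]; ring
    rw [this]
    exact norm_sub_le _ _
  have hM : ‖c0‖ * ‖ρ‖ * lam * Real.sqrt τ ≤ ‖Mi‖ + 8 * ‖c0‖ * Real.sqrt τ * Real.exp (-((u - 1) ^ 2 / (2 * τ))) := by
    have hn : ‖c0 * sl lam ρ * ((Real.sqrt (2 * Real.pi * τ) : ℝ) : ℂ)‖ =
        ‖c0‖ * ‖sl lam ρ‖ * Real.sqrt (2 * Real.pi * τ) := by
      rw [norm_mul, norm_mul, Complex.norm_real, Real.norm_of_nonneg (Real.sqrt_nonneg _)]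
    have hs2 : 2 * Real.sqrt τ ≤ Real.sqrt (2 * Real.pi * τ) := by
      rw [show (2 : ℝ) * Real.sqrt τ = Real.sqrt (4 * τ) by
        rw [Real.sqrt_mul (by norm_num), show (4 : ℝ) = 2 ^ 2 by norm_num, Real.sqrt_sq (by norm_num)]]
      apply Real.sqrt_le_sqrt
      nlinarith [Real.pi_gt_three]
    have h5 : ‖c0‖ * (‖ρ‖ * lam / 2) * (2 * Real.sqrt τ) ≤ ‖c0‖ * ‖sl lam ρ‖ * Real.sqrt (2 * Real.pi * τ) := by
      apply mul_le_mul _ hs2 (by positivity) (by positivity)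
      exact mul_le_mul_of_nonneg_left hslT (norm_nonneg _)
    have h6 : ‖c0 * sl lam ρ * ((Real.sqrt (2 * Real.pi * τ) : ℝ) : ℂ)‖ ≤
        ‖Mi‖ + ‖Mi - c0 * sl lam ρ * ((Real.sqrt (2 * Real.pi * τ) : ℝ) : ℂ)‖ := by
      have := norm_sub_le Mi (Mi - c0 * sl lam ρ * ((Real.sqrt (2 * Real.pi * τ) : ℝ) : ℂ))
      rwa [sub_sub_cancel] at this
    rw [hn] at h6
    calc ‖c0‖ * ‖ρ‖ * lam * Real.sqrt τ = ‖c0‖ * (‖ρ‖ * lam / 2) * (2 * Real.sqrt τ) := by ring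
      _ ≤ _ := h5
      _ ≤ _ := h6
      _ ≤ _ := by linarith
  -- the error terms
  have hE1 : Real.exp (-((ρ.re - 1 / 2) * u) + τ * (ρ.re - 1 / 2) ^ 2 / 2) ≤ T ^ (-(δ / 2)) := by
    apply Fin_exp_le hT0
    rw [← hδ, hu, hτ]
    exact Fin_e1 (by linarith) hδ0 hδ1 hκ (by linarith) hb hl
  have hE2 : Real.exp (2 * u + 2 * τ - τ * R ^ 2 / 4) ≤ T ^ (-(1 : ℝ)) := by
    apply Fin_exp_le hT0
    have e : τ * R ^ 2 / 4 = (κ * R ^ 2 / 4) * Real.log T := by rw [hτ]; ring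
    rw [e, hR2, hu, hτ]
    apply le_of_eq
    ring
  have hI : T ^ (-(3 : ℝ)) = T ^ (-(1 : ℝ)) * T ^ (-(2 : ℝ)) := by
    rw [← Real.rpow_add hT0]
    norm_num
  have hlT : T ^ (-(1 : ℝ)) ≤ lam := by
    rw [Real.rpow_neg_one]
    simpa [one_div] using hlam1
  have hT3 : T ^ (-(3 : ℝ)) ≤ lam * T ^ (-(2 : ℝ)) := by
    rw [hI]
    exact mul_le_mul_of_nonneg_right hlT (Real.rpow_nonneg hT0.le _)
  have hG : Real.exp (-((u - 1) ^ 2 / (2 * τ))) ≤ lam * T ^ (-(2 : ℝ)) := by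
    refine le_trans ?_ hT3
    apply Fin_exp_le hT0
    rw [hu, hτ]
    exact Fin_e3 hL4 hκ hκ16 hb hl
  have hP : T ^ (-(3 : ℝ)) ≤ lam * Real.sqrt τ * T ^ (-(2 : ℝ)) := by
    refine hT3.trans ?_
    have : lam * 1 ≤ lam * Real.sqrt τ := mul_le_mul_of_nonneg_left hsτ hlam0.le
    exact mul_le_mul_of_nonneg_right (by linarith) (Real.rpow_nonneg hT0.le _)
  have hS' : ‖Si‖ ≤ C' * lam * Real.sqrt τ * (T ^ (-(δ / 2)) + T ^ (-(1 : ℝ))) := by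
    refine hS.trans (mul_le_mul_of_nonneg_left (add_le_add hE1 hE2) (by positivity))
  have hcore := Fin_core hM hMS hS' hW hP hG hsτ hlam0 hC1 hB.le hev1
  -- squares
  have hTl1 : 1 / T * Real.sqrt τ ≤ lam * Real.sqrt τ := mul_le_mul_of_nonneg_right hlam1 (Real.sqrt_nonneg _)
  have hc2 : ‖c0‖ * ‖ρ‖ / 2 * (1 / T * Real.sqrt τ) ≤ C1 * Real.sqrt X := by
    refine le_trans (mul_le_mul_of_nonneg_left hTl1 (by positivity)) ?_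
    linarith [mul_assoc (‖c0‖ * ‖ρ‖ / 2) lam (Real.sqrt τ)]
  have hXnn : 0 ≤ X := by
    by_contra hneg
    have : Real.sqrt X = 0 := Real.sqrt_eq_zero_of_nonpos (not_le.1 hneg).le
    rw [this] at hc2
    have : 0 < ‖c0‖ * ‖ρ‖ / 2 * (1 / T * Real.sqrt τ) := by positivity
    linarith
  have hsq : (‖c0‖ * ‖ρ‖ / 2) ^ 2 * (1 / T ^ 2 * (κ * Real.log T)) ≤ C1 ^ 2 * X := by
    have := pow_le_pow_left₀ (by positivity) hc2 2
    rw [mul_pow _ (1 / T * Real.sqrt τ) 2, mul_pow (1 / T), mul_pow C1, Real.sq_sqrt hXnn,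
      Real.sq_sqrt (by linarith : (0 : ℝ) ≤ τ), one_div_pow, hτ] at this
    exact this
  obtain ⟨Q, hQ⟩ : ∃ Q : ℝ, Q = ∫ α in b..(b + l), PV.RR α T := ⟨_, rfl⟩
  obtain ⟨DD, hDD⟩ : ∃ DD : ℝ, DD = ∫ v in (b * Real.log T)..((b + l) * Real.log T - 1), SG.Dt lam v ^ 2 := ⟨_, rfl⟩
  rw [← hDD, ← hQ] at hD
  rw [← hDD] at hX
  rw [← hQ]
  have hLpos : 0 < Real.log T := by linarith
  -- `X = L T^(-(2β-1)b) DD ≤ L T^(-(2β-1) b) C2 L²/T Q`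
  have hX2 : X ≤ Real.log T * T ^ (-((2 * ρ.re - 1) * b)) * (C2 * (Real.log T ^ 2 / T) * Q) := by
    rw [hX]
    exact mul_le_mul_of_nonneg_left hD (mul_nonneg hLpos.le (Real.rpow_nonneg hT0.le _))
  have h7 : (‖c0‖ * ‖ρ‖ / 2) ^ 2 * (1 / T ^ 2 * (κ * Real.log T)) ≤
      C1 ^ 2 * (Real.log T * T ^ (-((2 * ρ.re - 1) * b)) * (C2 * (Real.log T ^ 2 / T) * Q)) :=
    hsq.trans (mul_le_mul_of_nonneg_left hX2 (by positivity))
  -- multiply by `T² · T^((2β-1)b) / L / T`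
  obtain ⟨e, he⟩ : ∃ e : ℝ, e = (2 * ρ.re - 1) * b := ⟨_, rfl⟩
  rw [← he] at h7 ⊢
  have hTe0 : 0 < T ^ e := Real.rpow_pos_of_pos hT0 _
  have hmul : 0 < T * T ^ e / Real.log T := by positivity
  have h8 := mul_le_mul_of_nonneg_right h7 hmul.le
  have e1 : (‖c0‖ * ‖ρ‖ / 2) ^ 2 * (1 / T ^ 2 * (κ * Real.log T)) * (T * T ^ e / Real.log T) =
      (‖c0‖ * ‖ρ‖ / 2) ^ 2 * κ * (T ^ e / T) := by
    field_simp
  have e2 : C1 ^ 2 * (Real.log T * T ^ (-e) * (C2 * (Real.log T ^ 2 / T) * Q)) * (T * T ^ e / Real.log T) =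
      C1 ^ 2 * C2 * Real.log T ^ 2 * Q := by
    rw [Real.rpow_neg hT0.le]
    field_simp
  rw [e1, e2] at h8
  have hKpos : 0 < C1 ^ 2 * C2 * Real.log T ^ 2 := by
    have hK0 : 0 ≤ C1 ^ 2 * C2 * Real.log T ^ 2 := by positivity
    rcases hK0.lt_or_eq with hlt | heq
    · exact hlt
    · exfalso
      rw [← heq, zero_mul] at h8
      have : 0 < (‖c0‖ * ‖ρ‖ / 2) ^ 2 * κ * (T ^ e / T) := by positivity
      linarith
  have e3 : T ^ (e - 1 - ε) * T ^ ε = T ^ e / T := by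
    rw [← Real.rpow_add hT0, show e - 1 - ε + ε = e - 1 by ring, Real.rpow_sub hT0, Real.rpow_one]
  have h9 : C1 ^ 2 * C2 * Real.log T ^ 2 * T ^ (e - 1 - ε) ≤ C1 ^ 2 * C2 * Real.log T ^ 2 * Q := by
    calc C1 ^ 2 * C2 * Real.log T ^ 2 * T ^ (e - 1 - ε)
        ≤ (‖c0‖ * ‖ρ‖ / 2) ^ 2 * κ * T ^ ε * T ^ (e - 1 - ε) :=
          mul_le_mul_of_nonneg_right hev2 (Real.rpow_nonneg hT0.le _)
      _ = (‖c0‖ * ‖ρ‖ / 2) ^ 2 * κ * (T ^ e / T) := by rw [← e3]; ring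
      _ ≤ _ := h8
  exact le_of_mul_le_mul_left h9 hKpos

end Pool.Agent.Lib.MP_2a816b_nt.SW
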