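import Pool.Agent.Lib.MP_2a816b_nt.SW.Defs

/-!
# LEAF GK (easy / medium, 80 lines): Laplace inversion of the Gaussian test function

`kp s u τ w * e^(-w v) = e^(-s v) exp((w - s)(u - v) + τ (w - s)²/2)`. On `w = a + i y` complete the square:
`z x + τ z²/2 = -x²/(2τ) + τ (z + x/τ)²/2` with `z = w - s`, `x = u - v`, and `∫ exp(τ (a' + i y)²/2) dy = √(2π/τ)` for every real
`a'` (Mathlib: `integral_cexp_quadratic`, or `fourierIntegral_gaussian`, `GaussianFourier`). Integrability from the same place.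
-/

namespace Pool.Agent.Lib.MP_2a816b_nt.SW

open Complex Set Filter Topology MeasureTheory

private theorem GK_eq (s : ℂ) (u v a τ : ℝ) :
    (fun y : ℝ => kp s u τ (a + y * I) * cexp (-((a + y * I) * v))) =
      fun y : ℝ => cexp (-(τ / 2 : ℂ) * (y : ℂ) ^ 2 + (I * (τ * (a - s) + (u - v))) * (y : ℂ) +
        (τ / 2 * (a - s) ^ 2 + (a - s) * u - a * v)) := by
  funext y
  unfold kp
  rw [← Complex.exp_add]
  congr 1
  linear_combination (-(1 / 2 : ℂ) * τ * (y : ℂ) ^ 2) * (-Complex.I_sq)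

theorem gk_int {τ : ℝ} (hτ : 0 < τ) (s : ℂ) (u v a : ℝ) :
    Integrable (fun y : ℝ => kp s u τ (a + y * I) * cexp (-((a + y * I) * v))) := by
  rw [GK_eq]
  refine integrable_cexp_quadratic' ?_ _ _
  have h : (-(τ / 2 : ℂ)).re = -(τ / 2) := by
    rw [show (-(τ / 2 : ℂ)) = ((-(τ / 2) : ℝ) : ℂ) by push_cast; ring, ofReal_re]
  rw [h]
  linarith

theorem gk {τ : ℝ} (hτ : 0 < τ) (s : ℂ) (u v a : ℝ) :
    ∫ y : ℝ, kp s u τ (a + y * I) * cexp (-((a + y * I) * v)) = ((Real.sqrt (2 * Real.pi / τ) : ℝ) : ℂ) * hf s u τ v := by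
  have h : (-(τ / 2 : ℂ)).re = -(τ / 2) := by
    rw [show (-(τ / 2 : ℂ)) = ((-(τ / 2) : ℝ) : ℂ) by push_cast; ring, ofReal_re]
  have hτc : (τ : ℂ) ≠ 0 := ofReal_ne_zero.2 hτ.ne'
  rw [GK_eq, integral_cexp_quadratic (by rw [h]; linarith)]
  have h1 : ((Real.pi : ℂ) / - -(τ / 2 : ℂ)) ^ (1 / 2 : ℂ) = ((Real.sqrt (2 * Real.pi / τ) : ℝ) : ℂ) := by
    rw [Real.sqrt_eq_rpow, Complex.ofReal_cpow (by positivity)]
    congr 1
    · push_cast
      field_simp
      try ring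
    · push_cast
      ring
  rw [h1]
  congr 1
  unfold hf gs
  rw [Complex.ofReal_exp, ← Complex.exp_add]
  congr 1
  push_cast
  field_simp
  linear_combination (4 * (τ * (a - s) + (u - v)) ^ 2) * (Complex.I_sq)

/-- the modulus of `kp` -/
theorem kp_norm (s : ℂ) (u τ : ℝ) (w : ℂ) : ‖kp s u τ w‖ =
    Real.exp ((w.re - s.re) * u + τ * ((w.re - s.re) ^ 2 - (w.im - s.im) ^ 2) / 2) := by
  unfold kp
  rw [Complex.norm_exp]
  congr 1
  rw [show (w - s) * u + τ * (w - s) ^ 2 / 2 = (w - s) * u + (((τ / 2 : ℝ)) : ℂ) * ((w - s) * (w - s)) by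
    push_cast; ring]
  rw [add_re, mul_re, re_ofReal_mul, mul_re, ofReal_re, ofReal_im, sub_re, sub_im]
  ring

private theorem GK_cosh (w : ℂ) : ‖Complex.cosh w‖ ≤ Real.exp |w.re| := by
  unfold Complex.cosh
  rw [norm_div]
  have h2 : ‖(2 : ℂ)‖ = 2 := by norm_num
  rw [h2, div_le_iff₀ (by norm_num)]
  refine (norm_add_le _ _).trans ?_
  rw [Complex.norm_exp, Complex.norm_exp, neg_re]
  have h3 : Real.exp w.re ≤ Real.exp |w.re| := Real.exp_le_exp.2 (le_abs_self _)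
  have h4 : Real.exp (-w.re) ≤ Real.exp |w.re| := Real.exp_le_exp.2 (neg_le_abs _)
  linarith

/-- the multiplier is small -/
theorem sl_norm {lam : ℝ} (h0 : 0 ≤ lam) (w : ℂ) : ‖sl lam w‖ ≤ ‖w‖ * lam * Real.exp (|w.re| * lam / 2) := by
  obtain ⟨z, hz⟩ : ∃ z : ℂ, z = w * (lam / 2) := ⟨_, rfl⟩
  have hz1 : z = (((lam / 2 : ℝ)) : ℂ) * w := by
    rw [hz]
    push_cast
    ring
  have hre : |z.re| = |w.re| * lam / 2 := by
    rw [hz1, re_ofReal_mul, abs_mul, abs_of_nonneg (by positivity)]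
    ring
  have hnz : ‖z‖ = ‖w‖ * lam / 2 := by
    rw [hz1, norm_mul, Complex.norm_real, Real.norm_of_nonneg (by positivity)]
    ring
  have hconv : Convex ℝ {p : ℂ | |p.re| ≤ |z.re|} := by
    have h1 : {p : ℂ | |p.re| ≤ |z.re|} = Complex.reLm ⁻¹' (Set.Icc (-|z.re|) |z.re|) := by
      ext p
      simp [abs_le]
    rw [h1]
    exact (convex_Icc _ _).linear_preimage _
  have h1 := hconv.norm_image_sub_le_of_norm_deriv_le (f := Complex.sinh) (C := Real.exp |z.re|) (x := 0) (y := z)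
    (fun p _ => Complex.differentiable_sinh p) (fun p hp => by
      rw [Complex.deriv_sinh]
      exact (GK_cosh p).trans (Real.exp_le_exp.2 hp)) (by simp) (by simp)
  rw [Complex.sinh_zero, sub_zero, sub_zero] at h1
  unfold sl
  rw [← hz, norm_mul, show ‖(2 : ℂ)‖ = 2 by norm_num, ← hre]
  rw [hnz] at h1
  calc 2 * ‖Complex.sinh z‖ ≤ 2 * (Real.exp |z.re| * (‖w‖ * lam / 2)) := by linarith
    _ = ‖w‖ * lam * Real.exp |z.re| := by ring

end Pool.Agent.Lib.MP_2a816b_nt.SW
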