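import Pool.Agent.Lib.MP_2a816b_nt.SW.Defs

/-!
# Laplace transforms of `ψ(e^v) - e^v` and of its shifts
-/

namespace Pool.Agent.Lib.MP_2a816b_nt.SW

open Complex Set Filter Topology MeasureTheory

private theorem Lap_meas (s : ℂ) : AEStronglyMeasurable
    (fun v : ℝ => (Chebyshev.psi (Real.exp v) : ℂ) * cexp (-(s * v))) (volume.restrict (Ioi 0)) := by
  have h1 : Measurable (fun v : ℝ => Chebyshev.psi (Real.exp v)) :=
    Chebyshev.psi_mono.measurable.comp Real.measurable_exp
  have h2 : Measurable (fun v : ℝ => (Chebyshev.psi (Real.exp v) : ℂ)) :=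
    Complex.measurable_ofReal.comp h1
  have h3 : Continuous (fun v : ℝ => cexp (-(s * v))) := by fun_prop
  exact (h2.mul h3.measurable).aestronglyMeasurable

private theorem Lap_int {s : ℂ} (hs : 1 < s.re) :
    IntegrableOn (fun v : ℝ => (Chebyshev.psi (Real.exp v) : ℂ) * cexp (-(s * v))) (Ioi 0) := by
  have h1 : IntegrableOn (fun v : ℝ => (Real.log 4 + 4) * Real.exp (-(s.re - 1) * v)) (Ioi 0) :=
    (exp_neg_integrableOn_Ioi 0 (by linarith)).const_mul _
  refine Integrable.mono' h1 (Lap_meas s) (Eventually.of_forall fun v => ?_)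
  have h2 : ‖cexp (-(s * v))‖ = Real.exp (-(s.re * v)) := by
    rw [Complex.norm_exp, neg_re, mul_re, ofReal_re, ofReal_im, mul_zero, sub_zero]
  rw [norm_mul, h2, Complex.norm_real, Real.norm_eq_abs, abs_of_nonneg (Chebyshev.psi_nonneg _)]
  have h3 := Chebyshev.psi_le_const_mul_self (Real.exp_pos v).le
  calc Chebyshev.psi (Real.exp v) * Real.exp (-(s.re * v))
      ≤ ((Real.log 4 + 4) * Real.exp v) * Real.exp (-(s.re * v)) :=
        mul_le_mul_of_nonneg_right h3 (Real.exp_pos _).le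
    _ = (Real.log 4 + 4) * Real.exp (-(s.re - 1) * v) := by
        rw [mul_assoc, ← Real.exp_add]
        congr 2
        ring

private theorem Lap_subst (s : ℂ) (F : ℝ → ℂ) :
    ∫ t in Ioi (1 : ℝ), F t * (t : ℂ) ^ (-(s + 1)) =
      ∫ v in Ioi (0 : ℝ), F (Real.exp v) * cexp (-(s * v)) := by
  have himg : Real.exp '' Ioi 0 = Ioi 1 := by
    ext x
    constructor
    · rintro ⟨v, hv, rfl⟩
      exact Real.one_lt_exp_iff.2 hv
    · intro hx
      have hx0 : 0 < x := lt_trans one_pos hx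
      exact ⟨Real.log x, Real.log_pos hx, Real.exp_log hx0⟩
  rw [← himg, integral_image_eq_integral_abs_deriv_smul measurableSet_Ioi
    (fun x _ => (Real.hasDerivAt_exp x).hasDerivWithinAt) (Real.exp_injective.injOn)]
  refine setIntegral_congr_fun measurableSet_Ioi fun v _ => ?_
  have h1 : ((Real.exp v : ℝ) : ℂ) ^ (-(s + 1)) = cexp (-((s + 1) * v)) := by
    rw [Complex.cpow_def_of_ne_zero (by exact_mod_cast (Real.exp_pos v).ne'),
      ← Complex.ofReal_log (Real.exp_pos v).le, Real.log_exp]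
    congr 1
    ring
  rw [h1, abs_of_pos (Real.exp_pos v), Complex.real_smul, Complex.ofReal_exp,
    show -(s * (v : ℂ)) = v + -((s + 1) * v) by ring, Complex.exp_add]
  ring

private theorem Lap_bigO : (fun n : ℕ => ∑ k ∈ Finset.Icc 1 n, ArithmeticFunction.vonMangoldt k)
    =O[atTop] fun n : ℕ => (n : ℝ) ^ (1 : ℝ) := by
  refine Asymptotics.IsBigO.of_bound (Real.log 4 + 4) (Eventually.of_forall fun n => ?_)
  have h1 : ∑ k ∈ Finset.Icc 1 n, ArithmeticFunction.vonMangoldt k = Chebyshev.psi n := by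
    rw [Chebyshev.psi, Nat.floor_natCast]
    rfl
  rw [h1, Real.rpow_one, Real.norm_eq_abs, abs_of_nonneg (Chebyshev.psi_nonneg _),
    Real.norm_eq_abs, abs_of_nonneg (Nat.cast_nonneg n)]
  exact Chebyshev.psi_le_const_mul_self (Nat.cast_nonneg n)

private theorem Lap_psi {s : ℂ} (hs : 1 < s.re) :
    ∫ v in Ioi (0 : ℝ), (Chebyshev.psi (Real.exp v) : ℂ) * cexp (-(s * v)) =
      -deriv riemannZeta s / riemannZeta s / s := by
  have hs0 : s ≠ 0 := by
    rintro rfl
    simp only [zero_re] at hs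
    linarith
  have h1 := LSeries_eq_mul_integral_of_nonneg (fun n => ArithmeticFunction.vonMangoldt n)
    zero_le_one hs Lap_bigO (fun n => ArithmeticFunction.vonMangoldt_nonneg)
  rw [ArithmeticFunction.LSeries_vonMangoldt_eq_deriv_riemannZeta_div hs] at h1
  have h2 : ∀ t : ℝ, ∑ k ∈ Finset.Icc 1 ⌊t⌋₊, ((ArithmeticFunction.vonMangoldt k : ℝ) : ℂ) =
      ((Chebyshev.psi t : ℝ) : ℂ) := by
    intro t
    rw [Chebyshev.psi, Complex.ofReal_sum]
    rfl
  simp only [h2] at h1
  rw [Lap_subst s (fun t => ((Chebyshev.psi t : ℝ) : ℂ))] at h1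
  rw [h1, mul_div_cancel_left₀ _ hs0]

private theorem Lap_exp {z w : ℂ} (h : z.re < w.re) :
    IntegrableOn (fun v : ℝ => cexp ((z - w) * v)) (Ioi 0) ∧
      ∫ v in Ioi (0 : ℝ), cexp ((z - w) * v) = 1 / (w - z) := by
  have ha : (z - w).re < 0 := by
    rw [sub_re]
    linarith
  refine ⟨integrableOn_exp_mul_complex_Ioi ha 0, ?_⟩
  rw [integral_exp_mul_complex_Ioi ha]
  simp only [ofReal_zero, mul_zero, Complex.exp_zero]
  rw [← neg_sub w z, div_neg, neg_div, neg_neg]

theorem Eh_meas : Measurable Eh := by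
  unfold Eh
  have h1 : Measurable (fun v : ℝ => Chebyshev.psi (Real.exp v)) :=
    Chebyshev.psi_mono.measurable.comp Real.measurable_exp
  exact Measurable.ite measurableSet_Ici (h1.sub Real.measurable_exp) measurable_const

theorem Eh_neg {v : ℝ} (hv : v < 0) : Eh v = 0 := by
  unfold Eh
  rw [if_neg (not_le.2 hv)]

theorem Eh_bdd (v : ℝ) : |Eh v| ≤ 7 * Real.exp v := by
  unfold Eh
  have hE := Real.exp_pos v
  split_ifs with h
  · have h1 := Chebyshev.psi_le_const_mul_self hE.le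
    have h2 := Chebyshev.psi_nonneg (Real.exp v)
    have h3 : Real.log 4 < 2 := by
      have h4 : Real.log 4 = 2 * Real.log 2 := by
        rw [show (4 : ℝ) = 2 ^ 2 by norm_num, Real.log_pow]
        norm_num
      have h5 := Real.log_two_lt_d9
      rw [h4]
      linarith
    have h6 : (Real.log 4 + 4) * Real.exp v ≤ 6 * Real.exp v :=
      mul_le_mul_of_nonneg_right (by linarith) hE.le
    rw [abs_le]
    constructor <;> linarith
  · rw [abs_zero]
    positivity

theorem lap_Eh {w : ℂ} (hw : 1 < w.re) : ∫ v in Ioi (0 : ℝ), ((Eh v : ℝ) : ℂ) * cexp (-(w * v)) = LG w := by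
  have hE := Lap_exp (z := 1) (w := w) (by simpa using hw)
  have h1 : ∀ v ∈ Ioi (0 : ℝ), ((Eh v : ℝ) : ℂ) * cexp (-(w * v)) =
      (Chebyshev.psi (Real.exp v) : ℂ) * cexp (-(w * v)) - cexp ((1 - w) * v) := by
    intro v hv
    have e2 : cexp ((1 - w) * v) = cexp v * cexp (-(w * v)) := by
      rw [← Complex.exp_add]
      congr 1
      ring
    unfold Eh
    rw [if_pos (le_of_lt hv), e2]
    push_cast
    ring
  rw [setIntegral_congr_fun measurableSet_Ioi h1, integral_sub (Lap_int hw) hE.1, Lap_psi hw, hE.2]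
  unfold LG
  rw [div_div, mul_comm (riemannZeta w) w]

theorem Es_meas (n : ℕ) (a : ℕ → ℂ) (h : ℝ) (c0 ρ : ℂ) : Measurable (Es n a h c0 ρ) := by
  unfold Es
  refine Measurable.sub (Finset.measurable_fun_sum _ fun k _ => ?_) ?_
  · have h1 : Measurable fun v : ℝ => Eh (v - k * h) := Eh_meas.comp (measurable_id.sub_const _)
    exact (Complex.measurable_ofReal.comp h1).const_mul _
  · refine Measurable.ite measurableSet_Ici ?_ measurable_const
    have h3 : Continuous (fun v : ℝ => c0 * cexp (ρ * v)) := by fun_prop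
    exact h3.measurable

theorem Es_neg (n : ℕ) (a : ℕ → ℂ) {h : ℝ} (hh : 0 < h) (c0 ρ : ℂ) {v : ℝ} (hv : v < 0) : Es n a h c0 ρ v = 0 := by
  unfold Es
  rw [if_neg (not_le.2 hv), sub_zero]
  refine Finset.sum_eq_zero fun k _ => ?_
  have h1 : 0 ≤ (k : ℝ) * h := by positivity
  rw [Eh_neg (by linarith : v - k * h < 0), Complex.ofReal_zero, mul_zero]

theorem Es_bdd (n : ℕ) (a : ℕ → ℂ) {h : ℝ} (hh : 0 < h) (c0 : ℂ) {ρ : ℂ} (hρ : ρ.re ≤ 1) :
    ∃ C : ℝ, ∀ v : ℝ, ‖Es n a h c0 ρ v‖ ≤ C * Real.exp v := by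
  refine ⟨(∑ k ∈ Finset.range n, ‖a k‖ * 7) + ‖c0‖, fun v => ?_⟩
  have hE := Real.exp_pos v
  unfold Es
  refine (norm_sub_le _ _).trans ?_
  rw [add_mul]
  refine add_le_add ?_ ?_
  · refine (norm_sum_le _ _).trans ?_
    rw [Finset.sum_mul]
    refine Finset.sum_le_sum fun k _ => ?_
    rw [norm_mul, Complex.norm_real, Real.norm_eq_abs, mul_assoc]
    refine mul_le_mul_of_nonneg_left ((Eh_bdd _).trans ?_) (norm_nonneg _)
    have h1 : 0 ≤ (k : ℝ) * h := by positivity
    have h2 : Real.exp (v - k * h) ≤ Real.exp v := Real.exp_le_exp.2 (by linarith)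
    linarith
  · split_ifs with h0
    · rw [norm_mul, Complex.norm_exp, mul_re, ofReal_re, ofReal_im, mul_zero, sub_zero]
      refine mul_le_mul_of_nonneg_left (Real.exp_le_exp.2 ?_) (norm_nonneg _)
      nlinarith
    · rw [norm_zero]
      positivity

private theorem Lap_full {F : ℝ → ℂ} (hF : ∀ v : ℝ, v < 0 → F v = 0) :
    ∫ v in Ioi (0 : ℝ), F v = ∫ v : ℝ, F v := by
  rw [← integral_Ici_eq_integral_Ioi]
  exact setIntegral_eq_integral_of_forall_compl_eq_zero fun x hx => hF x (not_le.1 hx)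

private theorem Lap_sh {k : ℕ} {h : ℝ} (hh : 0 < h) {w : ℂ} (hw : 1 < w.re) :
    IntegrableOn (fun v : ℝ => ((Eh (v - k * h) : ℝ) : ℂ) * cexp (-(w * v))) (Ioi 0) ∧
    ∫ v in Ioi (0 : ℝ), ((Eh (v - k * h) : ℝ) : ℂ) * cexp (-(w * v)) = cexp (-(k * h * w)) * LG w := by
  have hk : 0 ≤ (k : ℝ) * h := by positivity
  constructor
  · have h1 : IntegrableOn (fun v : ℝ => 7 * Real.exp (-(w.re - 1) * v)) (Ioi 0) :=
      (exp_neg_integrableOn_Ioi 0 (by linarith)).const_mul _
    have hm : Measurable (fun v : ℝ => ((Eh (v - k * h) : ℝ) : ℂ) * cexp (-(w * v))) := by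
      have h2 : Measurable fun v : ℝ => Eh (v - k * h) := Eh_meas.comp (measurable_id.sub_const _)
      have h3 : Continuous (fun v : ℝ => cexp (-(w * v))) := by fun_prop
      exact (Complex.measurable_ofReal.comp h2).mul h3.measurable
    refine Integrable.mono' h1 hm.aestronglyMeasurable (Eventually.of_forall fun v => ?_)
    have h2 : ‖cexp (-(w * v))‖ = Real.exp (-(w.re * v)) := by
      rw [Complex.norm_exp, neg_re, mul_re, ofReal_re, ofReal_im, mul_zero, sub_zero]
    rw [norm_mul, h2, Complex.norm_real, Real.norm_eq_abs]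
    have h3 : |Eh (v - k * h)| ≤ 7 * Real.exp v := by
      refine (Eh_bdd _).trans ?_
      have h4 : Real.exp (v - k * h) ≤ Real.exp v := Real.exp_le_exp.2 (by linarith)
      linarith
    calc |Eh (v - k * h)| * Real.exp (-(w.re * v))
        ≤ (7 * Real.exp v) * Real.exp (-(w.re * v)) :=
          mul_le_mul_of_nonneg_right h3 (Real.exp_pos _).le
      _ = 7 * Real.exp (-(w.re - 1) * v) := by
          rw [mul_assoc, ← Real.exp_add]
          congr 2
          ring
  · rw [Lap_full (fun v hv => by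
      rw [Eh_neg (by linarith : v - k * h < 0), Complex.ofReal_zero, zero_mul])]
    have h1 : ∀ v : ℝ, ((Eh (v - k * h) : ℝ) : ℂ) * cexp (-(w * v)) =
        (fun u : ℝ => cexp (-(k * h * w)) * (((Eh u : ℝ) : ℂ) * cexp (-(w * u)))) (v - k * h) := by
      intro v
      have e1 : cexp (-(w * v)) = cexp (-(k * h * w)) * cexp (-(w * ((v - k * h : ℝ) : ℂ))) := by
        rw [← Complex.exp_add]
        congr 1
        push_cast
        ring
      simp only
      rw [e1]
      ring
    rw [integral_congr_ae (Eventually.of_forall h1), integral_sub_right_eq_self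
      (fun u : ℝ => cexp (-(k * h * w)) * (((Eh u : ℝ) : ℂ) * cexp (-(w * u)))) ((k : ℝ) * h),
      integral_const_mul, ← Lap_full (fun v hv => by
        rw [Eh_neg hv, Complex.ofReal_zero, zero_mul]), lap_Eh hw]

theorem lap_Es (n : ℕ) (a : ℕ → ℂ) {h : ℝ} (hh : 0 < h) (c0 : ℂ) {ρ : ℂ} (hρ : ρ.re < 1) {w : ℂ} (hw : 1 < w.re) :
    ∫ v in Ioi (0 : ℝ), Es n a h c0 ρ v * cexp (-(w * v)) =
      (∑ k ∈ Finset.range n, a k * cexp (-(k * h * w))) * LG w - c0 / (w - ρ) := by
  have hE := Lap_exp (z := ρ) (w := w) (by linarith)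
  have h1 : ∀ v ∈ Ioi (0 : ℝ), Es n a h c0 ρ v * cexp (-(w * v)) =
      (∑ k ∈ Finset.range n, a k * (((Eh (v - k * h) : ℝ) : ℂ) * cexp (-(w * v)))) -
        c0 * cexp ((ρ - w) * v) := by
    intro v hv
    have e2 : cexp ((ρ - w) * v) = cexp (ρ * v) * cexp (-(w * v)) := by
      rw [← Complex.exp_add]
      congr 1
      ring
    unfold Es
    rw [if_pos (le_of_lt hv), e2, sub_mul, Finset.sum_mul]
    congr 1
    · exact Finset.sum_congr rfl fun k _ => by ring
    · ring
  have hI : ∀ k ∈ Finset.range n, IntegrableOn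
      (fun v : ℝ => a k * (((Eh (v - k * h) : ℝ) : ℂ) * cexp (-(w * v)))) (Ioi 0) :=
    fun k _ => (Lap_sh hh hw).1.const_mul _
  rw [setIntegral_congr_fun measurableSet_Ioi h1, integral_sub (integrable_finsetSum _ hI)
    (hE.1.const_mul _), integral_finsetSum _ hI, integral_const_mul, hE.2, Finset.sum_mul]
  congr 1
  · refine Finset.sum_congr rfl fun k _ => ?_
    rw [integral_const_mul, (Lap_sh hh hw).2]
    ring
  · ring

end Pool.Agent.Lib.MP_2a816b_nt.SW
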