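import Pool.Agent.Lib.MP_2a816b_nt.SW.GK

/-!
# LEAF Line (medium, 120 lines): the smoothed integral on the line `Re w = 2`

By `gk` (with `a = 2`): `hf s u τ v' = √(τ/(2π)) ∫ kp(w) e^(-w v') dy`. So
`hf (v - lam/2) - hf (v + lam/2) = √(τ/(2π)) ∫ kp(w) e^(-w v) (e^(w lam/2) - e^(-w lam/2)) dy` and the bracket is `sl lam w`.
Then Fubini: `‖E v‖ e^(-2v) ≤ C e^(-v)` on `v ≥ 0`, `E = 0` for `v < 0`; `‖kp(2 + iy)‖` is a Gaussian in `y` (`kp_norm`), `‖sl lam (2 + i y)‖ ≤ 2 cosh(lam)` (`sinh` is bounded on vertical lines).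
-/

namespace Pool.Agent.Lib.MP_2a816b_nt.SW

open Complex Set Filter Topology MeasureTheory

theorem line {E : ℝ → ℂ} (hm : Measurable E) (h0 : ∀ v : ℝ, v < 0 → E v = 0) {C : ℝ} (hb : ∀ v : ℝ, ‖E v‖ ≤ C * Real.exp v)
    {τ : ℝ} (hτ : 0 < τ) (s : ℂ) (u : ℝ) {lam : ℝ} (hlam : 0 ≤ lam) :
    ∫ v : ℝ, E v * (hf s u τ (v - lam / 2) - hf s u τ (v + lam / 2)) =
      ((Real.sqrt (τ / (2 * Real.pi)) : ℝ) : ℂ) * ∫ y : ℝ, (∫ v in Ioi (0 : ℝ), E v * cexp (-((2 + y * I) * v))) *
        sl lam (2 + y * I) * kp s u τ (2 + y * I) := by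
  have hpi : 0 < 2 * Real.pi := by positivity
  set c : ℂ := ((Real.sqrt (τ / (2 * Real.pi)) : ℝ) : ℂ) with hc
  have hcc : c * ((Real.sqrt (2 * Real.pi / τ) : ℝ) : ℂ) = 1 := by
    rw [hc, ← ofReal_mul, ← Real.sqrt_mul (by positivity)]
    rw [show τ / (2 * Real.pi) * (2 * Real.pi / τ) = 1 by field_simp, Real.sqrt_one, ofReal_one]
  -- the transform
  have hgk : ∀ v : ℝ, hf s u τ v =
      c * ∫ y : ℝ, kp s u τ (2 + y * I) * cexp (-((2 + y * I) * v)) := by
    intro v
    have h1 := gk hτ s u v 2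
    simp only [ofReal_ofNat] at h1
    rw [h1, ← mul_assoc, hcc, one_mul]
  have hgi : ∀ v : ℝ, Integrable
      (fun y : ℝ => kp s u τ (2 + y * I) * cexp (-((2 + y * I) * v))) := by
    intro v
    have h1 := gk_int hτ s u v 2
    simpa only [ofReal_ofNat] using h1
  set K : ℝ → ℂ := fun y => sl lam (2 + y * I) * kp s u τ (2 + y * I) with hK
  have hsl : ∀ (w : ℂ) (v : ℝ), cexp (-(w * ((v - lam / 2 : ℝ) : ℂ))) -
      cexp (-(w * ((v + lam / 2 : ℝ) : ℂ))) = cexp (-(w * v)) * sl lam w := by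
    intro w v
    have e1 : -(w * ((v - lam / 2 : ℝ) : ℂ)) = -(w * v) + w * (lam / 2) := by
      push_cast
      ring
    have e2 : -(w * ((v + lam / 2 : ℝ) : ℂ)) = -(w * v) + -(w * (lam / 2)) := by
      push_cast
      ring
    rw [e1, e2, Complex.exp_add, Complex.exp_add, sl, Complex.sinh]
    ring
  have hKi : Integrable K := by
    have h1 := (hgi (0 - lam / 2)).sub (hgi (0 + lam / 2))
    refine h1.congr (Filter.Eventually.of_forall fun y => ?_)
    have h2 := hsl (2 + y * I) 0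
    rw [ofReal_zero, mul_zero, neg_zero, Complex.exp_zero, one_mul] at h2
    show kp s u τ (2 + y * I) * cexp (-((2 + y * I) * ((0 - lam / 2 : ℝ) : ℂ))) -
      kp s u τ (2 + y * I) * cexp (-((2 + y * I) * ((0 + lam / 2 : ℝ) : ℂ))) = K y
    rw [← mul_sub, h2, hK, mul_comm]
  have hKc : Continuous K := by
    rw [hK]
    unfold sl kp
    fun_prop
  have hC : 0 ≤ C := by
    have h1 := (norm_nonneg _).trans (hb 0)
    rwa [Real.exp_zero, mul_one] at h1
  -- the weight
  have hEi : Integrable (fun v : ℝ => ‖E v‖ * Real.exp (-(2 * v))) := by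
    have h1 : IntegrableOn (fun v : ℝ => C * Real.exp (-v)) (Ioi 0) :=
      (integrableOn_exp_neg_Ioi 0).const_mul C
    have h2 : IntegrableOn (fun v : ℝ => ‖E v‖ * Real.exp (-(2 * v))) (Ioi 0) := by
      refine Integrable.mono' h1 ?_ (Filter.Eventually.of_forall fun v => ?_)
      · exact ((hm.norm.mul (by fun_prop : Measurable fun v : ℝ => Real.exp (-(2 * v))))
          ).aestronglyMeasurable
      · rw [Real.norm_of_nonneg (by positivity)]
        calc ‖E v‖ * Real.exp (-(2 * v)) ≤ C * Real.exp v * Real.exp (-(2 * v)) := by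
              have := hb v
              gcongr
          _ = C * Real.exp (-v) := by
              rw [mul_assoc, ← Real.exp_add]
              congr 2
              ring
    have h3 : IntegrableOn (fun v : ℝ => ‖E v‖ * Real.exp (-(2 * v))) (Ici 0) :=
      (integrableOn_Ici_iff_integrableOn_Ioi (by finiteness)).2 h2
    refine (integrableOn_iff_integrable_of_support_subset ?_).1 h3
    intro v hv
    rw [Function.mem_support] at hv
    rw [mem_Ici]
    by_contra hlt
    apply hv
    rw [h0 v (not_le.1 hlt), norm_zero, zero_mul]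
  have hnorm : ∀ (v y : ℝ), ‖cexp (-((2 + y * I) * v))‖ = Real.exp (-(2 * v)) := by
    intro v y
    rw [Complex.norm_exp]
    congr 1
    simp
  have hF : Integrable (Function.uncurry fun (v y : ℝ) =>
      E v * cexp (-((2 + y * I) * v)) * K y) (volume.prod volume) := by
    refine Integrable.mono' (hEi.mul_prod hKi.norm) ?_ (Filter.Eventually.of_forall fun z => ?_)
    · have m1 : Measurable fun z : ℝ × ℝ => E z.1 := hm.comp measurable_fst
      have m2 : Measurable fun z : ℝ × ℝ => cexp (-((2 + z.2 * I) * z.1)) :=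
        Continuous.measurable (by fun_prop)
      have m3 : Measurable fun z : ℝ × ℝ => K z.2 := hKc.measurable.comp measurable_snd
      exact ((m1.mul m2).mul m3).aestronglyMeasurable
    · rw [Function.uncurry, norm_mul, norm_mul, hnorm]
  have hL : ∀ v : ℝ, E v * (hf s u τ (v - lam / 2) - hf s u τ (v + lam / 2)) =
      c * ∫ y : ℝ, E v * cexp (-((2 + y * I) * v)) * K y := by
    intro v
    rw [hgk, hgk, ← mul_sub, ← integral_sub (hgi _) (hgi _), mul_left_comm,
      ← MeasureTheory.integral_const_mul]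
    congr 1
    refine integral_congr_ae (Filter.Eventually.of_forall fun y => ?_)
    show E v * (kp s u τ (2 + y * I) * cexp (-((2 + y * I) * ((v - lam / 2 : ℝ) : ℂ))) -
      kp s u τ (2 + y * I) * cexp (-((2 + y * I) * ((v + lam / 2 : ℝ) : ℂ)))) = _
    rw [← mul_sub, hsl]
    show _ = E v * cexp (-((2 + y * I) * v)) * (sl lam (2 + y * I) * kp s u τ (2 + y * I))
    ring
  have hR : ∀ y : ℝ, (∫ v in Ioi (0 : ℝ), E v * cexp (-((2 + y * I) * v))) *
        sl lam (2 + y * I) * kp s u τ (2 + y * I) =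
      ∫ v : ℝ, E v * cexp (-((2 + y * I) * v)) * K y := by
    intro y
    rw [MeasureTheory.integral_mul_const, ← integral_Ici_eq_integral_Ioi,
      setIntegral_eq_integral_of_forall_compl_eq_zero (fun v hv => ?_), mul_assoc]
    rw [mem_Ici, not_le] at hv
    rw [h0 v hv, zero_mul]
  calc ∫ v : ℝ, E v * (hf s u τ (v - lam / 2) - hf s u τ (v + lam / 2))
      = ∫ v : ℝ, c * ∫ y : ℝ, E v * cexp (-((2 + y * I) * v)) * K y :=
        integral_congr_ae (Filter.Eventually.of_forall hL)
    _ = c * ∫ v : ℝ, ∫ y : ℝ, E v * cexp (-((2 + y * I) * v)) * K y :=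
        MeasureTheory.integral_const_mul _ _
    _ = c * ∫ y : ℝ, ∫ v : ℝ, E v * cexp (-((2 + y * I) * v)) * K y := by
        rw [integral_integral_swap hF]
    _ = _ := by
        congr 1
        exact integral_congr_ae (Filter.Eventually.of_forall fun y => (hR y).symm)

end Pool.Agent.Lib.MP_2a816b_nt.SW
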