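import Pool.Agent.Lib.MP_2a816b_nt.PV.LBn
import Pool.Agent.Lib.MP_2a816b_nt.LM.Fin

/-!
# LEAF RHw (medium / hard, 200 lines): from windows of `FF` to windows of `RR`, uniformly in the position (RH)

Let `l > 1`, `δ = (l - l')/4`. `S_lower` (with `ξ`, `κ` small, `B = A + l`), then `LBn_Mq` (`w1`, `w2` from `LBn_J`), then `AC_QS`, then
`QS t c d = (t/2π) (log t)² ∫_{c/log t}^{d/log t} FF` (see how `LB_mean` in PV/LBn.lean or FFQS does it); with `t = w ξ T`, `log t = log T + O(1)`, the window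
`[(b L + 1 + 1/8)/log t, ((b + l - δ) L - 2 - 1/8)/log t]` contains a window of length `l'` for `T` large, uniformly in `1 ≤ b ≤ A`. Hence
`∫_b^(b+l) RR ≥ (1 - κ) (ξ/π) (∫_{w1}^{w2} qq w * w) c - 2κ`, with `∫ qq w * w ≥ π - κ`.
-/

open Complex Set Filter Topology MeasureTheory

namespace Pool.Agent.Lib.MP_2a816b_nt.SW

open Pool.Agent.Lib.MP_00e05b_nt Pool.Agent.Lib.MP_00e05b_nt.Mont Pool.Agent.Lib.MP_2a816b_nt.PV

/-- the pointwise bound -/
theorem RHw_point {W : ℝ → ℝ} {l l' c δ m C1 C2 L t b η : ℝ} (ht : 2 ≤ t)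
    (hII : 0 ≤ II W) (hC1 : 0 ≤ C1) (hm : 0 ≤ m) (hL : 0 < L) (hl0 : 0 < l)
    (hδ : 0 < δ) (hC2 : 0 ≤ C2)
    (hAC : ∀ c1 c2 : ℝ, c1 ≤ c2 →
      2 * Real.pi * II W * QS t (c1 + 1 / 8) (c2 - 1 / 8) - C1 * (c2 - c1) * Real.log t ^ 3 ≤ AC W c1 c2 t)
    (hms : ∀ x y : ℝ, x ≤ y → ∫ α in x..y, FF α t ≤ C2 * (y - x + 1))
    (hF : ∀ a : ℝ, 1 ≤ a → c ≤ ∫ α in a..(a + l'), FF α t)
    (hb : 1 ≤ b) (hl' : 0 < l') (hLl : L ≤ 2 * Real.log t) (hx1 : Real.log t ≤ L + m)
    (hz1 : l' * Real.log t + 13 / 4 + 2 * m ≤ (l - δ) * L)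
    (hη : 2 * Real.exp (-(2 * m)) * (C2 * (2 * l + 1)) ≤ η) :
    II W * (t * Real.log t ^ 2) * (c - η) - C1 * (l * L) * Real.log t ^ 3 ≤
      AC W (b * L + 1) ((b + l - δ) * L - 2) t := by
  have ht1 : 1 < t := by linarith
  have hl : 0 < Real.log t := Real.log_pos ht1
  set ℓ := Real.log t with hl_def
  have hdL : 0 ≤ δ * L := by positivity
  have hlp : 0 < l' * ℓ := by positivity
  have hbL : L ≤ b * L := by nlinarith
  have hc12 : b * L + 1 ≤ (b + l - δ) * L - 2 := by linarith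
  have h1 := hAC (b * L + 1) ((b + l - δ) * L - 2) hc12
  set x := (b * L + 9 / 8 + m) / ℓ with hx_def
  set z := ((b + l - δ) * L - 17 / 8 - m) / ℓ with hz_def
  have hxl : x * ℓ = b * L + 9 / 8 + m := by
    rw [hx_def]; field_simp
  have hzl : z * ℓ = (b + l - δ) * L - 17 / 8 - m := by
    rw [hz_def]; field_simp
  have hx : 1 ≤ x := by
    rw [hx_def, le_div_iff₀ hl]
    linarith
  have hxz' : x + l' ≤ z := by
    have h2 : (x + l') * ℓ ≤ z * ℓ := by
      rw [hzl, add_mul, hxl]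
      linarith
    exact le_of_mul_le_mul_right h2 hl
  have hxz : x ≤ z := by linarith
  have h2 := QS_ge ht1 hxz hm
  rw [← hl_def, hxl, hzl] at h2
  have e1 : b * L + 9 / 8 + m - m = b * L + 1 + 1 / 8 := by ring
  have e2 : (b + l - δ) * L - 17 / 8 - m + m = (b + l - δ) * L - 2 - 1 / 8 := by ring
  rw [e1, e2] at h2
  have hzx : z - x + 1 ≤ 2 * l + 1 := by
    have : z - x ≤ 2 * l := by
      have h3 : (z - x) * ℓ ≤ 2 * l * ℓ := by
        rw [sub_mul, hxl, hzl]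
        have h4 : l * L ≤ l * (2 * ℓ) := mul_le_mul_of_nonneg_left hLl hl0.le
        linarith
      exact le_of_mul_le_mul_right h3 hl
    linarith
  have h3 : ∫ α in (x + m / ℓ)..(z + m / ℓ), FF α t ≤ C2 * (2 * l + 1) := by
    refine (hms _ _ (by linarith)).trans ?_
    apply mul_le_mul_of_nonneg_left _ hC2
    linarith
  have h4 : ∫ α in (x - m / ℓ)..(z - m / ℓ), FF α t ≤ C2 * (2 * l + 1) := by
    refine (hms _ _ (by linarith)).trans ?_
    apply mul_le_mul_of_nonneg_left _ hC2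
    linarith
  have hcF := FF_continuous (show 0 < t by linarith)
  have h5 : c ≤ ∫ α in x..z, FF α t := by
    refine (hF x hx).trans ?_
    apply intervalIntegral.integral_mono_interval le_rfl (by linarith) hxz' _ (hcF.intervalIntegrable _ _)
    exact Eventually.of_forall fun u => FF_nonneg ht1 u
  have hN : 2 * Real.pi * N0 t = t * ℓ := by
    unfold N0
    rw [← hl_def]
    field_simp
  have hNp := N0_pos ht1
  have hNl : 0 < N0 t * ℓ := by positivity
  have h6 : N0 t * ℓ * (c - η) ≤ QS t (b * L + 1 + 1 / 8) ((b + l - δ) * L - 2 - 1 / 8) := by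
    have h7 : N0 t * ℓ * (c - η) ≤
        N0 t * ℓ * ((∫ α in x..z, FF α t) - 2 * Real.exp (-(2 * m)) * (C2 * (2 * l + 1))) := by
      apply mul_le_mul_of_nonneg_left _ hNl.le
      linarith
    have h8 : Real.exp (-(2 * m)) * (N0 t * ℓ) *
        ((∫ α in (x + m / ℓ)..(z + m / ℓ), FF α t) + ∫ α in (x - m / ℓ)..(z - m / ℓ), FF α t) ≤
        Real.exp (-(2 * m)) * (N0 t * ℓ) * (C2 * (2 * l + 1) + C2 * (2 * l + 1)) := by
      apply mul_le_mul_of_nonneg_left (add_le_add h3 h4)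
      positivity
    have h12 : N0 t * ℓ * ((∫ α in x..z, FF α t) - 2 * Real.exp (-(2 * m)) * (C2 * (2 * l + 1))) =
        N0 t * ℓ * (∫ α in x..z, FF α t) -
          Real.exp (-(2 * m)) * (N0 t * ℓ) * (C2 * (2 * l + 1) + C2 * (2 * l + 1)) := by ring
    linarith
  have h9 : II W * (t * ℓ ^ 2) * (c - η) = 2 * Real.pi * II W * (N0 t * ℓ * (c - η)) := by
    have : t * ℓ ^ 2 = 2 * Real.pi * N0 t * ℓ := by rw [hN]; ring
    rw [this]; ring
  have h10 : 2 * Real.pi * II W * (N0 t * ℓ * (c - η)) ≤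
      2 * Real.pi * II W * QS t (b * L + 1 + 1 / 8) ((b + l - δ) * L - 2 - 1 / 8) := by
    apply mul_le_mul_of_nonneg_left h6
    positivity
  have h11 : C1 * ((b + l - δ) * L - 2 - (b * L + 1)) * ℓ ^ 3 ≤ C1 * (l * L) * ℓ ^ 3 := by
    apply mul_le_mul_of_nonneg_right _ (by positivity)
    apply mul_le_mul_of_nonneg_left _ hC1
    linarith
  rw [h9]
  linarith

/-- replacing `log t` by `log T` -/
theorem RHw_log {T L l C1 I w0 w κ c K Lg : ℝ} (hI : 0 < I) (hC1 : 0 ≤ C1) (hT : 0 < T) (hw0 : 0 < w0)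
    (hw : w0 ≤ w) (hκ : 0 < κ) (hκ1 : κ < 1 / 12) (hc : 0 < c) (hl : 0 < l) (hL : 0 < L)
    (hlg : Lg = Real.log w + L) (hK : |Real.log w| ≤ K) (hLK : 2 * K ≤ κ * L)
    (hL4 : L ^ 2 * (8 * C1 * l + 1) ≤ w0 * κ * c * I * T) :
    I * (w * T * L ^ 2) * (c * (1 - 3 * κ)) ≤
      I * (w * T * Lg ^ 2) * (c - κ * c) - C1 * (l * L) * Lg ^ 3 := by
  have hK' := abs_le.1 hK
  have hw' : 0 < w := lt_of_lt_of_le hw0 hw
  have h1 : (1 - κ / 2) * L ≤ Lg := by
    rw [hlg]; linarith [hK'.1]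
  have hκL : κ * L ≤ L := by nlinarith
  have h2 : Lg ≤ 2 * L := by
    rw [hlg]
    linarith [hK'.2]
  have h0 : 0 ≤ (1 - κ / 2) * L := mul_nonneg (by linarith) hL.le
  have hLg : 0 ≤ Lg := h0.trans h1
  have h3 : (1 - κ) * L ^ 2 ≤ Lg ^ 2 := by
    have h4 := pow_le_pow_left₀ h0 h1 2
    have h5 : (1 - κ) * L ^ 2 ≤ ((1 - κ / 2) * L) ^ 2 := by
      have : 0 ≤ κ ^ 2 * L ^ 2 := by positivity
      nlinarith
    linarith
  have h4 : Lg ^ 3 ≤ 8 * L ^ 3 := by
    calc Lg ^ 3 ≤ (2 * L) ^ 3 := pow_le_pow_left₀ hLg h2 3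
      _ = 8 * L ^ 3 := by ring
  have h5 : C1 * (l * L) * Lg ^ 3 ≤ I * (w * T * L ^ 2) * (κ * c) := by
    calc C1 * (l * L) * Lg ^ 3 ≤ C1 * (l * L) * (8 * L ^ 3) := by
          apply mul_le_mul_of_nonneg_left h4
          positivity
      _ = (L ^ 2 * (8 * C1 * l)) * L ^ 2 := by ring
      _ ≤ (L ^ 2 * (8 * C1 * l + 1)) * L ^ 2 := by
          apply mul_le_mul_of_nonneg_right _ (by positivity)
          apply mul_le_mul_of_nonneg_left (by linarith) (by positivity)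
      _ ≤ (w0 * κ * c * I * T) * L ^ 2 := mul_le_mul_of_nonneg_right hL4 (by positivity)
      _ ≤ (w * κ * c * I * T) * L ^ 2 := by
          apply mul_le_mul_of_nonneg_right _ (by positivity)
          have h6 : w0 * (κ * c * I * T) ≤ w * (κ * c * I * T) :=
            mul_le_mul_of_nonneg_right hw (by positivity)
          linarith
      _ = I * (w * T * L ^ 2) * (κ * c) := by ring
  have h6 : I * (w * T * ((1 - κ) * L ^ 2)) * (c - κ * c) ≤ I * (w * T * Lg ^ 2) * (c - κ * c) := by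
    apply mul_le_mul_of_nonneg_right _ (by nlinarith)
    apply mul_le_mul_of_nonneg_left _ hI.le
    exact mul_le_mul_of_nonneg_left h3 (by positivity)
  have h7 : I * (w * T * L ^ 2) * (c * (1 - 3 * κ)) ≤
      I * (w * T * ((1 - κ) * L ^ 2)) * (c - κ * c) - I * (w * T * L ^ 2) * (κ * c) := by
    have e : I * (w * T * ((1 - κ) * L ^ 2)) * (c - κ * c) - I * (w * T * L ^ 2) * (κ * c) =
        I * (w * T * L ^ 2) * (c * (1 - 3 * κ + κ ^ 2)) := by ring
    rw [e]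
    apply mul_le_mul_of_nonneg_left _ (by positivity)
    apply mul_le_mul_of_nonneg_left _ hc.le
    nlinarith
  linarith

theorem RHw_fin {κ c J : ℝ} (hκ : 0 < κ) (hκ1 : κ < 1 / 12) (hc : 0 < c) (hκc : 6 * κ * c + κ = c / 2)
    (hJ : Real.pi - Real.pi * κ ≤ J) :
    c / 2 ≤ (1 - κ) * ((1 - κ) * (c * (1 - 3 * κ)) * (Real.pi⁻¹ * J)) - κ := by
  have hpi := Real.pi_pos
  have h1 : 1 - κ ≤ Real.pi⁻¹ * J := by
    rw [le_inv_mul_iff₀ hpi]; linarith
  have h2 : 0 ≤ (1 - κ) * (c * (1 - 3 * κ)) := by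
    apply mul_nonneg (by linarith)
    apply mul_nonneg hc.le (by linarith)
  have h3 : (1 - κ) * ((1 - κ) * (c * (1 - 3 * κ)) * (1 - κ)) ≤
      (1 - κ) * ((1 - κ) * (c * (1 - 3 * κ)) * (Real.pi⁻¹ * J)) := by
    apply mul_le_mul_of_nonneg_left _ (by linarith)
    exact mul_le_mul_of_nonneg_left h1 h2
  have h4 : c * (1 - 6 * κ) ≤ (1 - κ) * ((1 - κ) * (c * (1 - 3 * κ)) * (1 - κ)) := by
    have e : (1 - κ) * ((1 - κ) * (c * (1 - 3 * κ)) * (1 - κ)) = c * ((1 - κ) ^ 3 * (1 - 3 * κ)) := by ring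
    rw [e]
    apply mul_le_mul_of_nonneg_left _ hc.le
    have h5 : 1 - 3 * κ ≤ (1 - κ) ^ 3 := by
      have : (1 - κ) ^ 3 = 1 - 3 * κ + κ ^ 2 * (3 - κ) := by ring
      have h6 : 0 ≤ κ ^ 2 * (3 - κ) := mul_nonneg (by positivity) (by linarith)
      linarith
    have h7 : (1 - 3 * κ) * (1 - 3 * κ) ≤ (1 - κ) ^ 3 * (1 - 3 * κ) :=
      mul_le_mul_of_nonneg_right h5 (by linarith)
    nlinarith
  linarith

theorem rr_of_ff (hRH : RiemannHypothesis) {l l' c : ℝ} (hl' : 0 < l') (hll : l' < l) (hc : 0 < c)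
    (hF : ∃ t₀ : ℝ, ∀ t : ℝ, t₀ ≤ t → ∀ a : ℝ, 1 ≤ a → c ≤ ∫ α in a..(a + l'), FF α t) (A : ℝ) :
    ∃ T₀ : ℝ, ∀ T b : ℝ, T₀ ≤ T → 1 ≤ b → b ≤ A → c / 2 ≤ ∫ α in b..(b + l), RR α T := by
  obtain ⟨t₀, ht₀⟩ := hF
  obtain ⟨W, hW⟩ := exists_EB (1 / 8) (by norm_num)
  have hII : 0 < II W := II_pos hW (by norm_num)
  have hl : 0 < l := hl'.trans hll
  have hpi := Real.pi_pos
  -- parameters
  obtain ⟨κ, hκ, hκ1, hκc⟩ : ∃ κ : ℝ, 0 < κ ∧ κ < 1 / 12 ∧ 6 * κ * c + κ = c / 2 := by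
    refine ⟨c / (2 * (6 * c + 1)), by positivity, ?_, ?_⟩
    · rw [div_lt_iff₀ (by positivity)]
      linarith
    · field_simp
  obtain ⟨δ, hδ, hδ1, hδl⟩ : ∃ δ : ℝ, 0 < δ ∧ δ < 1 ∧ δ ≤ (l - l') / 4 :=
    ⟨min (1 / 2) ((l - l') / 4), lt_min (by norm_num) (by linarith),
      (min_le_left _ _).trans_lt (by norm_num), min_le_right _ _⟩
  obtain ⟨w1, w2, hw1, hw12, hJ⟩ := LBn_J (show 0 < Real.pi * κ by positivity)
  set J : ℝ := ∫ w in w1..w2, qq w * w with hJ_def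
  obtain ⟨C1, hC1, hAC⟩ := AC_QS hRH hW
  obtain ⟨C2, hC2, hms⟩ := mass_bd hRH
  obtain ⟨m, hm0, hmw, hm⟩ : ∃ m : ℝ, 0 ≤ m ∧ |Real.log w2| ≤ m ∧
      2 * Real.exp (-(2 * m)) * (C2 * (2 * l + 1)) ≤ κ * c := by
    have h1 : Tendsto (fun m : ℝ => 2 * Real.exp (-(2 * m)) * (C2 * (2 * l + 1))) atTop (𝓝 0) := by
      have h2 : Tendsto (fun m : ℝ => Real.exp (-(2 * m))) atTop (𝓝 0) :=
        Real.tendsto_exp_neg_atTop_nhds_zero.comp (tendsto_id.const_mul_atTop (by norm_num : (0 : ℝ) < 2))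
      have h3 := (h2.const_mul 2).mul_const (C2 * (2 * l + 1))
      simpa using h3
    obtain ⟨m, hm⟩ := (((h1.eventually_le_const (show 0 < κ * c by positivity)).and
      (eventually_ge_atTop (0 : ℝ))).and (eventually_ge_atTop |Real.log w2|)).exists
    exact ⟨m, hm.1.2, hm.2, hm.1.1⟩
  have hξ : 0 < 1 - κ := by linarith
  have hw0 : 0 < w1 * (1 - κ) := by positivity
  set w0 : ℝ := w1 * (1 - κ) with hw0_def
  set K : ℝ := |Real.log w0| + |Real.log w2| with hK_def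
  have hK : 0 ≤ K := by positivity
  have hev := LBF_ev (((eventually_ge_atTop t₀).and hms).and (eventually_ge_atTop (2 : ℝ))) hw0
  have hS := S_lower hRH hW (ξ := 1 - κ) (δ := δ) (κ := κ) (B := A + l) hξ (by linarith) hδ hδ1 hκ (by linarith)
  have hlog := Real.tendsto_log_atTop
  have hlsq : Tendsto (fun T : ℝ => Real.log T ^ 2 / T) atTop (𝓝 0) := by
    have := Real.isLittleO_pow_log_id_atTop (n := 2)
    exact this.tendsto_div_nhds_zero
  have hsm : 0 < w0 * κ * c * II W / (8 * C1 * l + 1) := by positivity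
  have hmain : ∀ᶠ T : ℝ in atTop, ∀ b : ℝ, 1 ≤ b → b ≤ A → c / 2 ≤ ∫ α in b..(b + l), RR α T := by
    filter_upwards [hS, hev, hlog.eventually_gt_atTop 0, hlog.eventually_ge_atTop (2 * K / κ),
      hlog.eventually_ge_atTop ((l' * K + 13 / 4 + 2 * m) / (l - δ - l')), hlsq.eventually_le_const hsm,
      eventually_gt_atTop (0 : ℝ)] with T hS1 hT1 hL hLK hL2 hL4 hT0 b hb hbA
    set L := Real.log T with hL_def
    rw [div_le_iff₀ hκ] at hLK
    rw [div_le_iff₀ (by linarith)] at hL2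
    rw [div_le_div_iff₀ hT0 (by positivity)] at hL4
    have hS2 := hS1 b (b + l) hb (by linarith) (by linarith)
    -- the window
    have hbL : L ≤ b * L := by nlinarith
    have hpt : ∀ w ∈ Icc w1 w2, II W * (w * ((1 - κ) * T) * L ^ 2) * (c * (1 - 3 * κ)) ≤
        AC W (b * L + 1) ((b + l - δ) * L - 2) (w * ((1 - κ) * T)) := by
      intro w hw
      have hw' : w0 ≤ w * (1 - κ) := mul_le_mul_of_nonneg_right hw.1 hξ.le
      have hwp : 0 < w := lt_of_lt_of_le hw1 hw.1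
      have hwp' : 0 < w * (1 - κ) := by positivity
      obtain ⟨⟨hT2, hT3⟩, hT4⟩ := hT1 _ hw'
      have et : w * ((1 - κ) * T) = w * (1 - κ) * T := by ring
      rw [et]
      set t := w * (1 - κ) * T with ht_def
      have hlt : Real.log t = Real.log (w * (1 - κ)) + L := by
        rw [ht_def, Real.log_mul hwp'.ne' hT0.ne']
      have h1 : Real.log w0 ≤ Real.log (w * (1 - κ)) := Real.log_le_log hw0 hw'
      have h2 : Real.log (w * (1 - κ)) ≤ Real.log w2 := by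
        apply Real.log_le_log hwp'
        have h3 : w * (1 - κ) ≤ w := by nlinarith
        linarith [hw.2]
      have hlK : |Real.log (w * (1 - κ))| ≤ K := by
        rw [abs_le]
        constructor
        · have := neg_abs_le (Real.log w0)
          have := abs_nonneg (Real.log w2)
          linarith
        · have := le_abs_self (Real.log w2)
          have := abs_nonneg (Real.log w0)
          linarith
      have hlK' := abs_le.1 hlK
      have hκL : κ * L ≤ L := by nlinarith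
      have h4 := RHw_point (W := W) (l := l) (l' := l') (c := c) (δ := δ) (m := m) (C1 := C1) (C2 := C2)
        (L := L) (t := t) (b := b) (η := κ * c) hT4 hII.le hC1 hm0 hL hl hδ hC2
        (fun c1 c2 hc => (hAC t hT4 c1 c2 hc).1) hT3 (fun a ha => ht₀ t hT2 a ha) hb hl'
        (by rw [hlt]; linarith) (by rw [hlt]; linarith [le_abs_self (Real.log w2)])
        (by
          rw [hlt]
          have h5 : l' * Real.log (w * (1 - κ)) ≤ l' * K := mul_le_mul_of_nonneg_left hlK'.2 hl'.le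
          have h6 : l' * (Real.log (w * (1 - κ)) + L) = l' * Real.log (w * (1 - κ)) + l' * L := by ring
          rw [h6]
          linarith) hm
      refine le_trans ?_ h4
      exact RHw_log hII hC1 hT0 hw0 hw' hκ hκ1 hc hl hL hlt hlK (by linarith) (by linarith)
    -- integration over `w`
    have hL13 : 13 / 4 ≤ (l - δ) * L := by
      have h5 : 0 ≤ l' * K := by positivity
      have h6 : 0 ≤ l' * L := by positivity
      linarith
    have hc12 : b * L + 1 ≤ (b + l - δ) * L - 2 := by linarith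
    have h2 := LBn_Mq hRH hW (w1 := w1) (w2 := w2) (τ := (1 - κ) * T) hw1 hw12 hc12 (by positivity)
    have hq : Continuous (fun w : ℝ => qq (max w w1)) :=
      qq_cont.comp_continuous (continuous_id.max continuous_const) fun w =>
        lt_of_lt_of_le hw1 (le_max_right w w1)
    have hcA : Continuous (fun w : ℝ => AC W (b * L + 1) ((b + l - δ) * L - 2) (w * ((1 - κ) * T))) := by
      have h := AC_cont hW.es (by norm_num : (1 : ℝ) / 8 ≤ 3 / 4)
      exact h.comp (continuous_const.prodMk (continuous_const.prodMk (continuous_id.mul continuous_const)))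
    have h3 : II W * (1 - κ) * T * L ^ 2 * (c * (1 - 3 * κ)) * J ≤
        ∫ w in w1..w2, qq (max w w1) * AC W (b * L + 1) ((b + l - δ) * L - 2) (w * ((1 - κ) * T)) := by
      rw [hJ_def, ← intervalIntegral.integral_const_mul]
      apply intervalIntegral.integral_mono_on hw12 ((LBn_ii hw1.le hw12).const_mul _)
        ((hq.mul hcA).intervalIntegrable _ _)
      intro w hw
      have e3 : max w w1 = w := max_eq_left hw.1
      have h4 : 0 ≤ qq w := qq_nonneg (by linarith [hw.1])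
      have h5 := mul_le_mul_of_nonneg_left (hpt w hw) h4
      show II W * (1 - κ) * T * L ^ 2 * (c * (1 - 3 * κ)) * (qq w * w) ≤
        qq (max w w1) * AC W (b * L + 1) ((b + l - δ) * L - 2) (w * ((1 - κ) * T))
      rw [e3]
      linarith
    have h4 : II W * (1 - κ) * T * L ^ 2 * (c * (1 - 3 * κ)) * J ≤
        Mq W (b * L + 1) ((b + l - δ) * L - 2) ((1 - κ) * T) := h3.trans h2
    have hZ : 0 < Real.pi * (T * L ^ 2) * II W := by positivity
    have h5 : (1 - κ) * (c * (1 - 3 * κ)) * (Real.pi⁻¹ * J) ≤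
        (Real.pi * (T * L ^ 2) * II W)⁻¹ * Mq W (b * L + 1) ((b + l - δ) * L - 2) ((1 - κ) * T) := by
      rw [le_inv_mul_iff₀ hZ]
      refine le_trans (le_of_eq ?_) h4
      field_simp
    have h6 : (1 - κ) * ((1 - κ) * (c * (1 - 3 * κ)) * (Real.pi⁻¹ * J)) ≤ (1 - κ) *
        ((Real.pi * (T * L ^ 2) * II W)⁻¹ * Mq W (b * L + 1) ((b + l - δ) * L - 2) ((1 - κ) * T)) :=
      mul_le_mul_of_nonneg_left h5 hξ.le
    have h7 := RHw_fin hκ hκ1 hc hκc hJ
    linarith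
  obtain ⟨T₀, h⟩ := eventually_atTop.1 hmain
  exact ⟨T₀, fun T b hT hb hbA => h T hT b hb hbA⟩

end Pool.Agent.Lib.MP_2a816b_nt.SW
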