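import Pool.Agent.Lib.MP_2a816b_nt.SG.Unif
import Pool.Agent.Lib.MP_2a816b_nt.SW.Fin
import Pool.Agent.Lib.MP_2a816b_nt.SW.RHw
import Pool.Agent.Lib.MP_00e05b_nt.Gap.FIN

/-!
# Windows of exponents, uniformly in the position
-/

namespace Pool.Agent.Lib.MP_2a816b_nt.SW

open Complex Set Filter Topology MeasureTheory

/-- monotonicity in the window -/
theorem win_mono {T b l b' l' : ℝ} (hT : 2 ≤ T) (h1 : b ≤ b') (h2 : 0 ≤ l') (h3 : b' + l' ≤ b + l) :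
    ∫ α in b'..(b' + l'), PV.RR α T ≤ ∫ α in b..(b + l), PV.RR α T :=
  intervalIntegral.integral_mono_interval h1 (by linarith) h3
    (Filter.Eventually.of_forall fun α => PV.RR_nonneg hT α) (PV.star_avg hT (by linarith)).1

/-- a family of lower bounds on a grid gives lower bounds for all windows -/
theorem grid (A : ℝ) {h l : ℝ} (hh : 0 < h) (hl : 0 < l) (f : ℝ → ℝ → ℝ)
    (hf : ∀ b : ℝ, 1 ≤ b → ∀ᶠ T : ℝ in atTop, f b T ≤ ∫ α in b..(b + l), PV.RR α T) :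
    ∃ T₀ : ℝ, ∀ T b : ℝ, T₀ ≤ T → 1 ≤ b → b ≤ A → ∃ b' : ℝ, b ≤ b' ∧ b' ≤ b + h ∧
      f b' T ≤ ∫ α in b..(b + (l + h)), PV.RR α T := by
  have hb : ∀ i : ℕ, (1 : ℝ) ≤ 1 + i * h := fun i => by
    have : 0 ≤ (i : ℝ) * h := by positivity
    linarith
  set N : ℕ := ⌈(A - 1) / h⌉₊ + 1 with hN
  have hall : ∀ᶠ T : ℝ in atTop, ∀ i ∈ Finset.range N, f (1 + i * h) T ≤ ∫ α in (1 + i * h)..(1 + i * h + l), PV.RR α T :=
    (Finset.eventually_all _).2 fun i _ => hf _ (hb i)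
  obtain ⟨T₁, hT₁⟩ := eventually_atTop.1 hall
  refine ⟨max T₁ 2, fun T b hT hb1 hbA => ?_⟩
  have hT1 : T₁ ≤ T := (le_max_left _ _).trans hT
  have hT2 : 2 ≤ T := (le_max_right _ _).trans hT
  set i : ℕ := ⌈(b - 1) / h⌉₊ with hi
  have hi0 : 0 ≤ (b - 1) / h := div_nonneg (by linarith) hh.le
  have hi1 : (b - 1) / h ≤ i := Nat.le_ceil _
  have hi2 : (i : ℝ) < (b - 1) / h + 1 := Nat.ceil_lt_add_one hi0
  rw [div_le_iff₀ hh] at hi1
  have hi3 : (i : ℝ) * h < b - 1 + h := by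
    have := mul_lt_mul_of_pos_right hi2 hh
    rwa [add_mul, div_mul_cancel₀ _ hh.ne', one_mul] at this
  have hiN : i ∈ Finset.range N := by
    rw [Finset.mem_range, hN, Nat.lt_succ_iff]
    exact Nat.ceil_le_ceil (div_le_div_of_nonneg_right (by linarith) hh.le)
  exact ⟨1 + i * h, by linarith, by linarith,
    (hT₁ T hT1 i hiN).trans (win_mono hT2 (by linarith) hl.le (by linarith))⟩

/-- **Every window sees every zero off the critical line.** -/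
theorem sw_all {ρ : ℂ} (hζ : riemannZeta ρ = 0) (h1 : 1 / 2 < ρ.re) {l ε : ℝ} (hl : 0 < l) (hε : 0 < ε) (A : ℝ) :
    ∃ T₀ : ℝ, ∀ T b : ℝ, T₀ ≤ T → 1 ≤ b → b ≤ A →
      T ^ ((2 * ρ.re - 1) * (b + l) - 1 - ε) ≤ ∫ α in b..(b + l), PV.RR α T := by
  have hρ1 : ρ.re < 1 := by
    by_contra hcon
    exact riemannZeta_ne_zero_of_one_le_re (not_lt.1 hcon) hζ
  set r : ℝ := min l (ε / 4) with hr
  have hr0 : 0 < r := lt_min hl (by linarith)
  have hrl : r ≤ l := min_le_left _ _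
  have hrε : r ≤ ε / 4 := min_le_right _ _
  set h : ℝ := r / 2 with hh
  have hh0 : 0 < h := by rw [hh]; linarith
  obtain ⟨T₀, H⟩ := grid (A + l) (h := h) (l := h) hh0 hh0 (fun b T => T ^ ((2 * ρ.re - 1) * b - 1 - ε / 2))
    (fun b hb => sw_left hζ h1 hb hh0 (by linarith))
  refine ⟨max T₀ 2, fun T b hT hb hbA => ?_⟩
  have hT0 : T₀ ≤ T := (le_max_left _ _).trans hT
  have hT2 : 2 ≤ T := (le_max_right _ _).trans hT
  obtain ⟨b', hb1, hb2, hb3⟩ := H T (b + l - r) hT0 (by linarith) (by linarith)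
  have h2 : ∫ α in (b + l - r)..(b + l - r + (h + h)), PV.RR α T ≤ ∫ α in b..(b + l), PV.RR α T :=
    win_mono hT2 (by linarith) (by linarith) (by linarith)
  refine le_trans (Real.rpow_le_rpow_of_exponent_le (by linarith) ?_) (hb3.trans h2)
  have h3 : (2 * ρ.re - 1) * (b + l - r) ≤ (2 * ρ.re - 1) * b' := mul_le_mul_of_nonneg_left hb1 (by linarith)
  have h4 : (2 * ρ.re - 1) * r ≤ 1 * r := mul_le_mul_of_nonneg_right (by linarith) hr0.le
  linarith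

/-- Under the Riemann Hypothesis: an explicit constant. -/
theorem unif_true (hRH : RiemannHypothesis) : ∃ C : ℝ, 0 < C ∧ ∀ ε : ℝ, 0 < ε → ε ≤ 1 → ∀ A : ℝ, ∃ T₀ : ℝ, ∀ T b : ℝ,
    T₀ ≤ T → 1 ≤ b → b ≤ A → Real.exp (-(C / ε ^ 2)) ≤ ∫ α in b..(b + 1 + ε), PV.RR α T := by
  obtain ⟨C, hC, H⟩ := Pool.Agent.Lib.MP_00e05b_nt.Gap.no_gap_explicit hRH
  refine ⟨4 * C + 1, by positivity, fun ε hε hε1 A => ?_⟩
  obtain ⟨t₀, ht₀⟩ := H (ε / 2) (by linarith) (by linarith)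
  set c : ℝ := Real.exp (-(C / (ε / 2) ^ 2)) with hc
  obtain ⟨T₀, hT₀⟩ := rr_of_ff hRH (l := 1 + ε) (l' := 1 + ε / 2) (c := c) (by linarith) (by linarith) (Real.exp_pos _)
    ⟨t₀, fun t ht a _ => by
      have := ht₀ t ht a
      rwa [add_assoc] at this⟩ A
  refine ⟨T₀, fun T b hT hb hbA => ?_⟩
  have h1 := hT₀ T b hT hb hbA
  rw [← add_assoc] at h1
  refine le_trans ?_ h1
  have h2 : Real.exp (-1) ≤ 1 / 2 := by
    have h3 : (2 : ℝ) ≤ Real.exp 1 := by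
      have := Real.add_one_le_exp (1 : ℝ)
      linarith
    rw [Real.exp_neg, inv_eq_one_div]
    exact one_div_le_one_div_of_le (by norm_num) h3
  have h4 : -((4 * C + 1) / ε ^ 2) ≤ -1 + -(C / (ε / 2) ^ 2) := by
    have e1 : C / (ε / 2) ^ 2 = 4 * C / ε ^ 2 := by field_simp; ring
    have e2 : 1 ≤ 1 / ε ^ 2 := by
      rw [le_div_iff₀ (by positivity), one_mul]
      nlinarith
    rw [e1, add_div]
    linarith
  calc Real.exp (-((4 * C + 1) / ε ^ 2)) ≤ Real.exp (-1 + -(C / (ε / 2) ^ 2)) := Real.exp_le_exp.2 h4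
    _ = Real.exp (-1) * c := by rw [Real.exp_add]
    _ ≤ 1 / 2 * c := mul_le_mul_of_nonneg_right h2 (Real.exp_pos _).le
    _ = c / 2 := by ring

/-- **A constant independent of the position of the window.** -/
theorem unif {l : ℝ} (hl : 1 < l) : ∃ c : ℝ, 0 < c ∧ ∀ A : ℝ, ∃ T₀ : ℝ, ∀ T b : ℝ, T₀ ≤ T → 1 ≤ b → b ≤ A →
    c ≤ ∫ α in b..(b + l), PV.RR α T := by
  by_cases hRH : RiemannHypothesis
  · obtain ⟨C, hC, H⟩ := unif_true hRH
    set ε : ℝ := min (l - 1) 1 with hε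
    have hε0 : 0 < ε := lt_min (by linarith) one_pos
    have hεl : ε ≤ l - 1 := min_le_left _ _
    refine ⟨Real.exp (-(C / ε ^ 2)), Real.exp_pos _, fun A => ?_⟩
    obtain ⟨T₀, hT₀⟩ := H ε hε0 (min_le_right _ _) A
    refine ⟨max T₀ 2, fun T b hT hb hbA => ?_⟩
    have h1 := hT₀ T b ((le_max_left _ _).trans hT) hb hbA
    have h2 : ∫ α in b..(b + (1 + ε)), PV.RR α T ≤ ∫ α in b..(b + l), PV.RR α T :=
      win_mono ((le_max_right _ _).trans hT) le_rfl (by linarith) (by linarith)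
    rw [← add_assoc] at h2
    exact h1.trans h2
  · obtain ⟨ρ, hρ, hζ⟩ : ∃ ρ : ℂ, 1 / 2 < ρ.re ∧ riemannZeta ρ = 0 := by
      by_contra hcon
      push Not at hcon
      exact hRH (PV.RH_of_zfree fun ρ h _ => hcon ρ h)
    set μ : ℝ := 2 * ρ.re - 1 with hμ
    have hμ0 : 0 < μ := by rw [hμ]; linarith
    set b₁ : ℝ := 2 / μ with hb₁
    obtain ⟨c, T₁, hc, H₁⟩ := SG.no_gap_unif b₁ hl
    refine ⟨min c 1, lt_min hc one_pos, fun A => ?_⟩
    obtain ⟨T₂, H₂⟩ := sw_all hζ hρ (l := l) (ε := 1) (by linarith) one_pos A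
    refine ⟨max (max T₁ T₂) 2, fun T b hT hb hbA => ?_⟩
    have hT1 : T₁ ≤ T := (le_max_left _ _).trans ((le_max_left _ _).trans hT)
    have hT2 : T₂ ≤ T := (le_max_right _ _).trans ((le_max_left _ _).trans hT)
    have hT3 : 2 ≤ T := (le_max_right _ _).trans hT
    rcases le_total b b₁ with h | h
    · exact (min_le_left _ _).trans (H₁ T b hT1 hb h)
    · refine (min_le_right _ _).trans (le_trans ?_ (H₂ T b hT2 hb hbA))
      refine Real.one_le_rpow (by linarith) ?_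
      have h3 : μ * b₁ = 2 := by rw [hb₁]; field_simp
      have h4 : μ * b₁ ≤ μ * b := mul_le_mul_of_nonneg_left h hμ0.le
      have h5 : 0 ≤ μ * l := by positivity
      rw [← hμ]
      nlinarith

end Pool.Agent.Lib.MP_2a816b_nt.SW
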